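import Pool.Agent.Helper40.Cut.Sets

/-!
Overspill, underspill, coding of bounded functions on `ω`.
-/

namespace Helper40.Cut

universe u

variable {M : Type u} [CommSemiring M] [LinearOrder M] [IsStrictOrderedRing M]
  [CanonicallyOrderedAdd M] {e : M → M}

theorem not_def_cut [EBase e] {I : Set M} (hI : IsCut I)
    (hP : Def e (fun v => v 0 ∈ I)) : False := by
  refine hI.proper (Set.eq_univ_of_forall fun x => ?_)
  refine EBase.ind (e := e) (fun x => x ∈ I) hP ?_ (fun x hx => hI.succ x hx) x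
  obtain ⟨y, hy⟩ := hI.nonempty
  exact hI.down y hy 0 (zero_le (a := y))

theorem overspill [EBase e] {I : Set M} (hI : IsCut I) {P : M → Prop}
    (hP : Def e (fun v => P (v 0))) (h : ∀ x ∈ I, P x) : ∃ c, c ∉ I ∧ ∀ x, x ≤ c → P x := by
  by_contra hcon
  push Not at hcon
  refine not_def_cut (e := e) hI ?_
  have h1 : Def e (fun v => ∀ y, y ≤ v 0 → P y) :=
    Def.ble (R := fun y _ => P y) (DF.var 0) hP
  refine h1.congr fun v => ?_
  constructor
  · intro h2
    by_contra h3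
    obtain ⟨x, hx, hxP⟩ := hcon (v 0) h3
    exact hxP (h2 x hx)
  · intro h2 y hy
    exact h y (hI.down _ h2 y hy)

theorem underspill [EBase e] {I : Set M} (hI : IsCut I) {P : M → Prop}
    (hP : Def e (fun v => P (v 0))) {b : M} (hb : b ∉ I) (h : ∀ x, x ∉ I → x ≤ b → P x) :
    ∃ x ∈ I, ∀ y, x ≤ y → y ≤ b → P y := by
  by_contra hcon
  push Not at hcon
  refine not_def_cut (e := e) hI ?_
  have h1 : Def e (fun v => ∀ y, y ≤ b → (v 0 ≤ y → P y)) := by
    refine Def.ble (R := fun y v => v 0 ≤ y → P y) (DF.cst b) ?_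
    exact (Def.le (DF.var 1) (DF.var 0)).imp hP
  refine h1.not.congr fun v => ?_
  constructor
  · intro h2
    by_contra h3
    refine h2 fun y hyb hvy => h y (fun hy => h3 (hI.down y hy _ hvy)) hyb
  · intro h2 h3
    obtain ⟨y, hvy, hyb, hyP⟩ := hcon (v 0) h2
    exact hyP (h3 y hyb hvy)

theorem St_isCut (e : M → M) [Sat e] : IsCut (St M) where
  nonempty := ⟨0, 0, by simp⟩
  proper := by
    obtain ⟨c, hc⟩ := Sat.ne (e := e)
    intro h
    exact hc (h ▸ Set.mem_univ c)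
  down := fun x hx y hyx => St_down e hx hyx
  succ := by
    rintro x ⟨n, rfl⟩
    exact ⟨n + 1, by push_cast; rfl⟩

theorem overspill_St [Sat e] {P : M → Prop} (hP : Def e (fun v => P (v 0)))
    (h : ∀ n : ℕ, P n) : ∃ c, c ∉ St M ∧ ∀ x, x ≤ c → P x := by
  refine overspill (e := e) (St_isCut e) hP ?_
  rintro x ⟨n, rfl⟩
  exact h n

/-- bounded functions on `ω` extend to definable functions -/
theorem coded_fun [Sat e] (g : ℕ → M) (b : M) (hg : ∀ n, g n < b) :
    ∃ G : M → M, DF e (fun v => G (v 0)) ∧ (∀ n : ℕ, G n = g n) ∧ ∀ x, G x < b := by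
  obtain ⟨F, hF⟩ := Sat.cod (e := e) g ⟨b, hg⟩
  have hb0 : 0 < b := lt_of_le_of_lt (zero_le (a := g 0)) (hg 0)
  have hdef : Def e (fun v => v 0 < b ∧ mem e (pair (v 1) (v 0)) F) :=
    (Def.lt (DF.var 0) (DF.cst b)).and (Def.memD (DF.pairD (DF.var 1) (DF.var 0)) (DF.cst F))
  have hfix : ∀ x : M, Def e (fun v => v 0 < b ∧ mem e (pair x (v 0)) F) := fun x =>
    (Def.lt (DF.var 0) (DF.cst b)).and (Def.memD (DF.pairD (DF.cst x) (DF.var 0)) (DF.cst F))
  refine ⟨fun x => mu (fun y => y < b ∧ mem e (pair x y) F), ?_, ?_, ?_⟩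
  · refine DF.muD (P := fun y v => y < b ∧ mem e (pair (v 0) y) F) (b := fun _ => b) hdef
      (DF.cst b) ?_
    rintro v ⟨y, hy, hy2⟩
    exact ⟨y, hy.le, hy, hy2⟩
  · intro n
    have h1 := (mu_spec (fun y => y < b ∧ mem e (pair (n : M) y) F) (hfix n)
      ⟨g n, hg n, (hF n (g n)).2 rfl⟩).1
    exact (hF n _).1 h1.2
  · intro x
    by_cases hx : ∃ y, y < b ∧ mem e (pair x y) F
    · exact (mu_spec (fun y => y < b ∧ mem e (pair x y) F) (hfix x) hx).1.1
    · show mu (fun y => y < b ∧ mem e (pair x y) F) < b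
      rw [mu_eq_zero _ hx]
      exact hb0

/-- countably many nonstandard elements have a nonstandard lower bound -/
theorem St_lower (e : M → M) [Sat e] (g : ℕ → M) (hg : ∀ n, g n ∉ St M) :
    ∃ c, c ∉ St M ∧ ∀ n, c ≤ g n := by
  obtain ⟨c0, hc0⟩ := Sat.ne (e := e)
  obtain ⟨G, hG, hGn, -⟩ := coded_fun (e := e) (fun n => min (g n) c0) (c0 + 1)
    (fun n => lt_of_le_of_lt (min_le_right _ _) (lt_add_one _))
  have hdef : Def e (fun v => ∀ m, m ≤ v 0 → v 0 ≤ G m) :=
    Def.ble (R := fun m v => v 0 ≤ G m) (DF.var 0) (Def.le (DF.var 1) hG)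
  have hst : ∀ n : ℕ, ∀ m, m ≤ (n : M) → (n : M) ≤ G m := by
    intro n m hm
    obtain ⟨k, rfl⟩ := St_down e (nat_mem_St n) hm
    rw [hGn]
    exact le_min (nat_lt_of_not_St e (hg k) n).le (nat_lt_of_not_St e hc0 n).le
  obtain ⟨c, hc, hcP⟩ := overspill_St (e := e) (P := fun x => ∀ m, m ≤ x → x ≤ G m) hdef hst
  refine ⟨c, hc, fun n => ?_⟩
  have h1 := hcP c le_rfl n (nat_lt_of_not_St e hc n).le
  rw [hGn] at h1
  exact h1.trans (min_le_left _ _)

/-- below a nonstandard element there is a nonstandard `d` with `e d` still below -/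
theorem St_log (e : M → M) [Sat e] {c : M} (hc : c ∉ St M) : ∃ d, d ∉ St M ∧ e d ≤ c := by
  have hst : ∀ n : ℕ, e (n : M) ≤ c := by
    intro n
    have h1 : e (n : M) ∈ St M := by
      induction n with
      | zero =>
        rw [Nat.cast_zero, EBase.e_zero (e := e)]
        exact ⟨1, by simp⟩
      | succ n ih =>
        rw [Nat.cast_succ, EBase.e_succ (e := e)]
        exact St_mul ⟨2, by norm_num⟩ ih
    obtain ⟨k, hk⟩ := h1
    rw [hk]
    exact (nat_lt_of_not_St e hc k).le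
  obtain ⟨d, hd, hdP⟩ := overspill_St (e := e) (P := fun x => e x ≤ c)
    (Def.le (DF.ex (DF.var 0)) (DF.cst c)) hst
  exact ⟨d, hd, hdP d le_rfl⟩

end Helper40.Cut
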