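import Mathlib

/-!
Definitions for MP_3b55d8_lc: models of PA^- + I Sigma_0 + exp, M-finite sets, the reducibility
A ≤ B, degrees, cuts.

Relations are given on valuations `v : ℕ → M` of the variables `v 0, v 1, ...`; a relation of
`k` elements is written `fun v => R (v 0) ... (v (k - 1))`.
-/

namespace Helper40.Cut

universe u

/-- put `x` in front of the valuation `v` -/
def push {M : Type u} (x : M) (v : ℕ → M) : ℕ → M
  | 0 => x
  | n + 1 => v n

section Syn

variable {M : Type u} [CommSemiring M] [LinearOrder M]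

/-- terms of the language `0, 1, +, *` with parameters from `M`, as functions of the variables -/
inductive PolyF : ((ℕ → M) → M) → Prop
  | var (n : ℕ) : PolyF (fun v => v n)
  | cst (a : M) : PolyF (fun _ => a)
  | add {f g : (ℕ → M) → M} : PolyF f → PolyF g → PolyF (fun v => f v + g v)
  | mul {f g : (ℕ → M) → M} : PolyF f → PolyF g → PolyF (fun v => f v * g v)

/-- relations defined by bounded formulas of the language `0, 1, +, *, <` with parameters from `M`
(Sigma_0 formulas): equations, inequalities, negation, conjunction, bounded quantifiers -/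
inductive S0 : ((ℕ → M) → Prop) → Prop
  | eq {f g : (ℕ → M) → M} : PolyF f → PolyF g → S0 (fun v => f v = g v)
  | lt {f g : (ℕ → M) → M} : PolyF f → PolyF g → S0 (fun v => f v < g v)
  | not {R : (ℕ → M) → Prop} : S0 R → S0 (fun v => ¬ R v)
  | and {R S : (ℕ → M) → Prop} : S0 R → S0 S → S0 (fun v => R v ∧ S v)
  | ball {t : (ℕ → M) → M} {R : (ℕ → M) → Prop} : PolyF t → S0 R →
      S0 (fun v => ∀ x, x < t v → R (push x v))

/-- Sigma_1 definable (with parameters) -/
def S1 (R : (ℕ → M) → Prop) : Prop :=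
  ∃ S : (ℕ → M) → Prop, S0 S ∧ ∀ v, R v ↔ ∃ y, S (push y v)

/-- `M` with the function `e` is a model of PA^- + I Sigma_0 + exp, `e x` being `2 ^ x`.
The axioms of PA^- other than discreteness are in the classes
`[CommSemiring M] [LinearOrder M] [IsStrictOrderedRing M] [CanonicallyOrderedAdd M]`. -/
structure Base (e : M → M) : Prop where
  disc : ∀ x : M, 0 < x → 1 ≤ x
  ind : ∀ P : M → Prop, S0 (fun v => P (v 0)) → P 0 → (∀ x, P x → P (x + 1)) → ∀ x, P x
  e_def : S0 (fun v : ℕ → M => v 1 = e (v 0))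
  e_zero : e 0 = 1
  e_succ : ∀ x, e (x + 1) = 2 * e x

/-- the collection scheme for Sigma_1 relations -/
def BS1 (M : Type u) [CommSemiring M] [LinearOrder M] : Prop :=
  ∀ R : M → M → Prop, S1 (fun v => R (v 0) (v 1)) →
    ∀ a, (∀ x, x < a → ∃ y, R x y) → ∃ t, ∀ x, x < a → ∃ y, y < t ∧ R x y

/-- the `x`-th binary digit of `a` is `1` -/
def mem (e : M → M) (x a : M) : Prop := ∃ q r, r < e x ∧ a = (2 * q + 1) * e x + r

/-- a pairing function -/
def pair (x y : M) : M := (x + y) * (x + y) + x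

/-- the M-finite set coded by `X` is contained in `A` -/
def Sub (e : M → M) (X : M) (A : Set M) : Prop := ∀ x, mem e x X → x ∈ A

/-- the reducibility `A ≤ B` -/
def Red (e : M → M) (A B : Set M) : Prop :=
  ∃ Φ : M → M → M → M → Prop, S1 (fun v => Φ (v 0) (v 1) (v 2) (v 3)) ∧
    (∀ X, Sub e X A ↔ ∃ K L, Sub e K B ∧ Sub e L Bᶜ ∧ Φ X 1 K L) ∧
    (∀ X, Sub e X Aᶜ ↔ ∃ K L, Sub e K B ∧ Sub e L Bᶜ ∧ Φ X 0 K L)

/-- the degrees: classes of mutual reducibility -/
def Deg (e : M → M) : Type u :=
  {c : Set (Set M) // ∃ A, c = {B | Red e A B ∧ Red e B A}}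

/-- the degree of `A` -/
def deg (e : M → M) (A : Set M) : Deg e := ⟨{B | Red e A B ∧ Red e B A}, A, rfl⟩

instance (e : M → M) : LE (Deg e) := ⟨fun c d => ∃ A ∈ c.1, ∃ B ∈ d.1, Red e A B⟩

/-- the standard cut `ω` -/
def St (M : Type u) [CommSemiring M] : Set M := {x | ∃ n : ℕ, x = n}

/-- cuts: nonempty proper downward closed subsets closed under successor -/
structure IsCut (I : Set M) : Prop where
  nonempty : I.Nonempty
  proper : I ≠ Set.univ
  down : ∀ x ∈ I, ∀ y, y ≤ x → y ∈ I
  succ : ∀ x ∈ I, x + 1 ∈ I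

/-- every bounded function `ω → M` is coded: there is an M-finite set `F` such that
`⟨n, y⟩ ∈ F ↔ y = g n` for all standard `n` and all `y` -/
def Coded (e : M → M) : Prop :=
  ∀ g : ℕ → M, (∃ b, ∀ n, g n < b) → ∃ F, ∀ (n : ℕ) (y : M), mem e (pair (n : M) y) F ↔ y = g n

end Syn

end Helper40.Cut
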