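import Pool.Agent.Helper40.Cut.Defs2

/-!
From the language `0, 1, +, *, <` to the language with exponentiation.
-/

namespace Helper40.Cut

universe u

namespace Pure

section Syn

variable {M : Type u} [CommSemiring M] [LinearOrder M]

omit [LinearOrder M] in
theorem PolyF.toT {e : M → M} {f : (ℕ → M) → M} (hf : PolyF f) : T e f := by
  induction hf with
  | var n => exact T.var n
  | cst a => exact T.cst a
  | add _ _ h1 h2 => exact T.add h1 h2
  | mul _ _ h1 h2 => exact T.mul h1 h2

theorem S0.toDef {e : M → M} {R : (ℕ → M) → Prop} (h : S0 R) : Def e R := by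
  induction h with
  | eq hf hg => exact Def.eqT (PolyF.toT hf) (PolyF.toT hg)
  | lt hf hg => exact Def.ltT (PolyF.toT hf) (PolyF.toT hg)
  | not _ ih => exact Def.not ih
  | and _ _ ih1 ih2 => exact Def.and ih1 ih2
  | ball ht _ ih => exact Def.ballT (PolyF.toT ht) ih

omit [LinearOrder M] in
theorem PolyF.subst {f : (ℕ → M) → M} (hf : PolyF f) (s : ℕ → (ℕ → M) → M)
    (hs : ∀ n, PolyF (s n)) : PolyF (fun v => f (fun n => s n v)) := by
  induction hf with
  | var n => exact hs n
  | cst a => exact PolyF.cst a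
  | add _ _ h1 h2 => exact PolyF.add h1 h2
  | mul _ _ h1 h2 => exact PolyF.mul h1 h2

omit [LinearOrder M] in
theorem PolyF.tail {f : (ℕ → M) → M} (hf : PolyF f) : PolyF (fun v => f (tl v)) :=
  PolyF.subst hf (fun n v => v (n + 1)) (fun n => PolyF.var (n + 1))

theorem S0.congr {R S : (ℕ → M) → Prop} (h : S0 R) (hRS : ∀ v, R v ↔ S v) : S0 S := by
  have : R = S := funext fun v => propext (hRS v)
  exact this ▸ h

theorem S0.subst {R : (ℕ → M) → Prop} (h : S0 R) :
    ∀ (s : ℕ → (ℕ → M) → M), (∀ n, PolyF (s n)) → S0 (fun v => R (fun n => s n v)) := by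
  induction h with
  | eq hf hg => intro s hs; exact S0.eq (PolyF.subst hf s hs) (PolyF.subst hg s hs)
  | lt hf hg => intro s hs; exact S0.lt (PolyF.subst hf s hs) (PolyF.subst hg s hs)
  | not _ ih => intro s hs; exact S0.not (ih s hs)
  | and _ _ ih1 ih2 => intro s hs; exact S0.and (ih1 s hs) (ih2 s hs)
  | @ball t R ht _ ih =>
    intro s hs
    have h1 := ih (fun n => Nat.casesOn n (fun v => v 0) (fun m v => s m (tl v)))
      (fun n => by
        cases n with
        | zero => exact PolyF.var 0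
        | succ m => exact PolyF.tail (hs m))
    refine S0.congr (S0.ball (PolyF.subst ht s hs) h1) fun v => ?_
    refine forall_congr' fun x => imp_congr_right fun _ => ?_
    have : (fun n => (Nat.casesOn (motive := fun _ => (ℕ → M) → M) n (fun v => v 0)
        (fun m v => s m (tl v)) : (ℕ → M) → M) (push x v)) = push x (fun n => s n v) := by
      funext n; cases n <;> rfl
    rw [this]

theorem S0.rename {R : (ℕ → M) → Prop} (h : S0 R) (ρ : ℕ → ℕ) :
    S0 (fun v => R (fun n => v (ρ n))) :=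
  S0.subst h (fun n v => v (ρ n)) (fun n => PolyF.var (ρ n))

theorem S0.or {R S : (ℕ → M) → Prop} (hR : S0 R) (hS : S0 S) : S0 (fun v => R v ∨ S v) :=
  S0.congr (S0.not (S0.and (S0.not hR) (S0.not hS))) fun v => by tauto

theorem S0.imp {R S : (ℕ → M) → Prop} (hR : S0 R) (hS : S0 S) : S0 (fun v => R v → S v) :=
  S0.congr (S0.not (S0.and hR (S0.not hS))) fun v => by tauto

theorem S0.ball' {t : (ℕ → M) → M} {R : M → (ℕ → M) → Prop} (ht : PolyF t)
    (h : S0 (fun v => R (v 0) (tl v))) : S0 (fun v => ∀ x, x < t v → R x v) :=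
  S0.ball ht h

theorem S0.bex' {t : (ℕ → M) → M} {R : M → (ℕ → M) → Prop} (ht : PolyF t)
    (h : S0 (fun v => R (v 0) (tl v))) : S0 (fun v => ∃ x, x < t v ∧ R x v) :=
  S0.congr (S0.not (S0.ball' (R := fun x v => ¬ R x v) ht (S0.not h))) fun v => by
    push Not; rfl

/-- relation with two front variables: rename the front variables to `i`, `j` and shift the
others by `k` -/
theorem S0.front2 {G : M → M → (ℕ → M) → Prop}
    (hG : S0 (fun v => G (v 0) (v 1) (tl (tl v)))) (i j k : ℕ) :
    S0 (fun v => G (v i) (v j) (fun n => v (n + k))) :=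
  S0.rename hG (fun n => if n = 0 then i else if n = 1 then j else n - 2 + k)

theorem S0.front1 {G : M → (ℕ → M) → Prop}
    (hG : S0 (fun v => G (v 0) (tl v))) (i k : ℕ) :
    S0 (fun v => G (v i) (fun n => v (n + k))) :=
  S0.rename hG (fun n => if n = 0 then i else n - 1 + k)

end Syn

section Sem

variable {M : Type u} [CommSemiring M] [LinearOrder M] [IsStrictOrderedRing M]
  [CanonicallyOrderedAdd M] {e : M → M}

omit [IsStrictOrderedRing M] in
theorem pos_of_lt_add {x z : M} (h : x < x + z) : 0 < z := by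
  rcases eq_or_lt_of_le (zero_le (a := z)) with h0 | h0
  · rw [← h0, add_zero] at h; exact absurd h (lt_irrefl _)
  · exact h0

theorem lt_succ_iff (hB : Base e) {x y : M} : x < y + 1 ↔ x ≤ y := by
  constructor
  · intro h
    by_contra h'
    obtain ⟨z, hz⟩ := exists_add_of_le (not_le.1 h').le
    have hlt : y < y + z := by rw [← hz]; exact not_le.1 h'
    have := hB.disc z (pos_of_lt_add hlt)
    rw [hz] at h
    exact absurd h (not_lt.2 (add_le_add_right this _))
  · intro h; exact lt_of_le_of_lt h (lt_add_one _)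

omit [IsStrictOrderedRing M] in
theorem e_monoB (hB : Base e) : Monotone e := by
  intro x y hxy
  obtain ⟨z, rfl⟩ := exists_add_of_le hxy
  have key : ∀ z : M, ∀ w, w < e x → ¬ w = e (x + z) := by
    intro z
    refine hB.ind (fun z => ∀ w, w < e x → ¬ w = e (x + z)) ?_ ?_ ?_ z
    · refine S0.ball' (t := fun _ => e x) (R := fun w v => ¬ w = e (x + v 0)) (PolyF.cst (e x)) ?_
      refine S0.not ?_
      exact S0.subst hB.e_def (fun n => if n = 0 then (fun v => x + v 1) else (fun v => v 0))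
        (fun n => by
          by_cases h : n = 0
          · simpa [h] using PolyF.add (PolyF.cst x) (PolyF.var 1)
          · simpa [h] using (PolyF.var 0 : PolyF (fun v : ℕ → M => v 0)))
    · intro w hw h
      rw [add_zero] at h
      exact absurd hw (by rw [h]; exact lt_irrefl _)
    · intro z ih w hw h
      rw [← add_assoc, hB.e_succ, two_mul] at h
      have h2 : e (x + z) ≤ w := by rw [h]; exact le_self_add
      exact ih (e (x + z)) (lt_of_le_of_lt h2 hw) rfl
  by_contra h
  exact key z _ (not_le.1 h) rfl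

/-- bounded approximation of the graph of `f` -/
def Apr (e : M → M) (f : (ℕ → M) → M) : Prop :=
  ∃ (G : M → M → (ℕ → M) → Prop) (β : (ℕ → M) → M),
    S0 (fun v => G (v 0) (v 1) (tl (tl v))) ∧ T e β ∧
    (∀ w y v, G w y v → y = f v) ∧ (∀ w v, β v ≤ w → G w (f v) v)

theorem lt_of_add {a b c w : M} (h : a + b + c + 1 ≤ w) : c < w :=
  lt_of_lt_of_le (lt_of_le_of_lt le_add_self (lt_add_one (a + b + c))) h

omit [IsStrictOrderedRing M] in
theorem le_of_add1 {a b c w : M} (h : a + b + c + 1 ≤ w) : a ≤ w :=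
  le_trans (le_trans (le_trans le_self_add le_self_add) le_self_add) h

omit [IsStrictOrderedRing M] in
theorem le_of_add2 {a b c w : M} (h : a + b + c + 1 ≤ w) : b ≤ w :=
  le_trans (le_trans (le_trans le_add_self le_self_add) le_self_add) h

theorem apr (hB : Base e) {f : (ℕ → M) → M} (hf : T e f) : Apr e f := by
  induction hf with
  | var n =>
    refine ⟨fun _ y v => y = v n, fun _ => 0, ?_, T.cst 0, fun w y v h => h, fun w v _ => rfl⟩
    exact S0.eq (PolyF.var 1) (PolyF.var (n + 2))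
  | cst a =>
    refine ⟨fun _ y _ => y = a, fun _ => 0, ?_, T.cst 0, fun w y v h => h, fun w v _ => rfl⟩
    exact S0.eq (PolyF.var 1) (PolyF.cst a)
  | @add f g hf hg ihf ihg =>
    obtain ⟨F, β, hF, hβ, hF1, hF2⟩ := ihf
    obtain ⟨G, γ, hG, hγ, hG1, hG2⟩ := ihg
    refine ⟨fun w y v => ∃ a, a < w ∧ ∃ b, b < w ∧ (F w a v ∧ G w b v ∧ y = a + b),
      fun v => β v + γ v + (f v + g v) + 1, ?_, ((hβ.add hγ).add (hf.add hg)).add (T.cst 1), ?_, ?_⟩
    · refine S0.bex' (R := fun a v => ∃ b, b < v 0 ∧ (F (v 0) a (tl (tl v)) ∧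
        G (v 0) b (tl (tl v)) ∧ v 1 = a + b)) (PolyF.var 0) ?_
      refine S0.bex' (R := fun b v => F (v 1) (v 0) (tl (tl (tl v))) ∧
        G (v 1) b (tl (tl (tl v))) ∧ v 2 = v 0 + b) (PolyF.var 1) ?_
      refine S0.and ?_ (S0.and ?_ ?_)
      · exact S0.front2 hF 2 1 4
      · exact S0.front2 hG 2 0 4
      · exact S0.eq (PolyF.var 3) (PolyF.add (PolyF.var 1) (PolyF.var 0))
    · rintro w y v ⟨a, _, b, _, h1, h2, h3⟩
      rw [h3, hF1 _ _ _ h1, hG1 _ _ _ h2]
    · intro w v h
      have h0 := lt_of_add h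
      refine ⟨f v, lt_of_le_of_lt le_self_add h0, g v, lt_of_le_of_lt le_add_self h0, ?_, ?_, rfl⟩
      · exact hF2 _ _ (le_of_add1 h)
      · exact hG2 _ _ (le_of_add2 h)
  | @mul f g hf hg ihf ihg =>
    obtain ⟨F, β, hF, hβ, hF1, hF2⟩ := ihf
    obtain ⟨G, γ, hG, hγ, hG1, hG2⟩ := ihg
    refine ⟨fun w y v => ∃ a, a < w ∧ ∃ b, b < w ∧ (F w a v ∧ G w b v ∧ y = a * b),
      fun v => β v + γ v + (f v + g v) + 1, ?_, ((hβ.add hγ).add (hf.add hg)).add (T.cst 1), ?_, ?_⟩
    · refine S0.bex' (R := fun a v => ∃ b, b < v 0 ∧ (F (v 0) a (tl (tl v)) ∧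
        G (v 0) b (tl (tl v)) ∧ v 1 = a * b)) (PolyF.var 0) ?_
      refine S0.bex' (R := fun b v => F (v 1) (v 0) (tl (tl (tl v))) ∧
        G (v 1) b (tl (tl (tl v))) ∧ v 2 = v 0 * b) (PolyF.var 1) ?_
      refine S0.and ?_ (S0.and ?_ ?_)
      · exact S0.front2 hF 2 1 4
      · exact S0.front2 hG 2 0 4
      · exact S0.eq (PolyF.var 3) (PolyF.mul (PolyF.var 1) (PolyF.var 0))
    · rintro w y v ⟨a, _, b, _, h1, h2, h3⟩
      rw [h3, hF1 _ _ _ h1, hG1 _ _ _ h2]
    · intro w v h
      have h0 := lt_of_add h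
      refine ⟨f v, lt_of_le_of_lt le_self_add h0, g v, lt_of_le_of_lt le_add_self h0, ?_, ?_, rfl⟩
      · exact hF2 _ _ (le_of_add1 h)
      · exact hG2 _ _ (le_of_add2 h)
  | @ex f hf ihf =>
    obtain ⟨F, β, hF, hβ, hF1, hF2⟩ := ihf
    refine ⟨fun w y v => ∃ a, a < w ∧ (F w a v ∧ y = e a),
      fun v => β v + 0 + f v + 1, ?_, ((hβ.add (T.cst 0)).add hf).add (T.cst 1), ?_, ?_⟩
    · refine S0.bex' (R := fun a v => F (v 0) a (tl (tl v)) ∧ v 1 = e a) (PolyF.var 0) ?_
      refine S0.and ?_ ?_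
      · exact S0.front2 hF 1 0 3
      · exact S0.rename hB.e_def (fun n => if n = 0 then 0 else 2)
    · rintro w y v ⟨a, _, h1, h3⟩
      rw [h3, hF1 _ _ _ h1]
    · intro w v h
      have h0 := lt_of_add h
      refine ⟨f v, h0, ?_, rfl⟩
      exact hF2 _ _ (le_of_add1 h)

/-- bounded approximations of the relation `R` and of its complement -/
def AprR (e : M → M) (R : (ℕ → M) → Prop) : Prop :=
  ∃ (P N : M → (ℕ → M) → Prop) (β : (ℕ → M) → M),
    S0 (fun v => P (v 0) (tl v)) ∧ S0 (fun v => N (v 0) (tl v)) ∧ T e β ∧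
    (∀ w v, P w v → R v) ∧ (∀ w v, N w v → ¬ R v) ∧ (∀ w v, β v ≤ w → P w v ∨ N w v)

/-- relations between two terms -/
theorem aprR_rel (hB : Base e) {f g : (ℕ → M) → M} (hf : T e f) (hg : T e g)
    (C : M → M → Prop) (hC : S0 (fun v => C (v 0) (v 1))) :
    AprR e (fun v => C (f v) (g v)) := by
  obtain ⟨F, β, hF, hβ, hF1, hF2⟩ := apr hB hf
  obtain ⟨G, γ, hG, hγ, hG1, hG2⟩ := apr hB hg
  refine ⟨fun w v => ∃ a, a < w ∧ ∃ b, b < w ∧ (F w a v ∧ G w b v ∧ C a b),
    fun w v => ∃ a, a < w ∧ ∃ b, b < w ∧ (F w a v ∧ G w b v ∧ ¬ C a b),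
    fun v => β v + γ v + (f v + g v) + 1, ?_, ?_,
    ((hβ.add hγ).add (hf.add hg)).add (T.cst 1), ?_, ?_, ?_⟩
  · refine S0.bex' (R := fun a v => ∃ b, b < v 0 ∧ (F (v 0) a (tl v) ∧
      G (v 0) b (tl v) ∧ C a b)) (PolyF.var 0) ?_
    refine S0.bex' (R := fun b v => F (v 1) (v 0) (tl (tl v)) ∧
      G (v 1) b (tl (tl v)) ∧ C (v 0) b) (PolyF.var 1) ?_
    refine S0.and ?_ (S0.and ?_ ?_)
    · exact S0.front2 hF 2 1 3
    · exact S0.front2 hG 2 0 3
    · exact S0.rename hC (fun n => if n = 0 then 1 else 0)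
  · refine S0.bex' (R := fun a v => ∃ b, b < v 0 ∧ (F (v 0) a (tl v) ∧
      G (v 0) b (tl v) ∧ ¬ C a b)) (PolyF.var 0) ?_
    refine S0.bex' (R := fun b v => F (v 1) (v 0) (tl (tl v)) ∧
      G (v 1) b (tl (tl v)) ∧ ¬ C (v 0) b) (PolyF.var 1) ?_
    refine S0.and ?_ (S0.and ?_ (S0.not ?_))
    · exact S0.front2 hF 2 1 3
    · exact S0.front2 hG 2 0 3
    · exact S0.rename hC (fun n => if n = 0 then 1 else 0)
  · rintro w v ⟨a, _, b, _, h1, h2, h3⟩
    rw [hF1 _ _ _ h1, hG1 _ _ _ h2] at h3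
    exact h3
  · rintro w v ⟨a, _, b, _, h1, h2, h3⟩
    rw [hF1 _ _ _ h1, hG1 _ _ _ h2] at h3
    exact h3
  · intro w v h
    have h0 := lt_of_add h
    have h1 : f v < w := lt_of_le_of_lt le_self_add h0
    have h2 : g v < w := lt_of_le_of_lt le_add_self h0
    have h3 : F w (f v) v := hF2 _ _ (le_of_add1 h)
    have h4 : G w (g v) v := hG2 _ _ (le_of_add2 h)
    by_cases hc : C (f v) (g v)
    · exact Or.inl ⟨f v, h1, g v, h2, h3, h4, hc⟩
    · exact Or.inr ⟨f v, h1, g v, h2, h3, h4, hc⟩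

theorem aprR (hB : Base e) {R : (ℕ → M) → Prop} (hR : Def e R) : AprR e R := by
  induction hR with
  | eqT hf hg => exact aprR_rel hB hf hg (fun x y => x = y) (S0.eq (PolyF.var 0) (PolyF.var 1))
  | ltT hf hg => exact aprR_rel hB hf hg (fun x y => x < y) (S0.lt (PolyF.var 0) (PolyF.var 1))
  | not _ ih =>
    obtain ⟨P, N, β, hP, hN, hβ, h1, h2, h3⟩ := ih
    exact ⟨N, P, β, hN, hP, hβ, h2, fun w v hp hn => hn (h1 w v hp), fun w v h => (h3 w v h).symm⟩
  | and _ _ ih1 ih2 =>
    obtain ⟨P, N, β, hP, hN, hβ, h1, h2, h3⟩ := ih1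
    obtain ⟨P', N', β', hP', hN', hβ', h1', h2', h3'⟩ := ih2
    refine ⟨fun w v => P w v ∧ P' w v, fun w v => N w v ∨ N' w v, fun v => β v + β' v,
      S0.and hP hP', S0.or hN hN', hβ.add hβ', fun w v h => ⟨h1 w v h.1, h1' w v h.2⟩, ?_, ?_⟩
    · rintro w v (h | h) ⟨ha, hb⟩
      · exact h2 w v h ha
      · exact h2' w v h hb
    · intro w v h
      rcases h3 w v (le_trans le_self_add h) with ha | ha
      · rcases h3' w v (le_trans le_add_self h) with hb | hb
        · exact Or.inl ⟨ha, hb⟩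
        · exact Or.inr (Or.inr hb)
      · exact Or.inr (Or.inl ha)
  | @ballT t R ht _ ih =>
    obtain ⟨P, N, β, hP, hN, hβ, h1, h2, h3⟩ := ih
    obtain ⟨G, γ, hG, hγ, hG1, hG2⟩ := apr hB ht
    have hβt : T e (fun v => β (push (t v) v)) := by
      have h := hβ.subst (fun n v => push (t v) v n) (fun n => by
        cases n with
        | zero => exact ht
        | succ m => exact T.var m)
      exact h
    refine ⟨fun w v => ∃ z, z < w ∧ (G w z v ∧ ∀ x, x < z → P w (push x v)),
      fun w v => ∃ z, z < w ∧ (G w z v ∧ ∃ x, x < z ∧ N w (push x v)),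
      fun v => γ v + β (push (t v) v) + t v + 1, ?_, ?_, ((hγ.add hβt).add ht).add (T.cst 1),
      ?_, ?_, ?_⟩
    · refine S0.bex' (R := fun z v => G (v 0) z (tl v) ∧ ∀ x, x < z → P (v 0) (push x (tl v)))
        (PolyF.var 0) (S0.and ?_ ?_)
      · exact S0.front2 hG 1 0 2
      · refine S0.ball' (R := fun x v => P (v 1) (push x (tl (tl v)))) (PolyF.var 0) ?_
        refine S0.congr (S0.rename hP (fun n => if n = 0 then 2 else if n = 1 then 0 else n + 1))
          fun v => ?_
        have : (tl fun n => v (if n = 0 then 2 else if n = 1 then 0 else n + 1))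
            = push (v 0) (tl (tl (tl v))) := by
          funext n; cases n <;> rfl
        rw [this]; rfl
    · refine S0.bex' (R := fun z v => G (v 0) z (tl v) ∧ ∃ x, x < z ∧ N (v 0) (push x (tl v)))
        (PolyF.var 0) (S0.and ?_ ?_)
      · exact S0.front2 hG 1 0 2
      · refine S0.bex' (R := fun x v => N (v 1) (push x (tl (tl v)))) (PolyF.var 0) ?_
        refine S0.congr (S0.rename hN (fun n => if n = 0 then 2 else if n = 1 then 0 else n + 1))
          fun v => ?_
        have : (tl fun n => v (if n = 0 then 2 else if n = 1 then 0 else n + 1))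
            = push (v 0) (tl (tl (tl v))) := by
          funext n; cases n <;> rfl
        rw [this]; rfl
    · rintro w v ⟨z, _, hz, h⟩ x hx
      rw [← hG1 _ _ _ hz] at hx
      exact h1 _ _ (h x hx)
    · rintro w v ⟨z, _, hz, x, hx, h⟩ hall
      rw [hG1 _ _ _ hz] at hx
      exact h2 _ _ h (hall x hx)
    · intro w v h
      have h0 : t v < w := lt_of_add h
      have hg : G w (t v) v := hG2 _ _ (le_of_add1 h)
      have hb : β (push (t v) v) ≤ w := le_of_add2 h
      have hx : ∀ x, x < t v → P w (push x v) ∨ N w (push x v) := by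
        intro x hx
        refine h3 _ _ (le_trans ?_ hb)
        refine hβ.mono (e_monoB hB) fun n => ?_
        cases n with
        | zero => exact hx.le
        | succ m => exact le_rfl
      by_cases hall : ∀ x, x < t v → P w (push x v)
      · exact Or.inl ⟨t v, h0, hg, hall⟩
      · push Not at hall
        obtain ⟨x, hx1, hx2⟩ := hall
        exact Or.inr ⟨t v, h0, hg, x, hx1, (hx x hx1).resolve_left hx2⟩

end Sem

end Pure

variable {M : Type u} [CommSemiring M] [LinearOrder M] [IsStrictOrderedRing M]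
  [CanonicallyOrderedAdd M] {e : M → M}

open _root_.Helper40.Cut.Pure in
theorem ebase_of_base (hB : Base e) : EBase e := by
  refine ⟨hB.disc, hB.e_zero, hB.e_succ, ?_⟩
  intro Q hQ h0 hs x0
  obtain ⟨P, N, β, hP, hN, hβ, h1, h2, h3⟩ := aprR hB hQ
  have key : ∀ x, x ≤ x0 → Q x → P (β (push x0 fun _ => 0)) (push x fun _ => 0) := by
    intro x hx hq
    have hle : β (push x fun _ => 0) ≤ β (push x0 fun _ => 0) := by
      refine hβ.mono (e_monoB hB) fun n => ?_
      cases n with
      | zero => exact hx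
      | succ m => exact le_rfl
    rcases h3 _ _ hle with h | h
    · exact h
    · exact absurd hq (h2 _ _ h)
  have main : ∀ x, x ≤ x0 → P (β (push x0 fun _ => 0)) (push x fun _ => 0) := by
    refine hB.ind (fun x => x ≤ x0 → P (β (push x0 fun _ => 0)) (push x fun _ => 0)) ?_ ?_ ?_
    · refine S0.imp ?_ ?_
      · exact S0.congr (S0.not (S0.lt (PolyF.cst x0) (PolyF.var 0))) fun v => not_lt
      · refine S0.congr (S0.subst hP (fun n => if n = 0 then (fun _ => β (push x0 fun _ => 0))
          else if n = 1 then (fun v => v 0) else (fun _ => 0)) (fun n => ?_)) fun v => ?_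
        · by_cases h : n = 0
          · simpa [h] using PolyF.cst _
          · by_cases h' : n = 1
            · simpa [h'] using (PolyF.var 0 : PolyF (fun v : ℕ → M => v 0))
            · simpa [h, h'] using PolyF.cst _
        · have : (tl fun n => (if n = 0 then (fun _ => β (push x0 fun _ => 0))
              else if n = 1 then (fun v => v 0) else (fun _ => 0) : (ℕ → M) → M) v)
              = push (v 0) (fun _ => 0) := by
            funext n; cases n <;> rfl
          rw [this]; rfl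
    · intro hx; exact key 0 hx h0
    · intro x ih hx
      have hx' : x ≤ x0 := le_trans le_self_add hx
      exact key (x + 1) hx (hs x (h1 _ _ (ih hx')))
  exact h1 _ _ (main x0 le_rfl)

open _root_.Helper40.Cut.Pure in
theorem s1_iff_es1 (hB : Base e) (R : (ℕ → M) → Prop) : S1 R ↔ ES1 e R := by
  constructor
  · rintro ⟨S, hS, h⟩
    exact ⟨S, S0.toDef hS, h⟩
  · rintro ⟨S, hS, h⟩
    obtain ⟨P, N, β, hP, hN, hβ, h1, h2, h3⟩ := aprR hB hS
    refine ⟨fun v => ∃ y, y < v 0 + 1 ∧ ∃ w, w < v 0 + 1 ∧ P w (push y (tl v)), ?_, fun v => ?_⟩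
    · refine S0.bex' (R := fun y v => ∃ w, w < v 0 + 1 ∧ P w (push y (tl v)))
        (PolyF.add (PolyF.var 0) (PolyF.cst 1)) ?_
      refine S0.bex' (R := fun w v => P w (push (v 0) (tl (tl v))))
        (PolyF.add (PolyF.var 1) (PolyF.cst 1)) ?_
      refine S0.congr (S0.rename hP (fun n => if n = 0 then 0 else if n = 1 then 1 else n + 1))
        fun v => ?_
      have : (tl fun n => v (if n = 0 then 0 else if n = 1 then 1 else n + 1))
          = push (v 1) (tl (tl (tl v))) := by
        funext n; cases n <;> rfl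
      rw [this]; rfl
    · rw [h]
      constructor
      · rintro ⟨y, hy⟩
        have hp : P (β (push y v)) (push y v) :=
          (h3 _ _ le_rfl).resolve_right fun hn => h2 _ _ hn hy
        refine ⟨y + β (push y v), y, ?_, β (push y v), ?_, hp⟩
        · exact lt_of_le_of_lt le_self_add (lt_add_one _)
        · exact lt_of_le_of_lt le_add_self (lt_add_one _)
      · rintro ⟨z, y, _, w, _, hp⟩
        exact ⟨y, h1 _ _ hp⟩

theorem sat_of_base (hB : Base e) (hBS : BS1 M) (hω : S1 (fun v : ℕ → M => v 0 ∈ St M))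
    (hne : St M ≠ Set.univ) (hcod : Coded e) : Sat e := by
  have hE : EBase e := ebase_of_base hB
  refine { hE with
    seq := s1_iff_es1 hB
    coll := fun R hR a h => hBS R ((s1_iff_es1 hB _).2 hR) a h
    om := (s1_iff_es1 hB _).1 hω
    ne := ?_
    cod := hcod }
  by_contra h
  push Not at h
  exact hne (Set.eq_univ_of_forall h)

end Helper40.Cut
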