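import Pool.Agent.Helper40.Cut.NotV
import Pool.Agent.Helper40.Cut.Pure

/-!
The order of the degrees; the characterisation of the degree of a Sigma_1 cut.
-/

namespace Helper40.Cut

universe u

variable {M : Type u} [CommSemiring M] [LinearOrder M] [IsStrictOrderedRing M]
  [CanonicallyOrderedAdd M] {e : M → M} [hS : Sat e]

theorem mem_deg {A B : Set M} : B ∈ (deg e A).1 ↔ Red e A B ∧ Red e B A := Iff.rfl

theorem deg_le_deg {A B : Set M} : deg e A ≤ deg e B ↔ Red e A B := by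
  constructor
  · rintro ⟨A', hA, B', hB, h⟩
    exact Red.trans hA.1 (Red.trans h hB.2)
  · intro h
    exact ⟨A, ⟨Red.refl A, Red.refl A⟩, B, ⟨Red.refl B, Red.refl B⟩, h⟩

omit hS in
theorem deg_surj (d : Deg e) : ∃ A, d = deg e A := by
  obtain ⟨c, A, rfl⟩ := d
  exact ⟨A, rfl⟩

theorem deg_eq {A B : Set M} (h1 : Red e A B) (h2 : Red e B A) : deg e A = deg e B := by
  apply Subtype.ext
  ext C
  constructor
  · rintro ⟨h3, h4⟩; exact ⟨Red.trans h2 h3, Red.trans h4 h1⟩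
  · rintro ⟨h3, h4⟩; exact ⟨Red.trans h1 h3, Red.trans h4 h2⟩

theorem deg_eq_iff {A B : Set M} : deg e A = deg e B ↔ Red e A B ∧ Red e B A := by
  refine ⟨fun h => ?_, fun h => deg_eq h.1 h.2⟩
  exact ⟨deg_le_deg.1 (h ▸ deg_le_deg.2 (Red.refl A)), deg_le_deg.1 (h ▸ deg_le_deg.2 (Red.refl A))⟩

/-- the defining property of the degree of a Sigma_1 cut -/
theorem deg_cut_iff (hbig : Big M) {I : Set M} (hI : IsCut I) (h1 : ES1 e (fun v => v 0 ∈ I))
    (x : Deg e) : x = deg e I ↔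
      (∃ y, ¬ x ≤ y) ∧ ∀ c d, ¬ x ≤ c → ¬ x ≤ d → (∀ u, c ≤ u → x ≤ u → d ≤ u) → d ≤ c := by
  obtain ⟨hI1, hI2⟩ := cut_equiv hI h1
  obtain ⟨A, rfl⟩ := deg_surj x
  have hlub : ∀ C E : Set M, (∀ u, deg e C ≤ u → deg e A ≤ u → deg e E ≤ u) ↔
      Red e E (jn C A) := by
    intro C E
    constructor
    · intro h
      exact deg_le_deg.1 (h (deg e (jn C A)) (deg_le_deg.2 (red_jn_left C A))
        (deg_le_deg.2 (red_jn_right C A)))
    · intro h u hu1 hu2
      obtain ⟨B, rfl⟩ := deg_surj u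
      exact deg_le_deg.2 (Red.trans h (jn_red (deg_le_deg.1 hu1) (deg_le_deg.1 hu2)))
  have hV : (∀ c d : Deg e, ¬ deg e A ≤ c → ¬ deg e A ≤ d →
      (∀ u, c ≤ u → deg e A ≤ u → d ≤ u) → d ≤ c) ↔ VV e A := by
    constructor
    · intro h C E hC hE hr
      exact deg_le_deg.1 (h (deg e C) (deg e E) (fun h' => hC (deg_le_deg.1 h'))
        (fun h' => hE (deg_le_deg.1 h')) ((hlub C E).2 hr))
    · intro h c d hc hd hu
      obtain ⟨C, rfl⟩ := deg_surj c
      obtain ⟨E, rfl⟩ := deg_surj d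
      exact deg_le_deg.2 (h C E (fun h' => hc (deg_le_deg.2 h')) (fun h' => hd (deg_le_deg.2 h'))
        ((hlub C E).1 hu))
  have h0 : (∃ y, ¬ deg e A ≤ y) ↔ ¬ Red e A ∅ := by
    constructor
    · rintro ⟨y, hy⟩ h
      obtain ⟨B, rfl⟩ := deg_surj y
      exact hy (deg_le_deg.2 (red_of_red_empty h B))
    · intro h
      exact ⟨deg e ∅, fun h' => h (deg_le_deg.1 h')⟩
  rw [hV, h0, deg_eq_iff]
  constructor
  · rintro ⟨h2, h3⟩
    refine ⟨fun h => ?_, ?_⟩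
    · exact cut_not_red_empty hI (Red.trans h3 h)
    · exact VV_congr (Red.trans hI2 h3) (Red.trans h2 hI1) (VV_St e)
  · rintro ⟨h2, h3⟩
    obtain ⟨h4, h5⟩ := main_sets hbig h2 h3
    exact ⟨Red.trans h4 hI2, Red.trans hI1 h5⟩

end Helper40.Cut
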