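import Pool.Agent.Helper40.Cut.Size
import Pool.Agent.Helper40.Cut.TR
import Pool.Agent.Helper40.Cut.CardDef

/-!
The construction of finite-information sets meeting all requirements.
-/

namespace Helper40.Cut

universe u

variable {M : Type u} [CommSemiring M] [LinearOrder M] [IsStrictOrderedRing M]
  [CanonicallyOrderedAdd M]

namespace Fin

omit [CommSemiring M] [LinearOrder M] [IsStrictOrderedRing M] [CanonicallyOrderedAdd M] in
/-- the part of the twisted set decided positively by the partial function `(P, N)` -/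
def up (g : M → M) (ε P N : Set M) : Set M := {z | (g z ∈ P ∧ z ∈ ε) ∨ (g z ∈ N ∧ z ∉ ε)}

omit [CommSemiring M] [LinearOrder M] [IsStrictOrderedRing M] [CanonicallyOrderedAdd M] in
theorem up_mono {g : M → M} {ε P N P' N' : Set M} (hP : P ⊆ P') (hN : N ⊆ N') :
    up g ε P N ⊆ up g ε P' N' := by
  rintro z (⟨h1, h2⟩ | ⟨h1, h2⟩)
  · exact Or.inl ⟨hP h1, h2⟩
  · exact Or.inr ⟨hN h1, h2⟩

omit [CommSemiring M] [LinearOrder M] [IsStrictOrderedRing M] [CanonicallyOrderedAdd M] in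
theorem up_disjoint {g : M → M} {ε P N : Set M} (h : Disjoint P N) :
    Disjoint (up g ε P N) (up g ε N P) := by
  rw [Set.disjoint_left] at h ⊢
  rintro z (⟨h1, h2⟩ | ⟨h1, h2⟩) (⟨h3, h4⟩ | ⟨h3, h4⟩)
  · exact h h1 h3
  · exact h4 h2
  · exact h2 h4
  · exact h h3 h1

omit [CommSemiring M] [LinearOrder M] [IsStrictOrderedRing M] [CanonicallyOrderedAdd M] in
theorem up_union {g : M → M} {ε P N : Set M} :
    up g ε P N ∪ up g ε N P = g ⁻¹' (P ∪ N) := by
  ext z
  simp only [up, Set.mem_union, Set.mem_ofPred_eq, Set.mem_preimage]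
  by_cases hz : z ∈ ε <;> simp [hz] <;> tauto

omit [CommSemiring M] [LinearOrder M] [IsStrictOrderedRing M] [CanonicallyOrderedAdd M] in
theorem up_compl {g : M → M} {ε A : Set M} : up g ε A Aᶜ = {z | g z ∈ A ↔ z ∈ ε} := by
  ext z
  simp only [up, Set.mem_ofPred_eq, Set.mem_compl_iff]
  tauto

omit [CommSemiring M] [LinearOrder M] [IsStrictOrderedRing M] [CanonicallyOrderedAdd M] in
theorem up_compl' {g : M → M} {ε A : Set M} : up g ε Aᶜ A = {z | g z ∈ A ↔ z ∈ ε}ᶜ := by
  ext z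
  simp only [up, Set.mem_ofPred_eq, Set.mem_compl_iff]
  tauto

/-- the requirements -/
def Good (e : M → M) (g : M → M) (ε : Set M) {ρ : Type u} (Q : ρ → Set M → Prop) :
    ρ ⊕ M → Set M → Set M → Prop
  | Sum.inl i, P, N => ∀ B, FI e B → up g ε P N ⊆ B → Disjoint (up g ε N P) B → Q i B
  | Sum.inr X, P, N => {z | mem e z X}.Finite ∨
      ((∃ z, mem e z X ∧ z ∈ up g ε P N) ∧ (∃ z, mem e z X ∧ z ∈ up g ε N P))

omit [IsStrictOrderedRing M] [CanonicallyOrderedAdd M] in
theorem good_mono (e : M → M) (g : M → M) (ε : Set M) {ρ : Type u} (Q : ρ → Set M → Prop)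
    (i : ρ ⊕ M) (P N P' N' : Set M) (hP : P ⊆ P') (hN : N ⊆ N') (h : Good e g ε Q i P N) :
    Good e g ε Q i P' N' := by
  cases i with
  | inl i =>
    intro B hB h1 h2
    exact h B hB ((up_mono hP hN).trans h1) (h2.mono_left (up_mono hN hP))
  | inr X =>
    rcases h with h | ⟨⟨z1, h1, h2⟩, ⟨z2, h3, h4⟩⟩
    · exact Or.inl h
    · exact Or.inr ⟨⟨z1, h1, up_mono hP hN h2⟩, ⟨z2, h3, up_mono hN hP h4⟩⟩

theorem good_step (e : M → M) [Sat e] (hbig : Big M) (g : M → M) (hg : ∀ z, g (g z) = z)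
    (ε : Set M) {ρ : Type u} (Q : ρ → Set M → Prop)
    (h : ∀ i (P N : Set M), Sml (P ∪ N) → Disjoint P N → Ext e P N (Q i))
    (i : ρ ⊕ M) (P N : Set M) (hd : Disjoint P N)
    (hs : Cardinal.mk (P ∪ N : Set M) < Cardinal.mk M) :
    ∃ P' N' : Set M, P'.Countable ∧ N'.Countable ∧ Disjoint (P ∪ P') (N ∪ N') ∧
      Good e g ε Q i (P ∪ P') (N ∪ N') := by
  have hinj : Function.Injective g := fun x y hxy => by rw [← hg x, ← hg y, hxy]
  cases i with
  | inl i =>
    have hs' : Sml (up g ε P N ∪ up g ε N P) := by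
      unfold Sml
      rw [up_union]
      refine lt_of_le_of_lt ?_ hs
      exact Cardinal.mk_preimage_of_injective g _ hinj
    obtain ⟨U, V, hU, hV, hUV, hQ⟩ := h i (up g ε P N) (up g ε N P) hs' (up_disjoint hd)
    refine ⟨{y | (g y ∈ U ∧ g y ∈ ε) ∨ (g y ∈ V ∧ g y ∉ ε)},
      {y | (g y ∈ V ∧ g y ∈ ε) ∨ (g y ∈ U ∧ g y ∉ ε)}, ?_, ?_, ?_, ?_⟩
    · refine ((hU.union hV).preimage hinj).mono ?_
      rintro y (⟨h1, -⟩ | ⟨h1, -⟩)
      · exact Or.inl h1
      · exact Or.inr h1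
    · refine ((hU.union hV).preimage hinj).mono ?_
      rintro y (⟨h1, -⟩ | ⟨h1, -⟩)
      · exact Or.inr h1
      · exact Or.inl h1
    · rw [Set.disjoint_left] at hUV ⊢
      intro y hy1 hy2
      by_cases hz : g y ∈ ε
      · refine hUV (a := g y) ?_ ?_
        · rcases hy1 with h1 | h1 | h1
          · exact Or.inl (Or.inl ⟨by rw [hg]; exact h1, hz⟩)
          · exact Or.inr h1.1
          · exact absurd hz h1.2
        · rcases hy2 with h1 | h1 | h1
          · exact Or.inl (Or.inl ⟨by rw [hg]; exact h1, hz⟩)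
          · exact Or.inr h1.1
          · exact absurd hz h1.2
      · refine hUV (a := g y) ?_ ?_
        · rcases hy2 with h1 | h1 | h1
          · exact Or.inl (Or.inr ⟨by rw [hg]; exact h1, hz⟩)
          · exact absurd h1.2 hz
          · exact Or.inr h1.1
        · rcases hy1 with h1 | h1 | h1
          · exact Or.inl (Or.inr ⟨by rw [hg]; exact h1, hz⟩)
          · exact absurd h1.2 hz
          · exact Or.inr h1.1
    · intro B hB h1 h2
      refine hQ B hB ?_ ?_
      · intro z hz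
        apply h1
        rcases hz with hz | hz
        · exact up_mono Set.subset_union_left Set.subset_union_left hz
        · by_cases hze : z ∈ ε
          · exact Or.inl ⟨Or.inr (Or.inl ⟨by rw [hg]; exact hz, by rw [hg]; exact hze⟩), hze⟩
          · exact Or.inr ⟨Or.inr (Or.inr ⟨by rw [hg]; exact hz, by rw [hg]; exact hze⟩), hze⟩
      · refine h2.mono_left ?_
        intro z hz
        rcases hz with hz | hz
        · exact up_mono Set.subset_union_left Set.subset_union_left hz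
        · by_cases hze : z ∈ ε
          · exact Or.inl ⟨Or.inr (Or.inl ⟨by rw [hg]; exact hz, by rw [hg]; exact hze⟩), hze⟩
          · exact Or.inr ⟨Or.inr (Or.inr ⟨by rw [hg]; exact hz, by rw [hg]; exact hze⟩), hze⟩
  | inr X =>
    by_cases hfin : {z | mem e z X}.Finite
    · refine ⟨∅, ∅, Set.countable_empty, Set.countable_empty, ?_, Or.inl hfin⟩
      simpa using hd
    · have hcard := card_infinite hbig (X := X) hfin
      have hs' : Cardinal.mk (g ⁻¹' (P ∪ N) : Set M) < Cardinal.mk M :=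
        lt_of_le_of_lt (Cardinal.mk_preimage_of_injective g _ hinj) hs
      -- two different elements of `X` outside the small set
      have key : ∀ F : Set M, F.Countable → ∃ z, mem e z X ∧ z ∉ g ⁻¹' (P ∪ N) ∧ z ∉ F := by
        intro F hF
        by_contra hc
        push Not at hc
        have hsub : {z | mem e z X} ⊆ g ⁻¹' (P ∪ N) ∪ F := by
          intro z hz
          by_cases h1 : z ∈ g ⁻¹' (P ∪ N)
          · exact Or.inl h1
          · exact Or.inr (hc z hz h1)
        have h1 : Cardinal.mk {z | mem e z X} ≤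
            Cardinal.mk (g ⁻¹' (P ∪ N) : Set M) + Cardinal.mk F :=
          (Cardinal.mk_le_mk_of_subset hsub).trans (Cardinal.mk_union_le _ _)
        have hF' : Cardinal.mk F < Cardinal.mk M :=
          lt_of_le_of_lt (Cardinal.mk_le_aleph0_iff.2 hF.to_subtype) (aleph0_lt e)
        have h2 := Cardinal.add_lt_of_lt (aleph0_lt e).le hs' hF'
        exact absurd (hcard.trans h1) (not_le.2 h2)
      obtain ⟨z1, hz1, hz1', -⟩ := key ∅ Set.countable_empty
      obtain ⟨z2, hz2, hz2', hne⟩ := key {z1} (Set.countable_singleton _)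
      have hne' : z2 ≠ z1 := hne
      refine ⟨{y | (y = g z1 ∧ z1 ∈ ε) ∨ (y = g z2 ∧ z2 ∉ ε)},
        {y | (y = g z1 ∧ z1 ∉ ε) ∨ (y = g z2 ∧ z2 ∈ ε)}, ?_, ?_, ?_, ?_⟩
      · refine (Set.countable_singleton (g z1) |>.union (Set.countable_singleton (g z2))).mono ?_
        rintro y (⟨h1, -⟩ | ⟨h1, -⟩)
        · exact Or.inl h1
        · exact Or.inr h1
      · refine (Set.countable_singleton (g z1) |>.union (Set.countable_singleton (g z2))).mono ?_
        rintro y (⟨h1, -⟩ | ⟨h1, -⟩)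
        · exact Or.inl h1
        · exact Or.inr h1
      · rw [Set.disjoint_left] at hd ⊢
        have hz1P : g z1 ∉ P := fun h1 => hz1' (Or.inl h1)
        have hz1N : g z1 ∉ N := fun h1 => hz1' (Or.inr h1)
        have hz2P : g z2 ∉ P := fun h1 => hz2' (Or.inl h1)
        have hz2N : g z2 ∉ N := fun h1 => hz2' (Or.inr h1)
        have hgne : g z2 ≠ g z1 := fun h1 => hne' (hinj h1)
        rintro y (h1 | ⟨rfl, h1⟩ | ⟨rfl, h1⟩) (h2 | ⟨h2, h3⟩ | ⟨h2, h3⟩)
        · exact hd h1 h2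
        · exact hz1P (h2 ▸ h1)
        · exact hz2P (h2 ▸ h1)
        · exact hz1N h2
        · exact h3 h1
        · exact hgne h2.symm
        · exact hz2N h2
        · exact hgne h2
        · exact h1 h3
      · refine Or.inr ⟨⟨z1, hz1, ?_⟩, ⟨z2, hz2, ?_⟩⟩
        · by_cases hze : z1 ∈ ε
          · exact Or.inl ⟨Or.inr (Or.inl ⟨rfl, hze⟩), hze⟩
          · exact Or.inr ⟨Or.inr (Or.inl ⟨rfl, hze⟩), hze⟩
        · by_cases hze : z2 ∈ ε
          · exact Or.inl ⟨Or.inr (Or.inr ⟨rfl, hze⟩), hze⟩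
          · exact Or.inr ⟨Or.inr (Or.inr ⟨rfl, hze⟩), hze⟩

omit [IsStrictOrderedRing M] [CanonicallyOrderedAdd M] in
theorem fi_of_good (e : M → M) (g : M → M) (ε : Set M) {ρ : Type u} (Q : ρ → Set M → Prop)
    (A : Set M) (h : ∀ i, Good e g ε Q i A Aᶜ) :
    FI e {z | g z ∈ A ↔ z ∈ ε} ∧ ∀ i, Q i {z | g z ∈ A ↔ z ∈ ε} := by
  have hfi : FI e {z | g z ∈ A ↔ z ∈ ε} := by
    intro X hX
    rcases h (Sum.inr X) with h1 | ⟨⟨z1, h1, h2⟩, ⟨z2, h3, h4⟩⟩
    · exact h1
    · exfalso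
      rw [up_compl] at h2
      rw [up_compl'] at h4
      rcases hX with hX | hX
      · exact h4 (hX z2 h3)
      · exact (hX z1 h1) h2
  refine ⟨hfi, fun i => ?_⟩
  refine h (Sum.inl i) _ hfi ?_ ?_
  · rw [up_compl]
  · rw [up_compl']; exact disjoint_compl_left

end Fin

theorem fin_abs (e : M → M) [Sat e] (hbig : Big M) (g : M → M) (hg : ∀ z, g (g z) = z)
    (ε : Set M) (Q Q' : {R : (ℕ → M) → Prop // ES1 e R} → Set M → Prop)
    (h : ∀ i (P N : Set M), Sml (P ∪ N) → Disjoint P N → Ext e P N (Q i))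
    (h' : ∀ i (P N : Set M), Sml (P ∪ N) → Disjoint P N → Ext e P N (Q' i)) :
    ∃ A : Set M, FI e A ∧ FI e {z | g z ∈ A ↔ z ∈ ε} ∧ (∀ i, Q i A) ∧
      ∀ i, Q' i {z | g z ∈ A ↔ z ∈ ε} := by
  have hal := aleph0_lt e
  have hR : Cardinal.mk {R : (ℕ → M) → Prop // ES1 e R} ≤ Cardinal.mk M :=
    (card_es1 e).trans (max_le hal.le le_rfl)
  have hsum : ∀ a b : Cardinal.{u}, a ≤ Cardinal.mk M → b ≤ Cardinal.mk M →
      a + b ≤ Cardinal.mk M := fun a b ha hb =>
    (add_le_add ha hb).trans (Cardinal.add_eq_self hal.le).le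
  have hι : Cardinal.mk (({R : (ℕ → M) → Prop // ES1 e R} ⊕ M) ⊕
      ({R : (ℕ → M) → Prop // ES1 e R} ⊕ M)) ≤ Cardinal.mk M := by
    rw [Cardinal.mk_sum, Cardinal.mk_sum]
    simp only [Cardinal.lift_id]
    exact hsum _ _ (hsum _ _ hR le_rfl) (hsum _ _ hR le_rfl)
  obtain ⟨A, hA⟩ := tr_lemma hal hι
    (Sum.elim (Fin.Good e id Set.univ Q) (Fin.Good e g ε Q'))
    (by
      intro i P N P' N' hP hN hG
      cases i with
      | inl i => exact Fin.good_mono e id Set.univ Q i P N P' N' hP hN hG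
      | inr i => exact Fin.good_mono e g ε Q' i P N P' N' hP hN hG)
    (by
      intro i P N hd hs
      cases i with
      | inl i => exact Fin.good_step e hbig id (fun _ => rfl) Set.univ Q h i P N hd hs
      | inr i => exact Fin.good_step e hbig g hg ε Q' h' i P N hd hs)
  have h1 := Fin.fi_of_good e id Set.univ Q A (fun i => hA (Sum.inl i))
  have h2 := Fin.fi_of_good e g ε Q' A (fun i => hA (Sum.inr i))
  have e1 : {z | id z ∈ A ↔ z ∈ (Set.univ : Set M)} = A := by
    ext z; simp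
  rw [e1] at h1
  exact ⟨A, h1.1, h2.1, h1.2, h2.2⟩

end Helper40.Cut
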