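import Pool.Agent.Helper40.Cut.Comb
import Pool.Agent.Helper40.Cut.DecL
import Pool.Agent.Helper40.Cut.Twist

/-!
Either a reduction of the twist can be killed, or the relation `Dec` finds the twisted point.
-/

namespace Helper40.Cut

universe u

variable {M : Type u} [CommSemiring M] [LinearOrder M] [IsStrictOrderedRing M]
  [CanonicallyOrderedAdd M] {e : M → M} [hS : Sat e]

namespace KillA

omit [IsStrictOrderedRing M] [CanonicallyOrderedAdd M] hS in
/-- the set of the elements of a code which are elements of a finset -/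
theorem finite_of_sub {X : M} {s : Finset M} (h : ∀ z, mem e z X → z ∈ s) :
    {z | mem e z X}.Finite :=
  s.finite_toSet.subset fun z hz => h z hz

theorem zero_or_one {i : M} (e : M → M) [Sat e] (h : i ≤ 1) : i = 0 ∨ i = 1 := by
  rcases eq_or_lt_of_le (zero_le (a := i)) with h0 | h0
  · exact Or.inl h0.symm
  · exact Or.inr (le_antisymm h (EBase.disc e _ h0))

theorem cl_def {S : M → M → M → M → M → Prop}
    (hSd : Def e (fun v => S (v 0) (v 1) (v 2) (v 3) (v 4))) (s n z : M) :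
    Def e (fun v => Cl e S s n z (v 0) (v 1)) := by
  unfold Cl
  refine Def.and (Def.lt (DF.var 0) (DF.cst s)) (Def.and (Def.lt (DF.var 1) (DF.cst s))
    (Def.and (Def.djD (DF.var 0) (DF.var 1)) (Def.and
      (Def.szD (DF.cst n) (DF.unD (DF.var 0) (DF.var 1))) ?_)))
  refine Def.bex (R := fun y v => ∃ i, i ≤ 1 ∧ S y z i (v 0) (v 1)) (DF.cst s) ?_
  refine Def.bexle (R := fun i v => S (v 0) z i (v 1) (v 2)) (DF.cst 1) ?_
  exact Def.of5 hSd (DF.var 1) (DF.cst z) (DF.var 0) (DF.var 2) (DF.var 3)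

/-- a code of the elements below `s` of a finset -/
theorem exists_tr (e : M → M) [Sat e] (F : Finset M) (s : M) :
    ∃ K, K < e s ∧ ∀ z, mem e z K ↔ z < s ∧ z ∈ F := by
  obtain ⟨X, hX⟩ := exists_code e F
  refine ⟨tr e X s, cp_lt _ _, fun z => ?_⟩
  rw [mem_tr, hX]

/-- the first case: a claim compatible with `(P, N)` which does not decide the point -/
theorem case_one {D : Set M} {S : M → M → M → M → M → Prop} {s n : M} {P N : Set M}
    (hdj : Disjoint P N) {z : M} (hz : tw e D z ∉ P ∪ N) {K L : M} {m : ℕ} (hm : n = m)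
    (hH : Cl e S s n z K L) (hc : Cpt e K L P N) (hK : ¬ mem e (tw e D z) K)
    (hL : ¬ mem e (tw e D z) L) :
    Ext e P N (fun A => ¬ Via e D (fun z i K L => ∃ y, S y z i K L) A) := by
  obtain ⟨-, -, hDj, hSz, y, -, i, hi, hS'⟩ := hH
  rw [hm] at hSz
  obtain ⟨hfK, hfL⟩ := finite_of_Fn (fn_iff_sz.2 hSz)
  set p := tw e D z with hp
  have hzP : p ∉ P := fun h => hz (Or.inl h)
  have hzN : p ∉ N := fun h => hz (Or.inr h)
  rcases zero_or_one e hi with rfl | rfl
  · -- the claim is `p ∉ A`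
    refine ⟨insert p {z | mem e z K}, {z | mem e z L}, (hfK.insert p).countable, hfL.countable,
      ?_, ?_⟩
    · rw [Set.disjoint_left]
      rintro x (h1 | h1) (h2 | h2)
      · exact Set.disjoint_left.1 hdj h1 h2
      · exact hc.2 x h2 h1
      · rcases h1 with rfl | h1
        · exact hzN h2
        · exact hc.1 x h1 h2
      · rcases h1 with rfl | h1
        · exact hL h2
        · exact hDj x h1 h2
    · intro A _ hPA hNA hVia
      have h1 : p ∉ A := (hVia z).2.2 ⟨K, L, ⟨fun x hx => hPA (Or.inr (Or.inr hx)),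
        fun x hx hxA => Set.disjoint_left.1 hNA (Or.inr hx) hxA⟩, y, hS'⟩
      exact h1 (hPA (Or.inr (Or.inl rfl)))
  · refine ⟨{z | mem e z K}, insert p {z | mem e z L}, hfK.countable, (hfL.insert p).countable,
      ?_, ?_⟩
    · rw [Set.disjoint_left]
      rintro x (h1 | h1) (h2 | h2)
      · exact Set.disjoint_left.1 hdj h1 h2
      · rcases h2 with rfl | h2
        · exact hzP h1
        · exact hc.2 x h2 h1
      · exact hc.1 x h1 h2
      · rcases h2 with rfl | h2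
        · exact hK h1
        · exact hDj x h1 h2
    · intro A _ hPA hNA hVia
      have h1 : p ∈ A := (hVia z).1.2 ⟨K, L, ⟨fun x hx => hPA (Or.inr hx),
        fun x hx hxA => Set.disjoint_left.1 hNA (Or.inr (Or.inr hx)) hxA⟩, y, hS'⟩
      exact Set.disjoint_left.1 hNA (Or.inr (Or.inl rfl)) h1

/-- the second case: all the families can be avoided -/
theorem case_two {D : Set M} {S : M → M → M → M → M → Prop} (s : ℕ → M) (hmono : Monotone s)
    (hcof : ∀ x, ∃ n, x < s n) {P N : Set M} (hdj : Disjoint P N) {z : M}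
    (h : ∀ (n : ℕ) (P1 N1 : Finset M), Disjoint (P ∪ P1) (N ∪ N1) →
      ∃ P2 N2 : Finset M, P1 ⊆ P2 ∧ N1 ⊆ N2 ∧ Disjoint (P ∪ P2) (N ∪ N2) ∧
        ∀ K L, Cl e S (s n) n z K L → ¬ Cpt e K L (P ∪ P2) (N ∪ N2)) :
    Ext e P N (fun A => ¬ Via e D (fun z i K L => ∃ y, S y z i K L) A) := by
  classical
  choose! F G hF using h
  let c : ℕ → Finset M × Finset M := fun n => Nat.rec (∅, ∅)
    (fun n x => (F n x.1 x.2, G n x.1 x.2)) n
  have hc0 : c 0 = (∅, ∅) := rfl
  have hcs : ∀ n, c (n + 1) = (F n (c n).1 (c n).2, G n (c n).1 (c n).2) := fun _ => rfl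
  have hd : ∀ n, Disjoint (P ∪ ((c n).1 : Set M)) (N ∪ ((c n).2 : Set M)) := by
    intro n
    induction n with
    | zero => rw [hc0]; simpa using hdj
    | succ n ih => rw [hcs]; exact (hF n _ _ ih).2.2.1
  have hm1 : Monotone (fun n => (c n).1) := monotone_nat_of_le_succ fun n => by
    rw [hcs]; exact (hF n _ _ (hd n)).1
  have hm2 : Monotone (fun n => (c n).2) := monotone_nat_of_le_succ fun n => by
    rw [hcs]; exact (hF n _ _ (hd n)).2.1
  refine ⟨⋃ n, ((c n).1 : Set M), ⋃ n, ((c n).2 : Set M),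
    Set.countable_iUnion fun n => Finset.countable_toSet _,
    Set.countable_iUnion fun n => Finset.countable_toSet _, ?_, ?_⟩
  · rw [Set.disjoint_left]
    rintro x (h1 | h1) (h2 | h2)
    · exact Set.disjoint_left.1 hdj h1 h2
    · obtain ⟨n, hn⟩ := Set.mem_iUnion.1 h2
      exact Set.disjoint_left.1 (hd n) (Or.inl h1) (Or.inr hn)
    · obtain ⟨n, hn⟩ := Set.mem_iUnion.1 h1
      exact Set.disjoint_left.1 (hd n) (Or.inr hn) (Or.inl h2)
    · obtain ⟨m, hm⟩ := Set.mem_iUnion.1 h1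
      obtain ⟨n, hn⟩ := Set.mem_iUnion.1 h2
      exact Set.disjoint_left.1 (hd (max m n)) (Or.inr (hm1 (le_max_left m n) hm))
        (Or.inr (hm2 (le_max_right m n) hn))
  · intro A hA hPA hNA hVia
    -- every correct claim contradicts the construction
    have key : ∀ i K L y, i ≤ 1 → Cm e A K L → ¬ S y z i K L := by
      intro i K L y hi hCm hSy
      have hfK := hA K (Or.inl hCm.1)
      have hfL := hA L (Or.inr hCm.2)
      obtain ⟨n0, hn0⟩ := Fn_of_finite hfK hfL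
      obtain ⟨n1, h1⟩ := hcof K
      obtain ⟨n2, h2⟩ := hcof L
      obtain ⟨n3, h3⟩ := hcof y
      set n := max (max n0 n1) (max n2 n3) with hn
      have hl0 : n0 ≤ n := (le_max_left _ _).trans (le_max_left _ _)
      have hl1 : n1 ≤ n := (le_max_right _ _).trans (le_max_left _ _)
      have hl2 : n2 ≤ n := (le_max_left _ _).trans (le_max_right _ _)
      have hl3 : n3 ≤ n := (le_max_right _ _).trans (le_max_right _ _)
      have hCl : Cl e S (s n) n z K L := by
        refine ⟨h1.trans_le (hmono hl1), h2.trans_le (hmono hl2), ?_,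
          fn_iff_sz.1 (Fn_mono hl0 hn0), y, h3.trans_le (hmono hl3), i, hi, hSy⟩
        intro x hx hx'
        exact hCm.2 x hx' (hCm.1 x hx)
      refine (hF n _ _ (hd n)).2.2.2 K L hCl ⟨?_, ?_⟩
      · rintro x hx hxN
        refine Set.disjoint_left.1 hNA ?_ (hCm.1 x hx)
        rcases hxN with hxN | hxN
        · exact Or.inl hxN
        · exact Or.inr (Set.mem_iUnion.2 ⟨n + 1, by rw [hcs]; exact hxN⟩)
      · rintro x hx hxP
        refine hCm.2 x hx (hPA ?_)
        rcases hxP with hxP | hxP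
        · exact Or.inl hxP
        · exact Or.inr (Set.mem_iUnion.2 ⟨n + 1, by rw [hcs]; exact hxP⟩)
    by_cases hzA : tw e D z ∈ A
    · obtain ⟨K, L, hCm, y, hy⟩ := (hVia z).1.1 hzA
      exact key 1 K L y le_rfl hCm hy
    · obtain ⟨K, L, hCm, y, hy⟩ := (hVia z).2.1 hzA
      exact key 0 K L y zero_le_one hCm hy

end KillA

theorem kill_or_dec (hbig : Big M) (D : Set M) (S : M → M → M → M → M → Prop)
    (hSd : Def e (fun v => S (v 0) (v 1) (v 2) (v 3) (v 4)))
    (s : ℕ → M) (hmono : Monotone s) (hcof : ∀ x, ∃ n, x < s n)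
    (P N : Set M) (hs : Sml (P ∪ N)) (hdj : Disjoint P N) (z : M) (hz : tw e D z ∉ P ∪ N) :
    Ext e P N (fun A => ¬ Via e D (fun z i K L => ∃ y, S y z i K L) A) ∨
    ∃ n t : ℕ, Dec e (Cl e S (s n) n z) (s n) n t (tw e D z) := by
  classical
  by_cases h1 : ∃ (n : ℕ) (K L : M), Cl e S (s n) n z K L ∧ Cpt e K L P N ∧
      ¬ mem e (tw e D z) K ∧ ¬ mem e (tw e D z) L
  · obtain ⟨n, K, L, hH, hc, hK, hL⟩ := h1
    exact Or.inl (KillA.case_one hdj hz rfl hH hc hK hL)
  by_cases h2 : ∀ (n : ℕ) (P1 N1 : Finset M), Disjoint (P ∪ P1) (N ∪ N1) →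
      ∃ P2 N2 : Finset M, P1 ⊆ P2 ∧ N1 ⊆ N2 ∧ Disjoint (P ∪ P2) (N ∪ N2) ∧
        ∀ K L, Cl e S (s n) n z K L → ¬ Cpt e K L (P ∪ P2) (N ∪ N2)
  · exact Or.inl (KillA.case_two s hmono hcof hdj h2)
  push Not at h2
  obtain ⟨n, P1, N1, hd1, hno⟩ := h2
  refine Or.inr ⟨n, ?_⟩
  have hHd := KillA.cl_def hSd (s n) n z
  have hb : ∀ K L, Cl e S (s n) n z K L → K < s n ∧ L < s n := fun K L h => ⟨h.1, h.2.1⟩
  have hj : ∀ K L, Cl e S (s n) n z K L → Dj e K L := fun K L h => h.2.2.1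
  have hn : ∀ K L, Cl e S (s n) n z K L → Fn e n K L := fun K L h => fn_iff_sz.2 h.2.2.2.1
  -- the robust condition
  obtain ⟨R, T, hRT, hrob⟩ : ∃ R T : Finset M, Disjoint ((P ∪ P1) ∪ (R : Set M))
      ((N ∪ N1) ∪ (T : Set M)) ∧ ∀ R' S' : Finset M, R ⊆ R' → T ⊆ S' →
      Disjoint R' S' → ∃ K L, Cl e S (s n) n z K L ∧ Cpt e K L R' S' := by
    rcases robust n _ hHd (s n) hb hj hn (P ∪ P1) (N ∪ N1) hd1 with h | h
    · exfalso
      obtain ⟨P', N', h3, h4⟩ := h
      have e1 : P ∪ ((P1 ∪ P' : Finset M) : Set M) = (P ∪ P1) ∪ P' := by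
        rw [Finset.coe_union, Set.union_assoc]
      have e2 : N ∪ ((N1 ∪ N' : Finset M) : Set M) = (N ∪ N1) ∪ N' := by
        rw [Finset.coe_union, Set.union_assoc]
      obtain ⟨K, L, h5, h6⟩ := hno (P1 ∪ P') (N1 ∪ N') Finset.subset_union_left
        Finset.subset_union_left (by rw [e1, e2]; exact h3)
      rw [e1, e2] at h6
      exact h4 K L h5 h6
    · exact h
  -- the compact condition
  obtain ⟨P0, N0, hP0, hN0, hcomp⟩ := compact hbig n
    (fun K L => Cl e S (s n) n z K L ∧ ¬ mem e (tw e D z) K ∧ ¬ mem e (tw e D z) L)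
    (Def.and hHd (Def.and (Def.memD (DF.cst _) (DF.var 0)).not
      (Def.memD (DF.cst _) (DF.var 1)).not)) (s n)
    (fun K L h => hb K L h.1) (fun K L h => hj K L h.1) (fun K L h => hn K L h.1) P N hs hdj
    (fun K L h hc => h1 ⟨n, K, L, h.1, hc, h.2.1, h.2.2⟩)
  have hdis : ∀ x, x ∈ R ∪ P0 → x ∉ T ∪ N0 := by
    intro x hx hx'
    rw [Finset.mem_union] at hx hx'
    have h3 : x ∈ (P ∪ P1) ∪ (R : Set M) := by
      rcases hx with h | h
      · exact Or.inr h
      · exact Or.inl (Or.inl (hP0 h))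
    have h4 : x ∈ (N ∪ N1) ∪ (T : Set M) := by
      rcases hx' with h | h
      · exact Or.inr h
      · exact Or.inl (Or.inl (hN0 h))
    exact Set.disjoint_left.1 hRT h3 h4
  obtain ⟨K₀, hK₀, hK₀'⟩ := KillA.exists_tr e (R ∪ P0) (s n)
  obtain ⟨L₀, hL₀, hL₀'⟩ := KillA.exists_tr e (T ∪ N0) (s n)
  refine ⟨((R ∪ P0) ∪ (T ∪ N0)).card, K₀, hK₀, L₀, hL₀, ?_, ?_, ?_, ?_⟩
  · intro x hx hx'
    exact hdis x ((hK₀' x).1 hx).2 ((hL₀' x).1 hx').2
  · refine sz_nat.2 ⟨_, le_rfl, fun x hx => ?_⟩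
    rw [mem_un] at hx
    rw [Finset.mem_union]
    exact hx.imp (fun h => ((hK₀' x).1 h).2) (fun h => ((hL₀' x).1 h).2)
  · intro K hK L hL hH hC
    by_contra hcon
    rw [not_or] at hcon
    refine hcomp K L ⟨hH, hcon⟩ ⟨fun x hx hx' => ?_, fun x hx hx' => ?_⟩
    · exact hC.1 x hx ((hL₀' x).2 ⟨(mem_lt hx).trans hK, Finset.mem_union_right _ hx'⟩)
    · exact hC.2 x hx ((hK₀' x).2 ⟨(mem_lt hx).trans hL, Finset.mem_union_right _ hx'⟩)
  · intro K₁ hK₁ L₁ hL₁ hKK hLL hDj hSz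
    have hSz' : Sz e (((n + 1) * ((R ∪ P0) ∪ (T ∪ N0)).card : ℕ) : M) (un e K₁ L₁) := by
      push_cast
      exact hSz
    obtain ⟨U, -, hU⟩ := sz_nat.1 hSz'
    set A := U.filter (fun x => mem e x K₁) with hA
    set B := U.filter (fun x => mem e x L₁) with hB
    have hA' : ∀ x, x ∈ A ↔ mem e x K₁ := by
      intro x
      rw [hA, Finset.mem_filter]
      exact ⟨fun h => h.2, fun h => ⟨hU x (mem_un.2 (Or.inl h)), h⟩⟩
    have hB' : ∀ x, x ∈ B ↔ mem e x L₁ := by
      intro x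
      rw [hB, Finset.mem_filter]
      exact ⟨fun h => h.2, fun h => ⟨hU x (mem_un.2 (Or.inr h)), h⟩⟩
    have hdd : Disjoint (R ∪ A) (T ∪ B) := by
      rw [Finset.disjoint_left]
      intro x hx hx'
      rw [Finset.mem_union] at hx hx'
      rcases hx with h3 | h3 <;> rcases hx' with h4 | h4
      · exact hdis x (Finset.mem_union_left _ h3) (Finset.mem_union_left _ h4)
      · rw [hB'] at h4
        have h5 := lt_e_iff.1 hL₁ x h4
        exact hDj x (hKK x h5 ((hK₀' x).2 ⟨h5, Finset.mem_union_left _ h3⟩)) h4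
      · rw [hA'] at h3
        have h5 := lt_e_iff.1 hK₁ x h3
        exact hDj x h3 (hLL x h5 ((hL₀' x).2 ⟨h5, Finset.mem_union_left _ h4⟩))
      · rw [hA'] at h3
        rw [hB'] at h4
        exact hDj x h3 h4
    obtain ⟨K, L, hH, hC⟩ := hrob (R ∪ A) (T ∪ B) Finset.subset_union_left
      Finset.subset_union_left hdd
    refine ⟨K, (hb K L hH).1, L, (hb K L hH).2, hH, fun x hx hx' => ?_, fun x hx hx' => ?_⟩
    · exact hC.1 x hx (Finset.mem_coe.2 (Finset.mem_union_right _ ((hB' x).2 hx')))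
    · exact hC.2 x hx (Finset.mem_coe.2 (Finset.mem_union_right _ ((hA' x).2 hx')))

end Helper40.Cut
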