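import Pool.Agent.Helper40.Cut.Sig

/-!
A definable cofinal `ω`-sequence.
-/

namespace Helper40.Cut

universe u

variable {M : Type u} [CommSemiring M] [LinearOrder M] [IsStrictOrderedRing M]
  [CanonicallyOrderedAdd M]

/-- a cofinal sequence `s : ω → M` with definable graph `G` -/
theorem exists_stage (e : M → M) [Sat e] : ∃ (G : M → M → Prop) (s : ℕ → M),
    Def e (fun v => G (v 0) (v 1)) ∧ (∀ (n : ℕ) (x : M), G n x ↔ x = s n) ∧
    (∀ x y : M, G x y → x ∈ St M) ∧ Monotone s ∧ ∀ x, ∃ n, x < s n := by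
  obtain ⟨S, hS, hSt⟩ := Sat.om (e := e)
  -- fix the other variables
  set P : M → M → Prop := fun y m => S (push y (push m (fun _ => 0))) with hP
  have hPdef : Def e (fun v => P (v 0) (v 1)) := by
    refine (hS.substT (fun n v => if n = 0 then v 0 else if n = 1 then v 1 else 0)
      (fun n => ?_)).congr fun v => ?_
    · by_cases h0 : n = 0
      · simp only [h0, if_true]; exact T.var 0
      · by_cases h1 : n = 1
        · simp only [h1, if_true, one_ne_zero, if_false]; exact T.var 1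
        · simp only [h0, h1, if_false]; exact T.cst 0
    · have : (fun n => if n = 0 then v 0 else if n = 1 then v 1 else 0) =
          push (v 0) (push (v 1) (fun _ => (0 : M))) := by
        funext n
        rcases n with _ | _ | n
        · rfl
        · rfl
        · simp [push]
      rw [this]
  have hPSt : ∀ m, m ∈ St M ↔ ∃ y, P y m := by
    intro m
    exact hSt (push m (fun _ => 0))
  set H : M → M → Prop := fun n s => ∀ m, m ≤ n → ∃ y, y ≤ s ∧ P y m with hH
  have hHdef : Def e (fun v => H (v 0) (v 1)) := by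
    refine Def.ble (R := fun m v => ∃ y, y ≤ v 1 ∧ P y m) (DF.var 0) ?_
    refine Def.bexle (R := fun y v => P y (v 0)) (DF.var 2) ?_
    exact Def.of2 (R := fun y m => P y m) hPdef (DF.var 0) (DF.var 1)
  have hex : ∀ n : ℕ, ∃ s, H n s := by
    intro n
    obtain ⟨t, ht⟩ := Sat.coll (e := e) (fun x y => P y x)
      (ES1.of_def (Def.of2 (R := fun y m => P y m) hPdef (DF.var 1) (DF.var 0))) ((n : M) + 1)
      (fun x hx => (hPSt x).1 (St_down e (nat_mem_St n) ((lt_succ_iff e).1 hx)))
    refine ⟨t, fun m hm => ?_⟩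
    obtain ⟨y, hy, hPy⟩ := ht m ((lt_succ_iff e).2 hm)
    exact ⟨y, hy.le, hPy⟩
  have hleast : ∀ n : ℕ, ∃ x, H n x ∧ ∀ y, H n y → x ≤ y := by
    intro n
    refine lnp (e := e) (fun s => H n s) ?_ (hex n)
    exact Def.of2 (R := fun n s => H n s) hHdef (DF.cst (n : M)) (DF.var 0)
  choose s hs1 hs2 using hleast
  refine ⟨fun n x => H n x ∧ ∀ z, z < x → ¬ H n z, s, ?_, ?_, ?_, ?_, ?_⟩
  · refine hHdef.and ?_
    refine Def.ball (R := fun z v => ¬ H (v 0) z) (DF.var 1) ?_
    exact (Def.of2 (R := fun n s => H n s) hHdef (DF.var 1) (DF.var 0)).not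
  · intro n x
    constructor
    · rintro ⟨h1, h2⟩
      refine le_antisymm ?_ (hs2 n x h1)
      by_contra hlt
      exact h2 _ (not_le.1 hlt) (hs1 n)
    · rintro rfl
      exact ⟨hs1 n, fun z hz hHz => absurd (hs2 n z hHz) (not_le.2 hz)⟩
  · rintro x y ⟨h1, -⟩
    obtain ⟨y', -, hy'⟩ := h1 x le_rfl
    exact (hPSt x).2 ⟨y', hy'⟩
  · intro m n hmn
    refine hs2 m _ fun k hk => hs1 n k (hk.trans ?_)
    exact_mod_cast hmn
  · intro b
    by_contra hb
    push Not at hb
    refine not_def_cut (e := e) (St_isCut e) ?_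
    have h1 : Def e (fun v => ∃ y, y ≤ b ∧ P y (v 0)) := by
      refine Def.bexle (R := fun y v => P y (v 0)) (DF.cst b) ?_
      exact Def.of2 (R := fun y m => P y m) hPdef (DF.var 0) (DF.var 1)
    refine h1.congr fun v => ?_
    constructor
    · rintro ⟨y, -, hy⟩
      exact (hPSt _).2 ⟨y, hy⟩
    · rintro ⟨n, hn⟩
      obtain ⟨y, hy, hPy⟩ := hs1 n n le_rfl
      exact ⟨y, hy.trans (hb n), hn ▸ hPy⟩

end Helper40.Cut
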