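import Pool.Agent.Helper40.Cut.LemK
import Pool.Agent.Helper40.Cut.Stage

/-!
Killing reductions of a cut of uncountable cofinality and coinitiality.
-/

namespace Helper40.Cut

universe u

variable {M : Type u} [CommSemiring M] [LinearOrder M] [IsStrictOrderedRing M]
  [CanonicallyOrderedAdd M] {e : M → M} [hS : Sat e]

omit hS in
private theorem aleph0_le_mk : Cardinal.aleph0 ≤ Cardinal.mk M := by
  haveI : Infinite M := Infinite.of_injective (Nat.cast : ℕ → M) Nat.cast_injective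
  exact Cardinal.aleph0_le_mk M

omit hS in
private theorem sml_union {P N : Set M} (hs : Sml (P ∪ N)) (A B : Finset M) :
    Sml ((P ∪ (A : Set M)) ∪ (N ∪ (B : Set M))) := by
  have h1 : (P ∪ (A : Set M)) ∪ (N ∪ (B : Set M)) ⊆ (P ∪ N) ∪ ((A : Set M) ∪ (B : Set M)) := by
    intro z hz
    rcases hz with (h | h) | (h | h)
    · exact Or.inl (Or.inl h)
    · exact Or.inr (Or.inl h)
    · exact Or.inl (Or.inr h)
    · exact Or.inr (Or.inr h)
  have h2 : Cardinal.mk ↥((A : Set M) ∪ (B : Set M)) < Cardinal.mk M := by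
    refine lt_of_lt_of_le ?_ aleph0_le_mk
    have hfin : ((A : Set M) ∪ (B : Set M)).Finite := A.finite_toSet.union B.finite_toSet
    exact hfin.lt_aleph0
  unfold Sml at hs ⊢
  refine lt_of_le_of_lt (Cardinal.mk_le_mk_of_subset h1) ?_
  refine lt_of_le_of_lt (Cardinal.mk_union_le _ _) ?_
  exact Cardinal.add_lt_of_lt aleph0_le_mk hs h2

private theorem djDef {f g : (ℕ → M) → M} (hf : DF e f) (hg : DF e g) :
    Def e (fun v => Dj e (f v) (g v)) := by
  refine Def.of2 (R := fun K L => Dj e K L) ?_ hf hg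
  have h : Def e (fun v => ∀ z, z < v 0 → (mem e z (v 0) → ¬ mem e z (v 1))) :=
    Def.ball (DF.var 0) (Def.imp (Def.memD (DF.var 0) (DF.var 1))
      (Def.memD (DF.var 0) (DF.var 2)).not)
  refine h.congr fun v => ?_
  unfold Dj
  exact ⟨fun h z hz => h z (mem_lt hz) hz, fun h z _ hz => h z hz⟩

theorem kill_cut (hbig : Big M) {J : Set M} (hJ : IsCut J)
    (hcf : ∀ g : ℕ → M, (∀ n, g n ∈ J) → ∃ x ∈ J, ∀ n, g n ≤ x)
    (hci : ∀ g : ℕ → M, (∀ n, g n ∉ J) → ∃ x, x ∉ J ∧ ∀ n, x ≤ g n)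
    (Φ : M → M → M → Prop) (hΦ : ES1 e (fun v => Φ (v 0) (v 1) (v 2)))
    (P N : Set M) (hs : Sml (P ∪ N)) (hdj : Disjoint P N) :
    Ext e P N (fun A => ¬ ∀ x, x ∈ J ↔ ∃ K L, Cm e A K L ∧ Φ x K L) := by
  classical
  obtain ⟨S', hS', hΦS⟩ := hΦ
  obtain ⟨G, s, _, _, _, hsmono, hscof⟩ := exists_stage e
  -- the bounded relation
  let S : M → M → M → M → Prop := fun y x K L =>
    S' (push y (push x (push K (push L (fun _ => 0)))))
  have hSdef : Def e (fun v => S (v 0) (v 1) (v 2) (v 3)) := by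
    have h1 := hS'.substT (fun n v => if n = 0 then v 0 else if n = 1 then v 1 else
      if n = 2 then v 2 else if n = 3 then v 3 else 0) (fun n => by
        by_cases h0 : n = 0
        · simp only [h0, if_true]; exact T.var 0
        · by_cases h1 : n = 1
          · subst h1; simp only [if_neg h0, if_true]; exact T.var 1
          · by_cases h2 : n = 2
            · subst h2; simp only [if_neg h0, if_neg h1, if_true]; exact T.var 2
            · by_cases h3 : n = 3
              · subst h3; simp only [if_neg h0, if_neg h1, if_neg h2, if_true]; exact T.var 3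
              · simp only [if_neg h0, if_neg h1, if_neg h2, if_neg h3]; exact T.cst 0)
    refine h1.congr fun v => ?_
    have h2 : (fun n => if n = 0 then v 0 else if n = 1 then v 1 else
      if n = 2 then v 2 else if n = 3 then v 3 else 0) =
        push (v 0) (push (v 1) (push (v 2) (push (v 3) (fun _ => 0)))) := by
      funext n
      rcases n with _ | _ | _ | _ | n
      · rfl
      · rfl
      · rfl
      · rfl
      · simp
    rw [h2]
  have hΦ' : ∀ x K L, Φ x K L ↔ ∃ y, S y x K L := fun x K L =>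
    hΦS (push x (push K (push L (fun _ => 0))))
  let H : ℕ → M → M → M → Prop := fun n x K L =>
    (K < s n ∧ L < s n) ∧ Dj e K L ∧ Fn e n K L ∧
      ∃ x', x' < s n ∧ (x ≤ x' ∧ ∃ y, y < s n ∧ S y x' K L)
  have hHdef : ∀ n, Def e (fun v => H n (v 0) (v 1) (v 2)) := by
    intro n
    refine Def.and (Def.and (Def.lt (DF.var 1) (DF.cst _)) (Def.lt (DF.var 2) (DF.cst _)))
      (Def.and (djDef (DF.var 1) (DF.var 2)) (Def.and (Def.fnD (DF.var 1) (DF.var 2) n) ?_))
    refine Def.bex (DF.cst _) (Def.and (Def.le (DF.var 1) (DF.var 0)) ?_)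
    refine Def.bex (DF.cst _) ?_
    exact Def.of4 (R := S) hSdef (DF.var 0) (DF.var 1) (DF.var 3) (DF.var 4)
  by_cases hcase : ∃ n y, y ∉ J ∧ ∃ K L, H n y K L ∧ Cpt e K L P N
  · -- a false claim can be made
    obtain ⟨n, y, hy, K, L, ⟨_, hKL, hfn, x', _, hyx, z, _, hSz⟩, hc1, hc2⟩ := hcase
    obtain ⟨hKf, hLf⟩ := finite_of_Fn hfn
    refine ⟨{z | mem e z K}, {z | mem e z L}, hKf.countable, hLf.countable, ?_, ?_⟩
    · rw [Set.disjoint_left]
      rintro w (h1 | h1) (h2 | h2)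
      · exact (Set.disjoint_left.1 hdj) h1 h2
      · exact hc2 w h2 h1
      · exact hc1 w h1 h2
      · exact hKL w h1 h2
    · intro A _ hPA hNA hall
      have hx' : x' ∉ J := fun h => hy (hJ.down x' h y hyx)
      apply hx'
      rw [hall]
      refine ⟨K, L, ⟨fun w hw => hPA (Or.inr hw), fun w hw hwA => ?_⟩, (hΦ' _ _ _).2 ⟨z, hSz⟩⟩
      exact (Set.disjoint_left.1 hNA) (Or.inr hw) hwA
  · push Not at hcase
    -- one step of the construction
    have hstep : ∀ (n : ℕ) (p : {p : Finset M × Finset M //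
        Disjoint (P ∪ (p.1 : Set M)) (N ∪ (p.2 : Set M))}),
        ∃ q : {p : Finset M × Finset M // Disjoint (P ∪ (p.1 : Set M)) (N ∪ (p.2 : Set M))},
          p.1.1 ⊆ q.1.1 ∧ p.1.2 ⊆ q.1.2 ∧ ∃ x ∈ J, ∀ K L, H n x K L →
            ¬ Cpt e K L (P ∪ (q.1.1 : Set M)) (N ∪ (q.1.2 : Set M)) := by
      rintro n ⟨⟨p1, p2⟩, hp⟩
      obtain ⟨P', N', hd, x, hx, hxK⟩ := lemmaK hbig hJ hci n (H n) (hHdef n) (s n)
        (fun x K L h => h.1) (fun x K L h => h.2.1) (fun x K L h => h.2.2.1)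
        (fun x y K L hxy h => by
          obtain ⟨h1, h2, h3, x', h4, h5, h6⟩ := h
          exact ⟨h1, h2, h3, x', h4, hxy.trans h5, h6⟩)
        (P ∪ (p1 : Set M)) (N ∪ (p2 : Set M)) (sml_union hs p1 p2) hp
        (fun y hy K L h hc => hcase n y hy K L h
          ⟨fun z hz hzN => hc.1 z hz (Or.inl hzN), fun z hz hzP => hc.2 z hz (Or.inl hzP)⟩)
      have e1 : P ∪ ((p1 ∪ P' : Finset M) : Set M) = (P ∪ (p1 : Set M)) ∪ (P' : Set M) := by
        rw [Finset.coe_union, Set.union_assoc]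
      have e2 : N ∪ ((p2 ∪ N' : Finset M) : Set M) = (N ∪ (p2 : Set M)) ∪ (N' : Set M) := by
        rw [Finset.coe_union, Set.union_assoc]
      refine ⟨⟨(p1 ∪ P', p2 ∪ N'), ?_⟩, Finset.subset_union_left, Finset.subset_union_left,
        x, hx, ?_⟩
      · simp only [e1, e2]
        exact hd
      · simp only [e1, e2]
        exact hxK
    choose nx hnx1 hnx2 xx hxxJ hxx using hstep
    have hd0 : Disjoint (P ∪ ((∅ : Finset M) : Set M)) (N ∪ ((∅ : Finset M) : Set M)) := by
      rw [Finset.coe_empty, Set.union_empty, Set.union_empty]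
      exact hdj
    let sq : ℕ → {p : Finset M × Finset M //
        Disjoint (P ∪ (p.1 : Set M)) (N ∪ (p.2 : Set M))} :=
      fun n => Nat.rec ⟨(∅, ∅), hd0⟩ (fun n p => nx n p) n
    have hsq : ∀ n, sq (n + 1) = nx n (sq n) := fun n => rfl
    have hm1 : Monotone (fun n => (sq n).1.1) := monotone_nat_of_le_succ fun n => by
      rw [hsq]; exact hnx1 n (sq n)
    have hm2 : Monotone (fun n => (sq n).1.2) := monotone_nat_of_le_succ fun n => by
      rw [hsq]; exact hnx2 n (sq n)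
    obtain ⟨x, hxJ, hxle⟩ := hcf (fun n => xx n (sq n)) (fun n => hxxJ n (sq n))
    refine ⟨⋃ n, ((sq n).1.1 : Set M), ⋃ n, ((sq n).1.2 : Set M),
      Set.countable_iUnion fun n => Finset.countable_toSet _,
      Set.countable_iUnion fun n => Finset.countable_toSet _, ?_, ?_⟩
    · rw [Set.disjoint_left]
      intro z hz1 hz2
      have h1 : ∃ n, z ∈ P ∪ ((sq n).1.1 : Set M) := by
        rcases hz1 with h | h
        · exact ⟨0, Or.inl h⟩
        · obtain ⟨n, hn⟩ := Set.mem_iUnion.1 h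
          exact ⟨n, Or.inr hn⟩
      have h2 : ∃ n, z ∈ N ∪ ((sq n).1.2 : Set M) := by
        rcases hz2 with h | h
        · exact ⟨0, Or.inl h⟩
        · obtain ⟨n, hn⟩ := Set.mem_iUnion.1 h
          exact ⟨n, Or.inr hn⟩
      obtain ⟨n, hn⟩ := h1
      obtain ⟨m, hm⟩ := h2
      refine (Set.disjoint_left.1 (sq (max n m)).2) (a := z) ?_ ?_
      · rcases hn with h | h
        · exact Or.inl h
        · exact Or.inr (hm1 (le_max_left n m) h)
      · rcases hm with h | h
        · exact Or.inl h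
        · exact Or.inr (hm2 (le_max_right n m) h)
    · intro A hA hPA hNA hall
      obtain ⟨K, L, hcm, hΦx⟩ := (hall x).1 hxJ
      obtain ⟨y, hy⟩ := (hΦ' _ _ _).1 hΦx
      have hKf : {z | mem e z K}.Finite := hA K (Or.inl hcm.1)
      have hLf : {z | mem e z L}.Finite := hA L (Or.inr hcm.2)
      obtain ⟨n0, hn0⟩ := Fn_of_finite hKf hLf
      obtain ⟨n1, hn1⟩ := hscof K
      obtain ⟨n2, hn2⟩ := hscof L
      obtain ⟨n3, hn3⟩ := hscof x
      obtain ⟨n4, hn4⟩ := hscof y
      obtain ⟨n, h0, h1, h2, h3, h4⟩ : ∃ n, n0 ≤ n ∧ n1 ≤ n ∧ n2 ≤ n ∧ n3 ≤ n ∧ n4 ≤ n :=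
        ⟨n0 + n1 + n2 + n3 + n4, by omega, by omega, by omega, by omega, by omega⟩
      have hHn : H n (xx n (sq n)) K L :=
        ⟨⟨lt_of_lt_of_le hn1 (hsmono h1), lt_of_lt_of_le hn2 (hsmono h2)⟩,
          fun z hz hz' => hcm.2 z hz' (hcm.1 z hz), Fn_mono h0 hn0, x,
          lt_of_lt_of_le hn3 (hsmono h3), hxle n, y, lt_of_lt_of_le hn4 (hsmono h4), hy⟩
      refine hxx n (sq n) K L hHn ⟨fun z hz hzN => ?_, fun z hz hzP => ?_⟩
      · have hzA : z ∈ A := hcm.1 z hz
        refine (Set.disjoint_left.1 hNA) ?_ hzA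
        rcases hzN with h | h
        · exact Or.inl h
        · exact Or.inr (Set.mem_iUnion.2 ⟨n + 1, by rw [hsq]; exact h⟩)
      · have hzA : z ∉ A := hcm.2 z hz
        apply hzA
        apply hPA
        rcases hzP with h | h
        · exact Or.inl h
        · exact Or.inr (Set.mem_iUnion.2 ⟨n + 1, by rw [hsq]; exact h⟩)

end Helper40.Cut
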