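import Pool.Agent.Helper40.Cut.Spill

/-!
Cardinalities of nonstandard initial segments and of infinite M-finite sets.
-/

namespace Helper40.Cut

universe u

variable {M : Type u} [CommSemiring M] [LinearOrder M] [IsStrictOrderedRing M]
  [CanonicallyOrderedAdd M]

/-- subsets of `ω` are coded below every nonstandard element -/
theorem continuum_le (e : M → M) [Sat e] {c : M} (hc : c ∉ St M) :
    Cardinal.continuum ≤ Cardinal.mk {x : M // x < c} := by
  classical
  obtain ⟨d, hd, hdc⟩ := St_log e hc
  have key : ∀ S : Set ℕ, ∃ a : {x : M // x < c}, ∀ n : ℕ, mem e (n : M) a.1 ↔ n ∈ S := by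
    intro S
    obtain ⟨G, hG, hGn, _⟩ := coded_fun (e := e) (fun n => if n ∈ S then (1 : M) else 0) 2
      (fun n => by
        by_cases h : n ∈ S
        · simp only [h, if_true]; exact one_lt_two
        · simp only [h, if_false]; exact zero_lt_two)
    refine ⟨⟨cp e d (fun x => G x = 1), (cp_lt _ _).trans_le hdc⟩, fun n => ?_⟩
    have hP : Def e (fun v => G (v 0) = 1) := Def.eq hG (DF.cst 1)
    show mem e (n : M) (cp e d (fun x => G x = 1)) ↔ n ∈ S
    rw [mem_cp (P := fun x => G x = 1) hP]
    have h0 : (n : M) < d := nat_lt_of_not_St e hd n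
    constructor
    · rintro ⟨_, h⟩
      rw [hGn n] at h
      by_contra hn
      simp only [hn, if_false] at h
      exact zero_ne_one h
    · intro h
      refine ⟨h0, ?_⟩
      rw [hGn n]
      simp only [h, if_true]
  choose f hf using key
  have hinj : Function.Injective f := by
    intro S T hST
    ext n
    rw [← hf S n, ← hf T n, hST]
  have h1 := Cardinal.lift_mk_le_lift_mk_of_injective hinj
  rw [Cardinal.mk_set_nat, Cardinal.lift_continuum] at h1
  simpa using h1

theorem big_of_card (e : M → M) [Sat e] (h : Cardinal.mk M ≤ Cardinal.continuum) : Big M := by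
  intro c hc
  exact le_antisymm (Cardinal.mk_subtype_le _) (h.trans (continuum_le e hc))

theorem aleph0_lt (e : M → M) [Sat e] : Cardinal.aleph0 < Cardinal.mk M := by
  obtain ⟨c, hc⟩ := Sat.ne (e := e)
  exact Cardinal.aleph0_lt_continuum.trans_le
    ((continuum_le e hc).trans (Cardinal.mk_subtype_le _))

/-- M-finite sets which are not finite have the cardinality of `M` -/
theorem card_infinite {e : M → M} [Sat e] (hbig : Big M) {X : M}
    (h : {z | mem e z X}.Infinite) : Cardinal.mk M ≤ Cardinal.mk {z | mem e z X} := by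
  classical
  let g : ℕ ↪ {z | mem e z X} := Set.Infinite.natEmbedding _ h
  obtain ⟨G, hG, hGn, _⟩ := coded_fun (e := e) (fun n => (g n : M)) X
    (fun n => mem_lt (g n).2)
  let P : M → Prop := fun c => (∀ i, i < c → mem e (G i) X) ∧
    ∀ i, i < c → ∀ j, j < c → (G i = G j → i = j)
  have hP : Def e (fun v => P (v 0)) := by
    refine Def.and ?_ ?_
    · refine Def.ball (R := fun i _ => mem e (G i) X) (DF.var 0) ?_
      exact Def.memD (DF.of1 (F := G) hG (DF.var 0)) (DF.cst X)
    · refine Def.ball (R := fun i v => ∀ j, j < v 0 → (G i = G j → i = j)) (DF.var 0) ?_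
      refine Def.ball (R := fun j v => G (v 0) = G j → v 0 = j) (DF.var 1) ?_
      exact Def.imp (Def.eq (DF.of1 (F := G) hG (DF.var 1)) (DF.of1 (F := G) hG (DF.var 0)))
        (Def.eq (DF.var 1) (DF.var 0))
  obtain ⟨c, hc, hPc⟩ := overspill_St (e := e) hP (by
    intro n
    refine ⟨fun i hi => ?_, fun i hi j hj hij => ?_⟩
    · obtain ⟨m, _, rfl⟩ := (lt_nat_iff e).1 hi
      rw [hGn m]
      exact (g m).2
    · obtain ⟨m, _, rfl⟩ := (lt_nat_iff e).1 hi
      obtain ⟨k, _, rfl⟩ := (lt_nat_iff e).1 hj
      rw [hGn m, hGn k] at hij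
      rw [g.injective (Subtype.ext hij)])
  obtain ⟨h1, h2⟩ := hPc c le_rfl
  rw [← hbig c hc]
  refine Cardinal.mk_le_of_injective (f := fun i : {x : M // x < c} => (⟨G i.1, h1 i.1 i.2⟩ : {z | mem e z X})) ?_
  intro i j hij
  exact Subtype.ext (h2 i.1 i.2 j.1 j.2 (congrArg Subtype.val hij))

end Helper40.Cut
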