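import Pool.Agent.Helper40.Cut.Hit
import Pool.Agent.Helper40.Cut.Comb

/-!
Lemma K.
-/

namespace Helper40.Cut

universe u

variable {M : Type u} [CommSemiring M] [LinearOrder M] [IsStrictOrderedRing M]
  [CanonicallyOrderedAdd M] {e : M → M} [hS : Sat e]

namespace LemK

omit [CanonicallyOrderedAdd M] in
theorem sml_finite {P N : Set M} (hs : Sml (P ∪ N)) (F : Set M) (hF : F.Finite) :
    Sml (P ∪ (N ∪ F)) := by
  unfold Sml at hs ⊢
  have hinf : Cardinal.aleph0 ≤ Cardinal.mk M := by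
    have : Infinite M := Infinite.of_injective (fun n : ℕ => (n : M)) Nat.cast_injective
    exact Cardinal.aleph0_le_mk M
  have h1 : Cardinal.mk F < Cardinal.mk M :=
    (Cardinal.lt_aleph0_iff_finite.2 hF.to_subtype).trans_le hinf
  have h2 : P ∪ (N ∪ F) = (P ∪ N) ∪ F := by rw [Set.union_assoc]
  rw [h2]
  exact (Cardinal.mk_union_le _ _).trans_lt (Cardinal.add_lt_of_lt hinf hs h1)

theorem HT_def3 {H : M → M → M → Prop} (hd : Def e (fun v => H (v 0) (v 1) (v 2)))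
    (x0 b f a c : M) :
    Def e (fun v => Comb.HT e (fun K L => H (v 0) K L ∧ H x0 K L) b f a c (v 1) (v 2)) := by
  unfold Comb.HT
  refine Def.bex (DF.cst b) (R := fun K v => ∃ L, L < b ∧ ((H (v 0) K L ∧ H x0 K L) ∧
    (∀ z, z < b → (mem e z f → mem e z K → mem e z a)) ∧
    (∀ z, z < b → (mem e z f → mem e z L → mem e z c)) ∧ v 1 = df e K f ∧ v 2 = df e L f)) ?_
  refine Def.bex (DF.cst b) (R := fun L v => ((H (v 1) (v 0) L ∧ H x0 (v 0) L) ∧
    (∀ z, z < b → (mem e z f → mem e z (v 0) → mem e z a)) ∧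
    (∀ z, z < b → (mem e z f → mem e z L → mem e z c)) ∧ v 2 = df e (v 0) f ∧
      v 3 = df e L f)) ?_
  refine Def.and (Def.and (Def.of3 (R := H) hd (DF.var 2) (DF.var 1) (DF.var 0))
    (Def.of3 (R := H) hd (DF.cst x0) (DF.var 1) (DF.var 0))) (Def.and ?_ (Def.and ?_
    (Def.and ?_ ?_)))
  · refine Def.ball (DF.cst b) (R := fun z v => mem e z f → mem e z (v 1) → mem e z a) ?_
    exact Def.imp (Def.memD (DF.var 0) (DF.cst f)) (Def.imp (Def.memD (DF.var 0) (DF.var 2))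
      (Def.memD (DF.var 0) (DF.cst a)))
  · refine Def.ball (DF.cst b) (R := fun z v => mem e z f → mem e z (v 0) → mem e z c) ?_
    exact Def.imp (Def.memD (DF.var 0) (DF.cst f)) (Def.imp (Def.memD (DF.var 0) (DF.var 1))
      (Def.memD (DF.var 0) (DF.cst c)))
  · exact Def.eq (DF.var 3) (DF.dfD (DF.var 1) (DF.cst f))
  · exact Def.eq (DF.var 4) (DF.dfD (DF.var 0) (DF.cst f))

/-- the statement that `H y` has a hitting set with at most `i` elements, on codes -/
theorem hit_def {H : M → M → M → Prop} (hd : Def e (fun v => H (v 0) (v 1) (v 2))) (i b : M) :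
    Def e (fun v => ∃ F, F < e b ∧ (Sz e i F ∧ ∀ K, K < b → ∀ L, L < b → (H (v 0) K L →
      ∃ z, z < b ∧ (mem e z F ∧ (mem e z K ∨ mem e z L))))) := by
  refine Def.bex (DF.cst (e b)) (R := fun F v => Sz e i F ∧ ∀ K, K < b → ∀ L, L < b →
    (H (v 0) K L → ∃ z, z < b ∧ (mem e z F ∧ (mem e z K ∨ mem e z L)))) ?_
  refine Def.and (Def.szD (DF.cst i) (DF.var 0)) ?_
  refine Def.ball (DF.cst b) (R := fun K v => ∀ L, L < b →
    (H (v 1) K L → ∃ z, z < b ∧ (mem e z (v 0) ∧ (mem e z K ∨ mem e z L)))) ?_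
  refine Def.ball (DF.cst b) (R := fun L v =>
    (H (v 2) (v 0) L → ∃ z, z < b ∧ (mem e z (v 1) ∧ (mem e z (v 0) ∨ mem e z L)))) ?_
  refine Def.imp (Def.of3 (R := H) hd (DF.var 3) (DF.var 1) (DF.var 0)) ?_
  refine Def.bex (DF.cst b) (R := fun z v => (mem e z (v 2) ∧ (mem e z (v 1) ∨ mem e z (v 0)))) ?_
  exact Def.and (Def.memD (DF.var 0) (DF.var 3)) (Def.or (Def.memD (DF.var 0) (DF.var 2))
    (Def.memD (DF.var 0) (DF.var 1)))

theorem main (hbig : Big M) {J : Set M} (hJ : IsCut J)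
    (hci : ∀ g : ℕ → M, (∀ n, g n ∉ J) → ∃ x, x ∉ J ∧ ∀ n, x ≤ g n) (b : M) (n : ℕ) :
    ∀ (H : M → M → M → Prop), Def e (fun v => H (v 0) (v 1) (v 2)) →
    (∀ x K L, H x K L → K < b ∧ L < b) → (∀ x K L, H x K L → Dj e K L) →
    (∀ x K L, H x K L → Fn e n K L) → (∀ x y K L, x ≤ y → H y K L → H x K L) →
    ∀ (P N : Set M), Sml (P ∪ N) → Disjoint P N →
    (∀ y, y ∉ J → ∀ K L, H y K L → ¬ Cpt e K L P N) →
    ∃ P' N' : Finset M, Disjoint (P ∪ P') (N ∪ N') ∧
      ∃ x ∈ J, ∀ K L, H x K L → ¬ Cpt e K L (P ∪ P') (N ∪ N') := by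
  classical
  obtain ⟨b0, hb0⟩ : ∃ b0, b0 ∉ J := by
    by_contra hcon
    push Not at hcon
    exact hJ.proper (Set.eq_univ_of_forall hcon)
  have hle0 : ∀ x ∈ J, x ≤ b0 := fun x hx => by
    by_contra h
    exact hb0 (hJ.down x hx b0 (not_le.1 h).le)
  induction n with
  | zero =>
    intro H hd hb hj hn hmono P N hs hdj hinc
    have hempty : ∀ y, y ∉ J → ∀ K L, ¬ H y K L := by
      intro y hy K L hH
      obtain ⟨s, hs0, hsm⟩ := hn y K L hH
      have hs1 : s = ∅ := Finset.card_eq_zero.1 (Nat.le_zero.1 hs0)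
      rw [hs1] at hsm
      exact hinc y hy K L hH ⟨fun z hz => absurd (hsm z (Or.inl hz)) (Finset.notMem_empty z),
        fun z hz => absurd (hsm z (Or.inr hz)) (Finset.notMem_empty z)⟩
    have hQ : Def e (fun v => ∀ K, K < b → ∀ L, L < b → ¬ H (v 0) K L) := by
      refine Def.ball (DF.cst b) (R := fun K v => ∀ L, L < b → ¬ H (v 0) K L) ?_
      refine Def.ball (DF.cst b) (R := fun L v => ¬ H (v 1) (v 0) L) ?_
      exact Def.not (Def.of3 (R := H) hd (DF.var 2) (DF.var 1) (DF.var 0))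
    obtain ⟨x0, hx0, hx0P⟩ := underspill (e := e) hJ
      (P := fun x => ∀ K, K < b → ∀ L, L < b → ¬ H x K L) hQ hb0
      (fun x hx _ K _ L _ => hempty x hx K L)
    refine ⟨∅, ∅, by simpa using hdj, x0, hx0, fun K L hH => ?_⟩
    exact absurd hH (hx0P x0 le_rfl (hle0 x0 hx0) K (hb _ _ _ hH).1 L (hb _ _ _ hH).2)
  | succ n ih =>
    intro H hd hb hj hn hmono P N hs hdj hinc
    -- hitting sets
    have hd2 : ∀ y, Def e (fun v => H y (v 0) (v 1)) := fun y =>
      Def.of3 (R := H) hd (DF.cst y) (DF.var 0) (DF.var 1)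
    have hhit : ∀ y, y ∉ J → ∃ F : Finset M, ∀ K L, H y K L → ∃ z ∈ F, mem e z K ∨ mem e z L :=
      fun y hy => exists_hit hbig (n + 1) (H y) (hd2 y) b (hb y) (hj y) (hn y) P N hs (hinc y hy)
    obtain ⟨i0, hi0⟩ : ∃ i0 : ℕ, ∀ y, y ∉ J → ∃ F : Finset M, F.card ≤ i0 ∧
        ∀ K L, H y K L → ∃ z ∈ F, mem e z K ∨ mem e z L := by
      by_contra hcon
      push Not at hcon
      choose g hg hgF using hcon
      obtain ⟨x, hx, hxg⟩ := hci g hg
      obtain ⟨F, hF⟩ := hhit x hx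
      obtain ⟨K, L, hH, hno⟩ := hgF F.card F le_rfl
      obtain ⟨z, hz, hzm⟩ := hF K L (hmono x _ K L (hxg F.card) hH)
      rcases hzm with h | h
      · exact (hno z hz).1 h
      · exact (hno z hz).2 h
    obtain ⟨x0, hx0, hx0P⟩ := underspill (e := e) hJ (P := fun y => ∃ F, F < e b ∧
      (Sz e (i0 : M) F ∧ ∀ K, K < b → ∀ L, L < b → (H y K L →
        ∃ z, z < b ∧ (mem e z F ∧ (mem e z K ∨ mem e z L))))) (hit_def hd (i0 : M) b) hb0 (by
      intro y hy _
      obtain ⟨F, hFc, hF⟩ := hi0 y hy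
      obtain ⟨f, hf⟩ := exists_code e (F.filter (fun z => z < b))
      refine ⟨f, ?_, ?_, ?_⟩
      · rw [lt_e_iff (e := e)]
        intro z hz
        exact (Finset.mem_filter.1 ((hf z).1 hz)).2
      · rw [sz_nat]
        exact ⟨F.filter (fun z => z < b), (Finset.card_filter_le _ _).trans hFc,
          fun z hz => (hf z).1 hz⟩
      · intro K hK L hL hH
        obtain ⟨z, hz, hzm⟩ := hF K L hH
        have hzb : z < b := by
          rcases hzm with h | h
          · exact (mem_lt h).trans hK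
          · exact (mem_lt h).trans hL
        exact ⟨z, hzb, (hf z).2 (Finset.mem_filter.2 ⟨hz, hzb⟩), hzm⟩)
    obtain ⟨f, hfb, hfs, hfH⟩ := hx0P x0 le_rfl (hle0 x0 hx0)
    obtain ⟨s, hsc, hsf⟩ := sz_nat.1 hfs
    set F : Finset M := s.filter (fun z => mem e z f) with hFdef
    have hf : ∀ z, mem e z f ↔ z ∈ F := by
      intro z
      rw [hFdef, Finset.mem_filter]
      exact ⟨fun h => ⟨hsf z h, h⟩, fun h => h.2⟩
    have hF : ∀ K L, H x0 K L → ∃ z ∈ F, mem e z K ∨ mem e z L := by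
      intro K L hH
      obtain ⟨z, _, hzf, hzm⟩ := hfH K (hb _ _ _ hH).1 L (hb _ _ _ hH).2 hH
      exact ⟨z, (hf z).1 hzf, hzm⟩
    -- the traces
    obtain ⟨a, ha⟩ := exists_code e (F.filter (fun z => z ∈ P))
    obtain ⟨c, hc⟩ := exists_code e (F.filter (fun z => z ∉ P))
    set G : Finset M := F.filter (fun z => z ∉ P) with hG
    set H' : M → M → M → Prop := fun x K L =>
      Comb.HT e (fun K L => H x K L ∧ H x0 K L) b f a c K L with hH'
    have hN1 : Disjoint P (N ∪ (G : Set M)) := by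
      rw [Set.disjoint_union_right]
      refine ⟨hdj, ?_⟩
      rw [Set.disjoint_left]
      intro z hz hz'
      exact (Finset.mem_filter.1 (Finset.mem_coe.1 hz')).2 hz
    obtain ⟨P', N', hd', x', hx', hfin⟩ := ih H' (HT_def3 hd x0 b f a c)
      (fun x K L h => Comb.HT_bd K L h)
      (fun x K L h => Comb.HT_dj (fun K L h => hj x K L h.1) K L h)
      (fun x K L h => Comb.HT_fn (fun K L h => hn x K L h.1) hf (fun K L h => hF K L h.2) K L h)
      (by
        rintro x y K' L' hxy ⟨K, hK, L, hL, ⟨h1, h2⟩, h3⟩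
        exact ⟨K, hK, L, hL, ⟨hmono x y K L hxy h1, h2⟩, h3⟩)
      P (N ∪ (G : Set M)) (sml_finite hs _ (Finset.finite_toSet G)) hN1
      (by
        rintro y hy K' L' ⟨K, hK, L, hL, ⟨h1, _⟩, h3, h4, rfl, rfl⟩ hcpt
        refine hinc y hy K L h1 ⟨fun z hz hzN => ?_, fun z hz hzP => ?_⟩
        · by_cases hzf : mem e z f
          · have hza := (ha z).1 (h3 z ((mem_lt hz).trans hK) hzf hz)
            exact Set.disjoint_left.1 hdj (Finset.mem_filter.1 hza).2 hzN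
          · exact hcpt.1 z (mem_df.2 ⟨hz, hzf⟩) (Or.inl hzN)
        · by_cases hzf : mem e z f
          · have hzc := (hc z).1 (h4 z ((mem_lt hz).trans hL) hzf hz)
            exact (Finset.mem_filter.1 hzc).2 hzP
          · exact hcpt.2 z (mem_df.2 ⟨hz, hzf⟩) hzP)
    have hNN : N ∪ ((N' ∪ G : Finset M) : Set M) = N ∪ (G : Set M) ∪ (N' : Set M) := by
      rw [Finset.coe_union, Set.union_assoc, Set.union_comm (N' : Set M)]
    refine ⟨P', N' ∪ G, by rw [hNN]; exact hd', max x' x0, ?_, ?_⟩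
    · rcases le_total x' x0 with h | h
      · rw [max_eq_right h]; exact hx0
      · rw [max_eq_left h]; exact hx'
    · intro K L hH hcpt
      rw [hNN] at hcpt
      have hHx : H x' K L := hmono _ _ K L (le_max_left _ _) hH
      have hHx0 : H x0 K L := hmono _ _ K L (le_max_right _ _) hH
      refine hfin (df e K f) (df e L f) ⟨K, (hb _ _ _ hH).1, L, (hb _ _ _ hH).2, ⟨hHx, hHx0⟩,
        ?_, ?_, rfl, rfl⟩ ⟨?_, ?_⟩
      · intro z _ hzf hzK
        refine (ha z).2 (Finset.mem_filter.2 ⟨(hf z).1 hzf, ?_⟩)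
        by_contra hzP
        refine hcpt.1 z hzK (Or.inl (Or.inr ?_))
        exact Finset.mem_coe.2 (Finset.mem_filter.2 ⟨(hf z).1 hzf, hzP⟩)
      · intro z _ hzf hzL
        refine (hc z).2 (Finset.mem_filter.2 ⟨(hf z).1 hzf, ?_⟩)
        intro hzP
        exact hcpt.2 z hzL (Or.inl hzP)
      · intro z hz
        exact hcpt.1 z (mem_df.1 hz).1
      · intro z hz
        exact hcpt.2 z (mem_df.1 hz).1

end LemK

/-- Lemma K -/
theorem lemmaK (hbig : Big M) {J : Set M} (hJ : IsCut J)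
    (hci : ∀ g : ℕ → M, (∀ n, g n ∉ J) → ∃ x, x ∉ J ∧ ∀ n, x ≤ g n)
    (n : ℕ) (H : M → M → M → Prop) (hd : Def e (fun v => H (v 0) (v 1) (v 2))) (b : M)
    (hb : ∀ x K L, H x K L → K < b ∧ L < b) (hj : ∀ x K L, H x K L → Dj e K L)
    (hn : ∀ x K L, H x K L → Fn e n K L)
    (hmono : ∀ x y K L, x ≤ y → H y K L → H x K L)
    (P N : Set M) (hs : Sml (P ∪ N)) (hdj : Disjoint P N)
    (hinc : ∀ y, y ∉ J → ∀ K L, H y K L → ¬ Cpt e K L P N) :
    ∃ P' N' : Finset M, Disjoint (P ∪ P') (N ∪ N') ∧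
      ∃ x ∈ J, ∀ K L, H x K L → ¬ Cpt e K L (P ∪ P') (N ∪ N') :=
  LemK.main hbig hJ hci b n H hd hb hj hn hmono P N hs hdj hinc

end Helper40.Cut
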