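import Pool.Agent.Helper40.Cut.Rel2

/-!
Sets with a bounded part which is not coded compute a cut.
-/

namespace Helper40.Cut

universe u

variable {M : Type u} [CommSemiring M] [LinearOrder M] [IsStrictOrderedRing M]
  [CanonicallyOrderedAdd M] {e : M → M} [hS : Sat e]

namespace Nonreg

/-- reversal of the digits below `b` -/
noncomputable def rv (b y : M) : M := sb b (y + 1)

omit hS in
theorem rv_spec (e : M → M) [Sat e] {b y : M} (h : y < b) : (y + 1) + rv b y = b :=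
  sb_spec e ((succ_le_iff e).2 h)

omit hS in
theorem rv_spec' (e : M → M) [Sat e] {b y : M} (h : y < b) : (rv b y + 1) + y = b := by
  rw [← rv_spec e h]
  have := rv_spec e h
  rw [this]
  calc rv b y + 1 + y = y + 1 + rv b y := by ring
    _ = b := this

omit hS in
theorem rv_lt (e : M → M) [Sat e] {b y : M} (h : y < b) : rv b y < b := by
  rw [← succ_le_iff e]
  have h3 := rv_spec' e h
  calc rv b y + 1 ≤ rv b y + 1 + y := le_self_add
    _ = b := h3

omit hS in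
theorem rv_rv (e : M → M) [Sat e] {b y : M} (h : y < b) : rv b (rv b y) = y := by
  have h1 := rv_spec e (rv_lt e h)
  have h2 := rv_spec' e h
  exact add_left_cancel (h1.trans h2.symm)

omit hS in
theorem rv_anti (e : M → M) [Sat e] {b y y' : M} (h : y' < y) (hy : y < b) :
    rv b y < rv b y' := by
  have h1 := rv_spec e hy
  have h2 := rv_spec e (h.trans hy)
  by_contra hcon
  have h3 : rv b y' ≤ rv b y := not_lt.1 hcon
  have h4 : y' + 1 + rv b y' < y + 1 + rv b y :=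
    add_lt_add_of_lt_of_le (by exact (add_lt_add_iff_right 1).2 h) h3
  rw [h1, h2] at h4
  exact lt_irrefl _ h4

/-- big endian digits -/
def bt (e : M → M) (b y w : M) : Prop := mem e (rv b y) w

theorem btD (b : M) {f g : (ℕ → M) → M} (hf : DF e f) (hg : DF e g) :
    Def e (fun v => bt e b (f v) (g v)) :=
  Def.memD (DF.sbD (DF.cst b) (hf.add (DF.cst 1))) hg

/-- comparison by the first big endian digit where the numbers differ -/
theorem lt_iff_bt {b w w' : M} (hw : w < e b) (hw' : w' < e b) : w' < w ↔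
    ∃ y, y < b ∧ bt e b y w ∧ ¬ bt e b y w' ∧ ∀ z, z < y → (bt e b z w' ↔ bt e b z w) := by
  rw [lt_iff_digit (e := e)]
  constructor
  · rintro ⟨z, hz, hz', h⟩
    have hzb : z < b := (lt_e_iff.1 hw) z hz
    refine ⟨rv b z, rv_lt e hzb, ?_, ?_, fun y hy => ?_⟩
    · unfold bt; rw [rv_rv e hzb]; exact hz
    · unfold bt; rw [rv_rv e hzb]; exact hz'
    · have h1 := rv_anti e hy (rv_lt e hzb)
      rw [rv_rv e hzb] at h1
      exact h _ h1
  · rintro ⟨y, hyb, hy, hy', h⟩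
    refine ⟨rv b y, hy, hy', fun z hz => ?_⟩
    by_cases hzb : z < b
    · have h1 := rv_anti e hz hzb
      rw [rv_rv e hyb] at h1
      have h2 := h _ h1
      unfold bt at h2
      rw [rv_rv e hzb] at h2
      exact h2
    · constructor
      · intro h1; exact absurd ((lt_e_iff.1 hw') z h1) hzb
      · intro h1; exact absurd ((lt_e_iff.1 hw) z h1) hzb

/-- the set of the lengths of coded initial parts of `D` -/
def J0 (e : M → M) (D : Set M) : Set M := {x | ∃ w, Cod e D x w}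

theorem J0_isCut {D : Set M} {b : M} (hb : ¬ ∃ w, Cod e D b w) : IsCut (J0 e D) where
  nonempty := ⟨0, 0, fun x => ⟨fun h => absurd h (not_mem_zero x),
    fun h => absurd h.1 (not_lt.2 (zero_le (a := x)))⟩⟩
  proper := fun h => hb (by
    have : b ∈ J0 e D := by rw [h]; trivial
    exact this)
  down := by
    rintro x ⟨w, hw⟩ y hy
    refine ⟨tr e w y, fun z => ?_⟩
    rw [mem_tr, hw z]
    constructor
    · rintro ⟨h1, -, h2⟩; exact ⟨h1, h2⟩
    · rintro ⟨h1, h2⟩; exact ⟨h1, h1.trans_le hy, h2⟩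
  succ := by
    rintro x ⟨w, hw⟩
    by_cases hx : x ∈ D
    · refine ⟨un e w (e x), fun z => ?_⟩
      rw [mem_un, hw z, mem_e, lt_succ_iff e]
      constructor
      · rintro (⟨h1, h2⟩ | h1)
        · exact ⟨h1.le, h2⟩
        · rw [h1]; exact ⟨le_rfl, hx⟩
      · rintro ⟨h1, h2⟩
        rcases lt_or_eq_of_le h1 with h3 | h3
        · exact Or.inl ⟨h3, h2⟩
        · exact Or.inr h3
    · refine ⟨w, fun z => ?_⟩
      rw [hw z, lt_succ_iff e]
      constructor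
      · rintro ⟨h1, h2⟩; exact ⟨h1.le, h2⟩
      · rintro ⟨h1, h2⟩
        rcases lt_or_eq_of_le h1 with h3 | h3
        · exact ⟨h3, h2⟩
        · rw [h3] at h2; exact absurd h2 hx

/-- CASE 1 -/
theorem case1 {D : Set M} {b : M} (hb : ¬ ∃ w, Cod e D b w) {F : M}
    (hF : ∀ x ∈ J0 e D, (x ∈ D ↔ mem e x F)) : Red e (J0 e D) D := by
  have hJ := J0_isCut hb
  refine (red_cut_iff hJ).2 ⟨?_, ?_⟩
  · have h : SB e D (fun v : ℕ → M => ∃ a, Cod e D (v 0) a) :=
      SB.ex (R := fun a v => Cod e D (v 0) a) (SB.codB (DF.var 1) (DF.var 0))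
    exact h.congr fun v => Iff.rfl
  · have h : SB e D (fun v : ℕ → M => ∃ y, y < v 0 ∧
        ((y ∈ D ∧ ¬ mem e y F) ∨ (y ∉ D ∧ mem e y F))) := by
      refine SB.ex (R := fun y v => y < v 0 ∧ ((y ∈ D ∧ ¬ mem e y F) ∨ (y ∉ D ∧ mem e y F))) ?_
      exact (SB.of_def (Def.lt (DF.var 0) (DF.var 1))).and
        (((SB.memB (DF.var 0)).and (SB.of_def (Def.memD (DF.var 0) (DF.cst F)).not)).or
        ((SB.nmemB (DF.var 0)).and (SB.of_def (Def.memD (DF.var 0) (DF.cst F)))))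
    refine h.congr fun v => ?_
    constructor
    · rintro ⟨y, hy, h⟩ hv
      have := hF y (hJ.down _ hv _ hy.le)
      tauto
    · intro hv
      by_contra hcon
      push Not at hcon
      refine hv ⟨tr e F (v 0), fun z => ?_⟩
      rw [mem_tr]
      refine and_congr_right fun hz => ?_
      have := hcon z hz
      tauto

/-- the lexicographic cut -/
def LJ (e : M → M) (D : Set M) (b : M) : Set M :=
  {w | w < e b ∧ ∃ x, x ∈ J0 e D ∧ x ∈ D ∧ ¬ bt e b x w ∧ ∀ y, y < x → (bt e b y w ↔ y ∈ D)}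

theorem case2 {D : Set M} {b : M} (hb : ¬ ∃ w, Cod e D b w)
    (hF : ∀ F, ∃ x ∈ J0 e D, ¬ (x ∈ D ↔ mem e x F)) :
    IsCut (LJ e D b) ∧ Red e (LJ e D b) D := by
  have hJ := J0_isCut hb
  have hlt : ∀ x ∈ J0 e D, x < b := by
    intro x hx
    by_contra h
    exact hb (hJ.down x hx b (not_lt.1 h))
  -- `D` is unbounded in `J0`
  have hunb : ∀ x ∈ J0 e D, ∃ x1 ∈ J0 e D, x < x1 ∧ x1 ∈ D := by
    intro x hx
    obtain ⟨a, ha⟩ := hJ.succ x hx
    obtain ⟨y, hy, hya⟩ := hF a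
    have := ha y
    rw [lt_succ_iff e] at this
    refine ⟨y, hy, ?_, ?_⟩
    · by_contra hxy
      have h2 : y ≤ x := not_lt.1 hxy
      exact hya ⟨fun h => this.2 ⟨h2, h⟩, fun h => (this.1 h).2⟩
    · by_contra hyD
      exact hya ⟨fun h => absurd h hyD, fun h => (this.1 h).2⟩
  have h0 : (0 : M) ∈ J0 e D := by
    obtain ⟨x, hx⟩ := hJ.nonempty
    exact hJ.down x hx 0 (zero_le (a := x))
  -- the number with the digits of `D` below `x1`
  have hcod : ∀ x1 ∈ J0 e D, ∃ w, w < e b ∧ ¬ bt e b x1 w ∧ ∀ y, y < x1 → (bt e b y w ↔ y ∈ D) := by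
    intro x1 hx1
    obtain ⟨a, ha⟩ := hx1
    have hP : Def e (fun v : ℕ → M => rv b (v 0) < x1 ∧ mem e (rv b (v 0)) a) := by
      have h1 : DF e (fun v : ℕ → M => rv b (v 0)) :=
        DF.sbD (DF.cst b) ((DF.var 0).add (DF.cst 1))
      exact (Def.lt h1 (DF.cst x1)).and (Def.memD h1 (DF.cst a))
    refine ⟨cp e b (fun z => rv b z < x1 ∧ mem e (rv b z) a), cp_lt _ _, ?_, fun y hy => ?_⟩
    · unfold bt
      rw [mem_cp hP]
      rintro ⟨-, h1, -⟩
      rw [rv_rv e (hlt x1 ⟨a, ha⟩)] at h1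
      exact lt_irrefl _ h1
    · have hyb : y < b := hy.trans (hlt x1 ⟨a, ha⟩)
      unfold bt
      rw [mem_cp hP, rv_rv e hyb]
      constructor
      · rintro ⟨-, -, h⟩; exact ((ha y).1 h).2
      · intro h; exact ⟨rv_lt e hyb, hy, (ha y).2 ⟨hy, h⟩⟩
  have hdown : ∀ x ∈ LJ e D b, ∀ y, y ≤ x → y ∈ LJ e D b := by
    rintro w ⟨hwb, x, hxJ, hxD, hxw, hag⟩ w' hw'
    rcases eq_or_lt_of_le hw' with rfl | hlt'
    · exact ⟨hwb, x, hxJ, hxD, hxw, hag⟩
    have hw'b : w' < e b := hlt'.trans hwb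
    obtain ⟨y, hyb, hy, hy', hagy⟩ := (lt_iff_bt hwb hw'b).1 hlt'
    refine ⟨hw'b, ?_⟩
    rcases lt_trichotomy y x with h | h | h
    · refine ⟨y, hJ.down _ hxJ _ h.le, (hag y h).1 hy, hy', fun z hz => ?_⟩
      rw [hagy z hz]; exact hag z (hz.trans h)
    · rw [h] at hy; exact absurd hy hxw
    · refine ⟨x, hxJ, hxD, ?_, fun z hz => ?_⟩
      · rw [hagy x h]; exact hxw
      · rw [hagy z (hz.trans h)]; exact hag z hz
  have hcut : IsCut (LJ e D b) := by
    refine ⟨?_, ?_, hdown, ?_⟩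
    · obtain ⟨x1, hx1, -, hx1D⟩ := hunb 0 h0
      obtain ⟨w, h1, h2, h3⟩ := hcod x1 hx1
      exact ⟨w, h1, x1, hx1, hx1D, h2, h3⟩
    · intro h
      have : e b ∈ LJ e D b := by rw [h]; trivial
      exact lt_irrefl _ this.1
    · rintro w ⟨hwb, x, hxJ, hxD, hxw, hag⟩
      obtain ⟨x1, hx1, hxx1, hx1D⟩ := hunb x hxJ
      obtain ⟨w1, h1, h2, h3⟩ := hcod x1 hx1
      have hlt1 : w < w1 := by
        refine (lt_iff_bt h1 hwb).2 ⟨x, hlt x hxJ, (h3 x hxx1).2 hxD, hxw, fun z hz => ?_⟩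
        rw [hag z hz, h3 z (hz.trans hxx1)]
      exact hdown w1 ⟨h1, x1, hx1, hx1D, h2, h3⟩ _ ((succ_le_iff e).2 hlt1)
  refine ⟨hcut, (red_cut_iff hcut).2 ⟨?_, ?_⟩⟩
  · have h : SB e D (fun v : ℕ → M => v 0 < e b ∧ ∃ x a, Cod e D (x + 1) a ∧
        (mem e x a ∧ ¬ bt e b x (v 0) ∧ ∀ y, y < x → (bt e b y (v 0) ↔ mem e y a))) := by
      refine SB.and (SB.of_def (Def.lt (DF.var 0) (DF.cst (e b)))) ?_
      refine SB.ex (R := fun x v => ∃ a, Cod e D (x + 1) a ∧
        (mem e x a ∧ ¬ bt e b x (v 0) ∧ ∀ y, y < x → (bt e b y (v 0) ↔ mem e y a))) ?_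
      refine SB.ex (R := fun a v => Cod e D (v 0 + 1) a ∧
        (mem e (v 0) a ∧ ¬ bt e b (v 0) (v 1) ∧
          ∀ y, y < v 0 → (bt e b y (v 1) ↔ mem e y a))) ?_
      refine SB.and (SB.codB ((DF.var 1).add (DF.cst 1)) (DF.var 0)) (SB.of_def ?_)
      refine (Def.memD (DF.var 1) (DF.var 0)).and ((btD b (DF.var 1) (DF.var 2)).not.and ?_)
      refine Def.ball (R := fun y v => (bt e b y (v 2) ↔ mem e y (v 0))) (DF.var 1) ?_
      exact (btD b (DF.var 0) (DF.var 3)).iff (Def.memD (DF.var 0) (DF.var 1))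
    refine h.congr fun v => ?_
    constructor
    · rintro ⟨h1, x, a, ha, h2, h3, h4⟩
      refine ⟨h1, x, hJ.down _ ⟨a, ha⟩ _ le_self_add, ((ha x).1 h2).2, h3, fun y hy => ?_⟩
      rw [h4 y hy, ha y]
      exact ⟨fun h => h.2, fun h => ⟨hy.trans (lt_add_one x), h⟩⟩
    · rintro ⟨h1, x, hx, h2, h3, h4⟩
      obtain ⟨a, ha⟩ := hJ.succ x hx
      refine ⟨h1, x, a, ha, (ha x).2 ⟨lt_add_one x, h2⟩, h3, fun y hy => ?_⟩
      rw [h4 y hy, ha y]
      exact ⟨fun h => ⟨hy.trans (lt_add_one x), h⟩, fun h => h.2⟩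
  · have h : SB e D (fun v : ℕ → M => e b ≤ v 0 ∨ ∃ x a, Cod e D (x + 1) a ∧
        (¬ mem e x a ∧ bt e b x (v 0) ∧ ∀ y, y < x → (bt e b y (v 0) ↔ mem e y a))) := by
      refine SB.or (SB.of_def (Def.le (DF.cst (e b)) (DF.var 0))) ?_
      refine SB.ex (R := fun x v => ∃ a, Cod e D (x + 1) a ∧
        (¬ mem e x a ∧ bt e b x (v 0) ∧ ∀ y, y < x → (bt e b y (v 0) ↔ mem e y a))) ?_
      refine SB.ex (R := fun a v => Cod e D (v 0 + 1) a ∧
        (¬ mem e (v 0) a ∧ bt e b (v 0) (v 1) ∧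
          ∀ y, y < v 0 → (bt e b y (v 1) ↔ mem e y a))) ?_
      refine SB.and (SB.codB ((DF.var 1).add (DF.cst 1)) (DF.var 0)) (SB.of_def ?_)
      refine (Def.memD (DF.var 1) (DF.var 0)).not.and ((btD b (DF.var 1) (DF.var 2)).and ?_)
      refine Def.ball (R := fun y v => (bt e b y (v 2) ↔ mem e y (v 0))) (DF.var 1) ?_
      exact (btD b (DF.var 0) (DF.var 3)).iff (Def.memD (DF.var 0) (DF.var 1))
    refine h.congr fun v => ?_
    constructor
    · rintro (h1 | ⟨x, a, ha, h2, h3, h4⟩)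
      · exact fun hv => absurd hv.1 (not_lt.2 h1)
      · rintro ⟨h1, x', hx', hx'D, hx'w, hag'⟩
        have hxD : x ∉ D := fun h => h2 ((ha x).2 ⟨lt_add_one x, h⟩)
        rcases lt_trichotomy x x' with h | h | h
        · exact hxD ((hag' x h).1 h3)
        · rw [h] at hxD; exact hxD hx'D
        · have := h4 x' h
          rw [ha x'] at this
          exact hx'w (this.2 ⟨h.trans (lt_add_one x), hx'D⟩)
    · intro hv
      by_cases hvb : e b ≤ v 0
      · exact Or.inl hvb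
      have hvb' : v 0 < e b := not_le.1 hvb
      right
      have hP : Def e (fun w : ℕ → M => bt e b (w 0) (v 0)) := btD b (DF.var 0) (DF.cst (v 0))
      obtain ⟨x, hxJ, hx⟩ := hF (cp e b (fun y => bt e b y (v 0)))
      rw [mem_cp hP] at hx
      have hx' : ¬ (x ∈ D ↔ bt e b x (v 0)) := by
        intro h
        exact hx ⟨fun h1 => ⟨hlt x hxJ, h.1 h1⟩, fun h1 => h.2 h1.2⟩
      obtain ⟨a, ha⟩ := hJ.succ x hxJ
      have hQ : Def e (fun w : ℕ → M => w 0 ≤ x ∧ ¬ (mem e (w 0) a ↔ bt e b (w 0) (v 0))) :=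
        (Def.le (DF.var 0) (DF.cst x)).and
          ((Def.memD (DF.var 0) (DF.cst a)).iff (btD b (DF.var 0) (DF.cst (v 0)))).not
      obtain ⟨y, ⟨hyx, hy⟩, hmin⟩ := lnp (e := e)
        (fun y => y ≤ x ∧ ¬ (mem e y a ↔ bt e b y (v 0))) hQ
        ⟨x, le_rfl, by
          rw [ha x]
          intro h
          exact hx' ⟨fun h1 => h.1 ⟨lt_add_one x, h1⟩, fun h1 => (h.2 h1).2⟩⟩
      have hyJ : y ∈ J0 e D := hJ.down _ hxJ _ hyx
      have hmemD : ∀ z, z ≤ x → (mem e z a ↔ z ∈ D) := by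
        intro z hz
        rw [ha z]
        exact ⟨fun h => h.2, fun h => ⟨lt_of_le_of_lt hz (lt_add_one x), h⟩⟩
      have hagree : ∀ z, z < y → (bt e b z (v 0) ↔ z ∈ D) := by
        intro z hz
        have hzx : z ≤ x := hz.le.trans hyx
        rw [← hmemD z hzx]
        by_contra hcon
        exact absurd (hmin z ⟨hzx, fun h => hcon h.symm⟩) (not_le.2 hz)
      have hyD : y ∉ D := by
        intro h
        have hbt : ¬ bt e b y (v 0) := fun h1 => hy ⟨fun _ => h1, fun _ => (hmemD y hyx).2 h⟩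
        exact hv ⟨hvb', y, hyJ, h, hbt, hagree⟩
      have hbt : bt e b y (v 0) := by
        by_contra h
        exact hy ⟨fun h1 => absurd ((hmemD y hyx).1 h1) hyD, fun h1 => absurd h1 h⟩
      obtain ⟨a', ha'⟩ := hJ.succ y hyJ
      refine ⟨y, a', ha', fun h => hyD ((ha' y).1 h).2, hbt, fun z hz => ?_⟩
      rw [hagree z hz, ha' z]
      exact ⟨fun h => ⟨hz.trans (lt_add_one y), h⟩, fun h => h.2⟩

end Nonreg

theorem exists_cut_red {D : Set M} (h : ¬ Reg e D) : ∃ J, IsCut J ∧ Red e J D := by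
  unfold Reg at h
  push Not at h
  obtain ⟨b, hb⟩ := h
  have hb' : ¬ ∃ w, Cod e D b w := fun ⟨w, hw⟩ => hb w hw
  by_cases hF : ∃ F, ∀ x ∈ Nonreg.J0 e D, (x ∈ D ↔ mem e x F)
  · obtain ⟨F, hF⟩ := hF
    exact ⟨_, Nonreg.J0_isCut hb', Nonreg.case1 hb' hF⟩
  · refine ⟨_, Nonreg.case2 hb' fun F => ?_⟩
    by_contra hcon
    refine hF ⟨F, fun x hx => ?_⟩
    by_contra h2
    exact hcon ⟨x, hx, h2⟩

end Helper40.Cut
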