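import Pool.Agent.Helper40.Cut.Rel2
import Pool.Agent.Helper40.Cut.Stage

/-!
The cut `ω`: cuts with countable cofinal or coinitial sequences,
Sigma_1 cuts.
-/

namespace Helper40.Cut

universe u

variable {M : Type u} [CommSemiring M] [LinearOrder M] [IsStrictOrderedRing M]
  [CanonicallyOrderedAdd M] {e : M → M} [hS : Sat e]

namespace Omega

omit hS [CanonicallyOrderedAdd M] [IsStrictOrderedRing M] in
theorem lt_of_cut {J : Set M} (hJ : IsCut J) {x b : M} (hx : x ∈ J) (hb : b ∉ J) : x < b := by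
  by_contra h
  exact hb (hJ.down x hx b (not_lt.1 h))

omit hS [IsStrictOrderedRing M] in
theorem zero_mem_cut {J : Set M} (hJ : IsCut J) : (0 : M) ∈ J := by
  obtain ⟨x, hx⟩ := hJ.nonempty
  exact hJ.down x hx 0 (zero_le (a := x))

omit hS [IsStrictOrderedRing M] [CanonicallyOrderedAdd M] in
theorem exists_not_mem {J : Set M} (hJ : IsCut J) : ∃ b, b ∉ J := by
  by_contra h
  push Not at h
  exact hJ.proper (Set.eq_univ_of_forall h)

/-- a coded monotone function which leaves the cut at nonstandard arguments -/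
theorem aux_cof (e : M → M) [hS : Sat e] {J : Set M} (hJ : IsCut J) (g : ℕ → M)
    (hg : ∀ n, g n ∈ J) (hc : ∀ x ∈ J, ∃ n, x ≤ g n) :
    ∃ (G : M → M) (c : M), DF e (fun v => G (v 0)) ∧ c ∉ St M ∧ (∀ n : ℕ, G n ∈ J) ∧
      ∀ j, j ≤ c → j ∉ St M → G j ∉ J := by
  obtain ⟨b, hb⟩ := exists_not_mem hJ
  let g' : ℕ → M := fun n => Nat.rec (g 0) (fun n x => max x (g (n + 1))) n
  have hsucc : ∀ n, g' (n + 1) = max (g' n) (g (n + 1)) := fun n => rfl
  have hmono : Monotone g' := monotone_nat_of_le_succ fun n => by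
    rw [hsucc]; exact le_max_left _ _
  have hle : ∀ n, g n ≤ g' n := by
    intro n
    cases n with
    | zero => exact le_rfl
    | succ n => rw [hsucc]; exact le_max_right _ _
  have hmem : ∀ n, g' n ∈ J := by
    intro n
    induction n with
    | zero => exact hg 0
    | succ n ih =>
      rw [hsucc]
      rcases max_choice (g' n) (g (n + 1)) with h | h
      · rw [h]; exact ih
      · rw [h]; exact hg _
  obtain ⟨G, hG, hGn, -⟩ := coded_fun (e := e) g' b fun n => lt_of_cut hJ (hmem n) hb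
  have hP : Def e (fun v : ℕ → M => ∀ z, z ≤ v 0 → G z ≤ G (v 0)) := by
    refine Def.ble (R := fun z v => G z ≤ G (v 0)) (DF.var 0) ?_
    exact Def.le (DF.of1 hG (DF.var 0)) (DF.of1 hG (DF.var 1))
  obtain ⟨c, hcS, hcm⟩ := overspill_St (e := e) (P := fun y => ∀ z, z ≤ y → G z ≤ G y) hP
    (by
      intro n z hz
      obtain ⟨m, rfl⟩ := St_down e (nat_mem_St n) hz
      rw [hGn, hGn]
      have : (m : M) ≤ (n : M) := hz
      exact hmono (Nat.cast_le.1 this))
  refine ⟨G, c, hG, hcS, fun n => by rw [hGn]; exact hmem n, fun j hj hjS hGj => ?_⟩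
  obtain ⟨n, hn⟩ := hc _ (hJ.succ _ hGj)
  have h1 : G (n : M) ≤ G j := hcm j hj n (nat_lt_of_not_St e hjS n).le
  rw [hGn] at h1
  have h2 : G j + 1 ≤ G j := (hn.trans (hle n)).trans h1
  exact absurd h2 (not_le.2 (lt_add_one _))

/-- a coded antitone function which enters the cut at nonstandard arguments -/
theorem aux_coi (e : M → M) [hS : Sat e] {J : Set M} (hJ : IsCut J) (g : ℕ → M)
    (hg : ∀ n, g n ∉ J) (hc : ∀ x, x ∉ J → ∃ n, g n ≤ x) :
    ∃ (G : M → M) (c : M), DF e (fun v => G (v 0)) ∧ c ∉ St M ∧ (∀ n : ℕ, G n ∉ J) ∧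
      ∀ j, j ≤ c → j ∉ St M → G j ∈ J := by
  let g' : ℕ → M := fun n => Nat.rec (g 0) (fun n x => min x (g (n + 1))) n
  have hsucc : ∀ n, g' (n + 1) = min (g' n) (g (n + 1)) := fun n => rfl
  have hmono : Antitone g' := antitone_nat_of_succ_le fun n => by
    rw [hsucc]; exact min_le_left _ _
  have hle : ∀ n, g' n ≤ g n := by
    intro n
    cases n with
    | zero => exact le_rfl
    | succ n => rw [hsucc]; exact min_le_right _ _
  have hmem : ∀ n, g' n ∉ J := by
    intro n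
    induction n with
    | zero => exact hg 0
    | succ n ih =>
      rw [hsucc]
      rcases min_choice (g' n) (g (n + 1)) with h | h
      · rw [h]; exact ih
      · rw [h]; exact hg _
  obtain ⟨G, hG, hGn, -⟩ := coded_fun (e := e) g' (g 0 + 1)
    fun n => lt_of_le_of_lt (hmono (Nat.zero_le n)) (lt_add_one _)
  have hP : Def e (fun v : ℕ → M => ∀ z, z ≤ v 0 → G (v 0) ≤ G z) := by
    refine Def.ble (R := fun z v => G (v 0) ≤ G z) (DF.var 0) ?_
    exact Def.le (DF.of1 hG (DF.var 1)) (DF.of1 hG (DF.var 0))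
  obtain ⟨c, hcS, hcm⟩ := overspill_St (e := e) (P := fun y => ∀ z, z ≤ y → G y ≤ G z) hP
    (by
      intro n z hz
      obtain ⟨m, rfl⟩ := St_down e (nat_mem_St n) hz
      rw [hGn, hGn]
      have : (m : M) ≤ (n : M) := hz
      exact hmono (Nat.cast_le.1 this))
  refine ⟨G, c, hG, hcS, fun n => by rw [hGn]; exact hmem n, fun j hj hjS => ?_⟩
  by_contra hGj
  rcases zero_or_succ e (G j) with h0 | ⟨z, hz⟩
  · rw [h0] at hGj
    exact hGj (zero_mem_cut hJ)
  · have hzJ : z ∉ J := fun h => hGj (by rw [hz]; exact hJ.succ z h)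
    obtain ⟨n, hn⟩ := hc z hzJ
    have h1 : G j ≤ G (n : M) := hcm j hj n (nat_lt_of_not_St e hjS n).le
    rw [hGn] at h1
    have h2 : z + 1 ≤ z := by
      rw [← hz]; exact (h1.trans (hle n)).trans hn
    exact absurd h2 (not_le.2 (lt_add_one _))

end Omega

/-- a cut with a countable cofinal sequence computes `ω` -/
theorem St_red_of_cof {J : Set M} (hJ : IsCut J) (g : ℕ → M) (hg : ∀ n, g n ∈ J)
    (hc : ∀ x ∈ J, ∃ n, x ≤ g n) : Red e (St M) J := by
  obtain ⟨G, c, hG, hcS, hGn, hGj⟩ := Omega.aux_cof e hJ g hg hc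
  refine (red_cut_iff (St_isCut e)).2 ⟨SB.of_es1 (ES1.om (DF.var 0)), ?_⟩
  refine (SB.or (SB.of_def (Def.lt (DF.cst c) (DF.var 0)))
    (SB.nmemB (B := J) (DF.of1 hG (DF.var 0)))).congr fun v => ?_
  constructor
  · rintro (h | h)
    · exact fun hv => hcS (St_down e hv h.le)
    · rintro ⟨n, hn⟩
      rw [hn] at h
      exact h (hGn n)
  · intro hv
    by_cases h : c < v 0
    · exact Or.inl h
    · exact Or.inr (hGj _ (not_lt.1 h) hv)

/-- a cut with a countable coinitial sequence computes `ω` -/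
theorem St_red_of_coi {J : Set M} (hJ : IsCut J) (g : ℕ → M) (hg : ∀ n, g n ∉ J)
    (hc : ∀ x, x ∉ J → ∃ n, g n ≤ x) : Red e (St M) J := by
  obtain ⟨G, c, hG, hcS, hGn, hGj⟩ := Omega.aux_coi e hJ g hg hc
  refine (red_cut_iff (St_isCut e)).2 ⟨SB.of_es1 (ES1.om (DF.var 0)), ?_⟩
  refine (SB.or (SB.of_def (Def.lt (DF.cst c) (DF.var 0)))
    (SB.memB (B := J) (DF.of1 hG (DF.var 0)))).congr fun v => ?_
  constructor
  · rintro (h | h)
    · exact fun hv => hcS (St_down e hv h.le)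
    · rintro ⟨n, hn⟩
      rw [hn] at h
      exact hGn n h
  · intro hv
    by_cases h : c < v 0
    · exact Or.inl h
    · exact Or.inr (hGj _ (not_lt.1 h) hv)

/-- all Sigma_1 cuts have the degree of `ω` -/
theorem cut_equiv {I : Set M} (hI : IsCut I) (h1 : ES1 e (fun v => v 0 ∈ I)) :
    Red e I (St M) ∧ Red e (St M) I := by
  obtain ⟨S, hSd, hSI⟩ := h1
  obtain ⟨b, hb⟩ := Omega.exists_not_mem hI
  obtain ⟨-, s, -, -, -, -, hs⟩ := exists_stage e
  have hmem : ∀ x y : M, S (push y (fun _ => x)) → x ∈ I := by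
    intro x y h
    exact (hSI (fun _ => x)).2 ⟨y, h⟩
  have hD : ∀ n : ℕ, Def e (fun v : ℕ → M => ∃ y, y < s n ∧ S (push y (fun _ => v 0))) := by
    intro n
    refine Def.bex (R := fun y v => S (push y (fun _ => v 0))) (DF.cst (s n)) ?_
    refine (hSd.rename (fun k => if k = 0 then 0 else 1)).congr fun v => ?_
    have : (fun k => v (if k = 0 then 0 else 1)) = push (v 0) (fun _ => tl v 0) := by
      funext k; cases k <;> rfl
    rw [this]
  have hex : ∀ n : ℕ, ∃ x, x ∈ I ∧ ∀ z ∈ I, (∃ y, y < s n ∧ S (push y (fun _ => z))) → z ≤ x := by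
    intro n
    by_cases h : ∃ x, x < b ∧ ∃ y, y < s n ∧ S (push y (fun _ => x))
    · obtain ⟨x, -, ⟨y, -, hy⟩, hx⟩ := maxp (e := e)
        (fun x => ∃ y, y < s n ∧ S (push y (fun _ => x))) (hD n) b h
      exact ⟨x, hmem x y hy, fun z hz hy' => hx z (Omega.lt_of_cut hI hz hb) hy'⟩
    · refine ⟨0, Omega.zero_mem_cut hI, fun z hz hy => ?_⟩
      exact absurd ⟨z, Omega.lt_of_cut hI hz hb, hy⟩ h
  choose g hgI hg using hex
  have hcof : ∀ x ∈ I, ∃ n, x ≤ g n := by
    intro x hx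
    obtain ⟨y, hy⟩ := (hSI (fun _ => x)).1 hx
    obtain ⟨n, hn⟩ := hs y
    exact ⟨n, hg n x hx ⟨y, hn, hy⟩⟩
  refine ⟨?_, St_red_of_cof hI g hgI hcof⟩
  obtain ⟨G, c, hG, hcS, hGn, hGj⟩ := Omega.aux_cof e hI g hgI hcof
  refine (red_cut_iff hI).2 ⟨SB.of_es1 ⟨S, hSd, hSI⟩, ?_⟩
  have hR : SB e (St M) (fun v : ℕ → M => ∃ j, (j ≤ c ∧ G j < v 0) ∧ j ∉ St M) := by
    refine SB.ex (R := fun j v => (j ≤ c ∧ G j < v 0) ∧ j ∉ St M) ?_
    exact SB.and (SB.of_def ((Def.le (DF.var 0) (DF.cst c)).and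
      (Def.lt (DF.of1 hG (DF.var 0)) (DF.var 1)))) (SB.nmemB (DF.var 0))
  refine hR.congr fun v => ?_
  constructor
  · rintro ⟨j, ⟨hj, hlt⟩, hjS⟩ hv
    exact hGj j hj hjS (hI.down _ hv _ hlt.le)
  · intro hv
    have hP : Def e (fun w : ℕ → M => G (w 0) < v 0) :=
      Def.lt (DF.of1 hG (DF.var 0)) (DF.cst (v 0))
    obtain ⟨c', hc'S, hc'⟩ := overspill_St (e := e) (P := fun y => G y < v 0) hP
      fun n => Omega.lt_of_cut hI (hGn n) hv
    refine ⟨min c c', ⟨min_le_left _ _, hc' _ (min_le_right _ _)⟩, ?_⟩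
    rcases min_choice c c' with h | h
    · rw [h]; exact hcS
    · rw [h]; exact hc'S

end Helper40.Cut
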