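import Pool.Agent.Helper40.Cut.Sig

/-!
Relative Sigma_1 relations, the reducibility, joins.
-/

namespace Helper40.Cut

universe u

variable {M : Type u} [CommSemiring M] [LinearOrder M] [IsStrictOrderedRing M]
  [CanonicallyOrderedAdd M] {e : M → M} [hS : Sat e]

omit [IsStrictOrderedRing M] [CanonicallyOrderedAdd M] hS in
private theorem Rel.shape (S : M → M → (ℕ → M) → Prop) (a b : M) {v w : ℕ → M}
    (h : ∀ n, v n = w n) : S a b v ↔ S a b w := by rw [show v = w from funext h]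

omit [IsStrictOrderedRing M] [CanonicallyOrderedAdd M] hS in
private theorem Rel.substT {R : (ℕ → M) → Prop} (h : ES1 e R) (s : ℕ → (ℕ → M) → M)
    (hs : ∀ n, T e (s n)) : ES1 e (fun v => R (fun n => s n v)) := by
  obtain ⟨S, h1, h2⟩ := h
  refine ⟨_, h1.substT (fun n => Nat.casesOn n (fun v => v 0) (fun m v => s m (tl v))) ?_,
    fun v => (h2 _).trans (exists_congr fun y => ?_)⟩
  · intro n
    cases n with
    | zero => exact T.var 0
    | succ m => exact (hs m).tail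
  · have : (push y fun n => s n v) = (fun n => (Nat.casesOn (motive := fun _ => (ℕ → M) → M) n
        (fun v => v 0) (fun m v => s m (tl v)) : (ℕ → M) → M) (push y v)) := by
      funext n; cases n <;> rfl
    rw [this]

omit [IsStrictOrderedRing M] [CanonicallyOrderedAdd M] hS in
theorem Rel.cm_mono {B : Set M} {K L K' L' : M} (h : Cm e B K L)
    (hK : ∀ z, mem e z K' → mem e z K) (hL : ∀ z, mem e z L' → mem e z L) : Cm e B K' L' :=
  ⟨fun z hz => h.1 z (hK z hz), fun z hz => h.2 z (hL z hz)⟩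

theorem Rel.cm_zero (B : Set M) : Cm e B 0 0 :=
  ⟨fun z hz => absurd hz (not_mem_zero z), fun z hz => absurd hz (not_mem_zero z)⟩

theorem Rel.cm_un {B : Set M} {K L K' L' : M} (h : Cm e B K L) (h' : Cm e B K' L') :
    Cm e B (un e K K') (un e L L') :=
  ⟨fun z hz => (mem_un.1 hz).elim (h.1 z) (h'.1 z), fun z hz => (mem_un.1 hz).elim (h.2 z) (h'.2 z)⟩

private theorem Rel.subc {f g : (ℕ → M) → M} (hf : DF e f) (hg : DF e g) :
    Def e (fun v => ∀ z, mem e z (f v) → mem e z (g v)) := by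
  refine (Def.ball (R := fun z v => mem e z (f v) → mem e z (g v)) hf
    ((Def.memD (DF.var 0) hf.tail).imp (Def.memD (DF.var 0) hg.tail))).congr fun v => ?_
  exact ⟨fun h z hz => h z (mem_lt hz) hz, fun h z _ hz => h z hz⟩

/-- monotone form -/
private theorem Rel.mono {B : Set M} {R : (ℕ → M) → Prop} (h : SB e B R) :
    ∃ Φ : M → M → (ℕ → M) → Prop, ES1 e (fun v => Φ (v 0) (v 1) (tl (tl v))) ∧
      (∀ v, R v ↔ ∃ K L, Cm e B K L ∧ Φ K L v) ∧
      ∀ K L K' L' v, (∀ z, mem e z K → mem e z K') → (∀ z, mem e z L → mem e z L') →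
        Φ K L v → Φ K' L' v := by
  obtain ⟨Φ, h1, h2⟩ := h
  refine ⟨fun K L v => ∃ K₁ L₁, (∀ z, mem e z K₁ → mem e z K) ∧ (∀ z, mem e z L₁ → mem e z L) ∧
    Φ K₁ L₁ v, ?_, fun v => (h2 v).trans ?_, ?_⟩
  · refine ES1.ex (R := fun K₁ v => ∃ L₁, (∀ z, mem e z K₁ → mem e z (v 0)) ∧
      (∀ z, mem e z L₁ → mem e z (v 1)) ∧ Φ K₁ L₁ (tl (tl v))) ?_
    refine ES1.ex (R := fun L₁ v => (∀ z, mem e z (v 0) → mem e z (v 1)) ∧
      (∀ z, mem e z L₁ → mem e z (v 2)) ∧ Φ (v 0) L₁ (tl (tl (tl v)))) ?_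
    refine ES1.and (ES1.of_def (Rel.subc (DF.var 1) (DF.var 2)))
      (ES1.and (ES1.of_def (Rel.subc (DF.var 0) (DF.var 3))) ?_)
    exact (h1.rename (fun n => if n = 0 then 1 else if n = 1 then 0 else n + 2)).congr fun v =>
      Rel.shape Φ _ _ fun n => by simp
  · constructor
    · rintro ⟨K, L, hC, hΦ⟩
      exact ⟨K, L, hC, K, L, fun _ h => h, fun _ h => h, hΦ⟩
    · rintro ⟨K, L, hC, K₁, L₁, hK, hL, hΦ⟩
      exact ⟨K₁, L₁, Rel.cm_mono hC hK hL, hΦ⟩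
  · rintro K L K' L' v hK hL ⟨K₁, L₁, h3, h4, h5⟩
    exact ⟨K₁, L₁, fun z hz => hK z (h3 z hz), fun z hz => hL z (h4 z hz), h5⟩

theorem SB.congr {B : Set M} {R S : (ℕ → M) → Prop} (h : SB e B R) (hRS : ∀ v, R v ↔ S v) :
    SB e B S := by
  obtain ⟨Φ, h1, h2⟩ := h
  exact ⟨Φ, h1, fun v => (hRS v).symm.trans (h2 v)⟩

theorem SB.of_es1 {B : Set M} {R : (ℕ → M) → Prop} (h : ES1 e R) : SB e B R :=
  ⟨fun _ _ v => R v, h.tail.tail, fun _ => ⟨fun h => ⟨0, 0, Rel.cm_zero B, h⟩,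
    fun ⟨_, _, _, h⟩ => h⟩⟩

theorem SB.of_def {B : Set M} {R : (ℕ → M) → Prop} (h : Def e R) : SB e B R :=
  SB.of_es1 (ES1.of_def h)

theorem SB.rename {B : Set M} {R : (ℕ → M) → Prop} (h : SB e B R) (ρ : ℕ → ℕ) :
    SB e B (fun v => R (fun n => v (ρ n))) := by
  obtain ⟨Φ, h1, h2⟩ := h
  refine ⟨fun K L v => Φ K L (fun n => v (ρ n)), ?_, fun v => h2 _⟩
  exact (h1.rename (fun n => Nat.casesOn n 0 (fun m => Nat.casesOn m 1 (fun k => ρ k + 2)))).congr
    fun v => Rel.shape Φ _ _ fun n => rfl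

theorem SB.tail {B : Set M} {R : (ℕ → M) → Prop} (h : SB e B R) :
    SB e B (fun v => R (tl v)) := h.rename (fun n => n + 1)

theorem SB.and {B : Set M} {R S : (ℕ → M) → Prop} (hR : SB e B R) (hS : SB e B S) :
    SB e B (fun v => R v ∧ S v) := by
  obtain ⟨Φ, h1, h2, h3⟩ := Rel.mono hR
  obtain ⟨Ψ, h4, h5, h6⟩ := Rel.mono hS
  refine ⟨fun K L v => Φ K L v ∧ Ψ K L v, ES1.and h1 h4, fun v => ?_⟩
  constructor
  · rintro ⟨hr, hs⟩
    obtain ⟨K, L, hC, hΦ⟩ := (h2 v).1 hr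
    obtain ⟨K', L', hC', hΨ⟩ := (h5 v).1 hs
    exact ⟨un e K K', un e L L', Rel.cm_un hC hC',
      h3 K L _ _ v (fun z hz => mem_un.2 (Or.inl hz)) (fun z hz => mem_un.2 (Or.inl hz)) hΦ,
      h6 K' L' _ _ v (fun z hz => mem_un.2 (Or.inr hz)) (fun z hz => mem_un.2 (Or.inr hz)) hΨ⟩
  · rintro ⟨K, L, hC, hΦ, hΨ⟩
    exact ⟨(h2 v).2 ⟨K, L, hC, hΦ⟩, (h5 v).2 ⟨K, L, hC, hΨ⟩⟩

theorem SB.or {B : Set M} {R S : (ℕ → M) → Prop} (hR : SB e B R) (hS : SB e B S) :
    SB e B (fun v => R v ∨ S v) := by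
  obtain ⟨Φ, h1, h2⟩ := hR
  obtain ⟨Ψ, h4, h5⟩ := hS
  refine ⟨fun K L v => Φ K L v ∨ Ψ K L v, ES1.or h1 h4, fun v => ?_⟩
  constructor
  · rintro (hr | hs)
    · obtain ⟨K, L, hC, hΦ⟩ := (h2 v).1 hr
      exact ⟨K, L, hC, Or.inl hΦ⟩
    · obtain ⟨K, L, hC, hΦ⟩ := (h5 v).1 hs
      exact ⟨K, L, hC, Or.inr hΦ⟩
  · rintro ⟨K, L, hC, hΦ | hΨ⟩
    · exact Or.inl ((h2 v).2 ⟨K, L, hC, hΦ⟩)
    · exact Or.inr ((h5 v).2 ⟨K, L, hC, hΨ⟩)

private theorem Rel.perm {Φ : M → M → (ℕ → M) → Prop}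
    (h1 : ES1 e (fun v => Φ (v 0) (v 1) (tl (tl v)))) :
    ES1 e (fun v => Φ (v 1) (v 2) (push (v 0) (tl (tl (tl v))))) :=
  (h1.rename (fun n => if n = 0 then 1 else if n = 1 then 2 else if n = 2 then 0 else n)).congr
    fun v => Rel.shape Φ _ _ fun n => by cases n <;> simp

theorem SB.ex {B : Set M} {R : M → (ℕ → M) → Prop} (h : SB e B (fun v => R (v 0) (tl v))) :
    SB e B (fun v => ∃ x, R x v) := by
  obtain ⟨Φ, h1, h2⟩ := h
  refine ⟨fun K L v => ∃ x, Φ K L (push x v), ?_, fun v => ?_⟩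
  · exact ES1.ex (R := fun x w => Φ (w 0) (w 1) (push x (tl (tl w)))) (Rel.perm h1)
  · constructor
    · rintro ⟨x, hx⟩
      obtain ⟨K, L, hC, hΦ⟩ := (h2 (push x v)).1 hx
      exact ⟨K, L, hC, x, hΦ⟩
    · rintro ⟨K, L, hC, x, hΦ⟩
      exact ⟨x, (h2 (push x v)).2 ⟨K, L, hC, hΦ⟩⟩

theorem SB.subst {B : Set M} {R : M → (ℕ → M) → Prop} {f : (ℕ → M) → M} (hf : DF e f)
    (h : SB e B (fun v => R (v 0) (tl v))) : SB e B (fun v => R (f v) v) := by
  obtain ⟨Φ, h1, h2⟩ := h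
  refine ⟨fun K L v => Φ K L (push (f v) v), ?_, fun v => h2 (push (f v) v)⟩
  exact ES1.subst (R := fun x w => Φ (w 0) (w 1) (push x (tl (tl w)))) hf.tail.tail (Rel.perm h1)

theorem SB.of1 {B : Set M} {R : M → Prop} {f : (ℕ → M) → M} (hR : SB e B (fun v => R (v 0)))
    (hf : DF e f) : SB e B (fun v => R (f v)) :=
  SB.subst (R := fun y _ => R y) hf hR

theorem SB.of2 {B : Set M} {R : M → M → Prop} {f g : (ℕ → M) → M}
    (hR : SB e B (fun v => R (v 0) (v 1)))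
    (hf : DF e f) (hg : DF e g) : SB e B (fun v => R (f v) (g v)) := by
  refine SB.subst (R := fun y v => R y (g v)) hf ?_
  refine SB.subst (R := fun y v => R (v 0) y) hg.tail ?_
  exact hR.rename (fun n => Nat.casesOn n 1 (fun _ => 0))

/-- fixing the other variables -/
theorem SB.fix {B : Set M} {R : M → (ℕ → M) → Prop} (h : SB e B (fun v => R (v 0) (tl v)))
    (w : ℕ → M) : SB e B (fun v => R (v 0) w) := by
  obtain ⟨Φ, h1, h2⟩ := h
  refine ⟨fun K L v => Φ K L (push (v 0) w), ?_, fun v => h2 (push (v 0) w)⟩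
  refine (Rel.substT h1 (fun n => Nat.casesOn n (fun v => v 0)
    (fun m => Nat.casesOn m (fun v => v 1) (fun k => Nat.casesOn k (fun v => v 2)
      (fun j _ => w j)))) ?_).congr fun v => Rel.shape Φ _ _ fun n => ?_
  · intro n
    match n with
    | 0 => exact T.var 0
    | 1 => exact T.var 1
    | 2 => exact T.var 2
    | n + 3 => exact T.cst _
  · cases n <;> rfl

theorem SB.subB {B : Set M} {f : (ℕ → M) → M} (hf : DF e f) :
    SB e B (fun v => Sub e (f v) B) := by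
  refine ⟨fun K _ v => K = f v, ES1.of_def (Def.eq (DF.var 0) hf.tail.tail), fun v => ?_⟩
  constructor
  · intro h
    exact ⟨f v, 0, ⟨h, fun z hz => absurd hz (not_mem_zero z)⟩, rfl⟩
  · rintro ⟨K, L, hC, rfl⟩
    exact hC.1

theorem SB.nsubB {B : Set M} {f : (ℕ → M) → M} (hf : DF e f) :
    SB e B (fun v => Sub e (f v) Bᶜ) := by
  refine ⟨fun _ L v => L = f v, ES1.of_def (Def.eq (DF.var 1) hf.tail.tail), fun v => ?_⟩
  constructor
  · intro h
    exact ⟨0, f v, ⟨fun z hz => absurd hz (not_mem_zero z), h⟩, rfl⟩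
  · rintro ⟨K, L, hC, rfl⟩
    exact hC.2

theorem SB.memB {B : Set M} {f : (ℕ → M) → M} (hf : DF e f) : SB e B (fun v => f v ∈ B) := by
  refine (SB.subB (B := B) hf.ex).congr fun v => ?_
  constructor
  · intro h
    exact h _ (mem_e.2 rfl)
  · intro h x hx
    rw [mem_e.1 hx]
    exact h

theorem SB.nmemB {B : Set M} {f : (ℕ → M) → M} (hf : DF e f) : SB e B (fun v => f v ∉ B) := by
  refine (SB.nsubB (B := B) hf.ex).congr fun v => ?_
  constructor
  · intro h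
    exact h _ (mem_e.2 rfl)
  · intro h x hx
    rw [mem_e.1 hx]
    exact h

theorem SB.codB {B : Set M} {f g : (ℕ → M) → M} (hf : DF e f) (hg : DF e g) :
    SB e B (fun v => Cod e B (f v) (g v)) := by
  refine ⟨fun K L v => K = g v ∧ (∀ x, x < g v → mem e x (g v) → x < f v) ∧
    ∀ x, x < f v → mem e x (g v) ∨ mem e x L, ES1.of_def ?_, fun v => ?_⟩
  · refine (Def.eq (DF.var 0) hg.tail.tail).and (Def.and ?_ ?_)
    · exact Def.ball (R := fun x v => mem e x (g (tl (tl v))) → x < f (tl (tl v))) hg.tail.tail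
        ((Def.memD (DF.var 0) hg.tail.tail.tail).imp (Def.lt (DF.var 0) hf.tail.tail.tail))
    · exact Def.ball (R := fun x v => mem e x (g (tl (tl v))) ∨ mem e x (v 1)) hf.tail.tail
        ((Def.memD (DF.var 0) hg.tail.tail.tail).or (Def.memD (DF.var 0) (DF.var 2)))
  · constructor
    · intro h
      refine ⟨g v, cl e (g v) (f v), ⟨fun z hz => ((h z).1 hz).2, fun z hz hz' => ?_⟩, rfl,
        fun x _ hx => ((h x).1 hx).1, fun x hx => ?_⟩
      · exact (mem_cl.1 hz).2 ((h z).2 ⟨(mem_cl.1 hz).1, hz'⟩)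
      · by_cases hm : mem e x (g v)
        · exact Or.inl hm
        · exact Or.inr (mem_cl.2 ⟨hx, hm⟩)
    · rintro ⟨K, L, hC, rfl, h1, h2⟩ x
      constructor
      · intro hx
        exact ⟨h1 x (mem_lt hx) hx, hC.1 x hx⟩
      · rintro ⟨hx, hB⟩
        rcases h2 x hx with h | h
        · exact h
        · exact absurd hB (hC.2 x h)

private theorem Rel.glue {Φ : M → M → (ℕ → M) → Prop}
    (h1 : ES1 e (fun v => Φ (v 0) (v 1) (tl (tl v)))) :
    ES1 e (fun v => Φ (v 2) (v 3) (push (v 0) (fun _ => 0))) := by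
  refine (Rel.substT h1 (fun n => Nat.casesOn n (fun v => v 2)
    (fun m => Nat.casesOn m (fun v => v 3) (fun k => Nat.casesOn k (fun v => v 0)
      (fun _ _ => 0)))) ?_).congr fun v => Rel.shape Φ _ _ fun n => ?_
  · intro n
    match n with
    | 0 => exact T.var 2
    | 1 => exact T.var 3
    | 2 => exact T.var 0
    | n + 3 => exact T.cst _
  · cases n <;> rfl

theorem red_iff {A B : Set M} : Red e A B ↔
    SB e B (fun v => Sub e (v 0) A) ∧ SB e B (fun v => Sub e (v 0) Aᶜ) := by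
  constructor
  · rintro ⟨Φ, h0, h1, h2⟩
    have h3 : ES1 e (fun v => Φ (v 0) (v 1) (v 2) (v 3)) := (Sat.seq _).1 h0
    refine ⟨⟨fun K L v => Φ (v 0) 1 K L,
      ES1.of4 h3 (DF.var 2) (DF.cst 1) (DF.var 0) (DF.var 1), fun v => ?_⟩,
      ⟨fun K L v => Φ (v 0) 0 K L,
      ES1.of4 h3 (DF.var 2) (DF.cst 0) (DF.var 0) (DF.var 1), fun v => ?_⟩⟩
    · exact (h1 (v 0)).trans (exists_congr fun K => exists_congr fun L => and_assoc.symm)
    · exact (h2 (v 0)).trans (exists_congr fun K => exists_congr fun L => and_assoc.symm)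
  · rintro ⟨⟨Φ, h1, h2⟩, Ψ, h3, h4⟩
    refine ⟨fun X i K L => (i = 1 ∧ Φ K L (push X (fun _ => 0))) ∨
      (i = 0 ∧ Ψ K L (push X (fun _ => 0))), (Sat.seq (e := e) _).2 ?_, fun X => ?_, fun X => ?_⟩
    · exact ((ES1.of_def (Def.eq (DF.var 1) (DF.cst 1))).and (Rel.glue h1)).or
        ((ES1.of_def (Def.eq (DF.var 1) (DF.cst 0))).and (Rel.glue h3))
    · refine (h2 (push X fun _ => 0)).trans (exists_congr fun K => exists_congr fun L => ?_)
      simp [Cm, and_assoc]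
    · refine (h4 (push X fun _ => 0)).trans (exists_congr fun K => exists_congr fun L => ?_)
      simp [Cm, and_assoc]

theorem SB.trans {A B : Set M} (hAB : Red e A B) {R : (ℕ → M) → Prop}
    (hR : SB e A R) : SB e B R := by
  obtain ⟨h1, h2⟩ := red_iff.1 hAB
  obtain ⟨Φ, h3, h4⟩ := hR
  have key : SB e B (fun v => ∃ K, ∃ L, Sub e K A ∧ Sub e L Aᶜ ∧ Φ K L v) := by
    refine SB.ex (R := fun K v => ∃ L, Sub e K A ∧ Sub e L Aᶜ ∧ Φ K L v) ?_
    refine SB.ex (R := fun L v => Sub e (v 0) A ∧ Sub e L Aᶜ ∧ Φ (v 0) L (tl v)) ?_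
    refine SB.and (SB.of1 (R := fun K => Sub e K A) h1 (DF.var 1))
      (SB.and (SB.of1 (R := fun K => Sub e K Aᶜ) h2 (DF.var 0)) (SB.of_es1 ?_))
    exact (h3.rename (fun n => if n = 0 then 1 else if n = 1 then 0 else n)).congr fun v =>
      Rel.shape Φ _ _ fun n => by simp
  refine key.congr fun v => ?_
  rw [h4 v]
  exact exists_congr fun K => exists_congr fun L => and_assoc.symm

theorem Red.refl (A : Set M) : Red e A A :=
  red_iff.2 ⟨SB.subB (DF.var 0), SB.nsubB (DF.var 0)⟩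

theorem Red.trans {A B C : Set M} (h1 : Red e A B) (h2 : Red e B C) :
    Red e A C :=
  red_iff.2 ⟨SB.trans h2 (red_iff.1 h1).1, SB.trans h2 (red_iff.1 h1).2⟩

end Helper40.Cut
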