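import Pool.Agent.Helper40.Cut.Rel

/-!
Delta_1 sets, cuts, joins.
-/

namespace Helper40.Cut

universe u

variable {M : Type u} [CommSemiring M] [LinearOrder M] [IsStrictOrderedRing M]
  [CanonicallyOrderedAdd M] {e : M → M} [hS : Sat e]

namespace Rel2

theorem sub_e {A : Set M} {x : M} : Sub e (e x) A ↔ x ∈ A := by
  constructor
  · intro h; exact h x (mem_e.2 rfl)
  · intro h y hy
    have h2 := mem_e.1 hy
    subst h2; exact h

theorem eq_zero_of_sub_empty {K : M} (h : Sub e K ∅) : K = 0 := by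
  apply mem_ext (e := e)
  intro x
  constructor
  · intro hx; exact absurd (h x hx) (Set.notMem_empty x)
  · intro hx; exact absurd hx (not_mem_zero x)

theorem cm_empty {K L : M} : Cm e ∅ K L ↔ K = 0 := by
  constructor
  · rintro ⟨h, _⟩; exact eq_zero_of_sub_empty h
  · rintro rfl
    refine ⟨fun x hx => absurd hx (not_mem_zero x), fun x _ => ?_⟩
    simp

theorem es1_of_SB_empty {R : (ℕ → M) → Prop} (h : SB e ∅ R) : ES1 e R := by
  obtain ⟨Φ, hΦ, h⟩ := h
  have h1 : ES1 e (fun v => ∃ L, Φ 0 L v) := by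
    refine ES1.ex (R := fun L v => Φ 0 L v) ?_
    refine (ES1.subst (R := fun y v => Φ y (v 0) (tl v)) (f := fun _ => (0 : M)) (DF.cst 0) ?_)
    exact hΦ
  refine h1.congr fun v => ?_
  rw [h v]
  constructor
  · rintro ⟨L, hL⟩; exact ⟨0, L, cm_empty.2 rfl, hL⟩
  · rintro ⟨K, L, hK, hL⟩
    rw [cm_empty] at hK
    subst hK
    exact ⟨L, hL⟩

theorem es1_sub {A : Set M} (h : ES1 e (fun v => v 0 ∈ A)) : ES1 e (fun v => Sub e (v 0) A) := by
  have h1 : ES1 e (fun v => ∀ x, x < v 0 → (¬ mem e x (v 0) ∨ x ∈ A)) := by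
    refine ES1.ball (R := fun x v => ¬ mem e x (v 0) ∨ x ∈ A) (DF.var 0) ?_
    refine ES1.or ?_ ?_
    · exact ES1.of_def (Def.memD (DF.var 0) (DF.var 1)).not
    · exact h
  refine h1.congr fun v => ?_
  constructor
  · intro hx x hxv
    rcases hx x (mem_lt hxv) with h2 | h2
    · exact absurd hxv h2
    · exact h2
  · intro hx x _
    by_cases h2 : mem e x (v 0)
    · right; exact hx x h2
    · left; exact h2

theorem sb_sub {A : Set M} (h1 : ES1 e (fun v => v 0 ∈ A)) (h2 : ES1 e (fun v => v 0 ∉ A))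
    (B : Set M) : Red e A B := by
  rw [red_iff]
  exact ⟨SB.of_es1 (es1_sub h1), SB.of_es1 (es1_sub (A := Aᶜ) h2)⟩

end Rel2

open Rel2

/-- below the empty set: Delta_1 sets -/
theorem red_empty_iff {A : Set M} : Red e A ∅ ↔
    ES1 e (fun v => v 0 ∈ A) ∧ ES1 e (fun v => v 0 ∉ A) := by
  constructor
  · intro h
    rw [red_iff] at h
    have h1 := es1_of_SB_empty h.1
    have h2 := es1_of_SB_empty h.2
    constructor
    · refine (ES1.of1 (R := fun x => Sub e x A) h1 (DF.ex (DF.var 0))).congr fun v => ?_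
      exact sub_e
    · refine (ES1.of1 (R := fun x => Sub e x Aᶜ) h2 (DF.ex (DF.var 0))).congr fun v => ?_
      exact sub_e
  · rintro ⟨h1, h2⟩
    exact sb_sub h1 h2 ∅

theorem red_of_red_empty {A : Set M} (hA : Red e A ∅) (B : Set M) : Red e A B := by
  rw [red_empty_iff] at hA
  exact sb_sub hA.1 hA.2 B

theorem empty_red (B : Set M) : Red e ∅ B := red_of_red_empty (Red.refl ∅) B

namespace Rel2

theorem exists_mem_of_ne_zero {X : M} (h : X ≠ 0) : ∃ x, mem e x X := by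
  by_contra hcon
  push Not at hcon
  apply h
  apply mem_ext (e := e)
  intro x
  constructor
  · intro hx; exact absurd hx (hcon x)
  · intro hx; exact absurd hx (not_mem_zero x)

theorem exists_max {X : M} (h : X ≠ 0) :
    ∃ x, mem e x X ∧ ∀ y, y < X → (mem e y X → y ≤ x) := by
  obtain ⟨x, hx⟩ := exists_mem_of_ne_zero (e := e) h
  obtain ⟨m, _, hm2, hm3⟩ := maxp (e := e) (fun y => mem e y X)
    (Def.memD (DF.var 0) (DF.cst X)) X ⟨x, mem_lt hx, hx⟩
  exact ⟨m, hm2, fun y hy hy2 => hm3 y hy hy2⟩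

theorem exists_min {X : M} (h : X ≠ 0) :
    ∃ x, mem e x X ∧ ∀ y, y < X → (mem e y X → x ≤ y) := by
  obtain ⟨x, hx⟩ := exists_mem_of_ne_zero (e := e) h
  obtain ⟨m, hm2, hm3⟩ := lnp (e := e) (fun y => mem e y X)
    (Def.memD (DF.var 0) (DF.cst X)) ⟨x, hx⟩
  exact ⟨m, hm2, fun y _ hy2 => hm3 y hy2⟩

theorem sub_zero (A : Set M) : Sub e 0 A := fun x hx => absurd hx (not_mem_zero x)

end Rel2

/-- for cuts, elements instead of M-finite sets -/
theorem red_cut_iff {I : Set M} (hI : IsCut I) {B : Set M} : Red e I B ↔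
    SB e B (fun v => v 0 ∈ I) ∧ SB e B (fun v => v 0 ∉ I) := by
  constructor
  · intro h
    exact ⟨SB.trans h (SB.memB (DF.var 0)), SB.trans h (SB.nmemB (DF.var 0))⟩
  · rintro ⟨h1, h2⟩
    rw [red_iff]
    constructor
    · have h3 : SB e B (fun v => v 0 = 0 ∨
          ∃ x, (mem e x (v 0) ∧ ∀ y, y < v 0 → (mem e y (v 0) → y ≤ x)) ∧ x ∈ I) := by
        refine SB.or (SB.of_def (Def.eq (DF.var 0) (DF.cst 0))) ?_
        refine SB.ex (R := fun x v => (mem e x (v 0) ∧ ∀ y, y < v 0 →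
          (mem e y (v 0) → y ≤ x)) ∧ x ∈ I) ?_
        refine SB.and (SB.of_def (Def.and (Def.memD (DF.var 0) (DF.var 1)) ?_)) h1
        refine Def.ball (R := fun y v => mem e y (v 1) → y ≤ v 0) (DF.var 1) ?_
        exact Def.imp (Def.memD (DF.var 0) (DF.var 2)) (Def.le (DF.var 0) (DF.var 1))
      refine h3.congr fun v => ?_
      constructor
      · rintro (h | ⟨x, ⟨_, hx2⟩, hx3⟩)
        · rw [h]; exact sub_zero I
        · intro y hy
          exact hI.down x hx3 y (hx2 y (mem_lt hy) hy)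
      · intro h
        by_cases h0 : v 0 = 0
        · left; exact h0
        · right
          obtain ⟨x, hx1, hx2⟩ := exists_max (e := e) h0
          exact ⟨x, ⟨hx1, hx2⟩, h x hx1⟩
    · have h3 : SB e B (fun v => v 0 = 0 ∨
          ∃ x, (mem e x (v 0) ∧ ∀ y, y < v 0 → (mem e y (v 0) → x ≤ y)) ∧ x ∉ I) := by
        refine SB.or (SB.of_def (Def.eq (DF.var 0) (DF.cst 0))) ?_
        refine SB.ex (R := fun x v => (mem e x (v 0) ∧ ∀ y, y < v 0 →
          (mem e y (v 0) → x ≤ y)) ∧ x ∉ I) ?_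
        refine SB.and (SB.of_def (Def.and (Def.memD (DF.var 0) (DF.var 1)) ?_)) h2
        refine Def.ball (R := fun y v => mem e y (v 1) → v 0 ≤ y) (DF.var 1) ?_
        exact Def.imp (Def.memD (DF.var 0) (DF.var 2)) (Def.le (DF.var 1) (DF.var 0))
      refine h3.congr fun v => ?_
      constructor
      · rintro (h | ⟨x, ⟨_, hx2⟩, hx3⟩)
        · rw [h]; exact sub_zero Iᶜ
        · intro y hy hyI
          exact hx3 (hI.down y hyI x (hx2 y (mem_lt hy) hy))
      · intro h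
        by_cases h0 : v 0 = 0
        · left; exact h0
        · right
          obtain ⟨x, hx1, hx2⟩ := exists_min (e := e) h0
          exact ⟨x, ⟨hx1, hx2⟩, h x hx1⟩

/-- cuts are not Delta_1 -/
theorem cut_not_red_empty {I : Set M} (hI : IsCut I) : ¬ Red e I ∅ := by
  intro h
  rw [red_empty_iff] at h
  obtain ⟨⟨S, hSd, hSe⟩, h2⟩ := h
  obtain ⟨b, hb⟩ : ∃ b, b ∉ I := by
    by_contra hcon
    push Not at hcon
    exact hI.proper (Set.eq_univ_of_forall hcon)
  -- collection for the relation `S y x ∨ x ∉ I`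
  have hcoll := Sat.coll (e := e) (fun x y => S (push y (fun _ => x)) ∨ x ∉ I) (by
    refine ES1.or (ES1.of_def ?_) (ES1.of1 (R := fun x => x ∉ I) h2 (DF.var 0))
    refine (hSd.rename (fun n => Nat.casesOn n 1 (fun _ => 0))).congr fun v => ?_
    have : (fun n => v (Nat.casesOn (motive := fun _ => ℕ) n 1 (fun _ => 0))) =
        push (v 1) (fun _ => v 0) := by
      funext n; cases n <;> rfl
    rw [this]) (b + 1) (by
    intro x _
    by_cases hx : x ∈ I
    · obtain ⟨y, hy⟩ := (hSe (fun _ => x)).1 hx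
      exact ⟨y, Or.inl hy⟩
    · exact ⟨0, Or.inr hx⟩)
  obtain ⟨t, ht⟩ := hcoll
  refine not_def_cut (e := e) hI ?_
  have h3 : Def e (fun v => v 0 < b + 1 ∧ ∃ y, y < t ∧ S (push y (fun _ => v 0))) := by
    refine Def.and (Def.lt (DF.var 0) (DF.cst (b + 1))) ?_
    refine Def.bex (R := fun y v => S (push y (fun _ => v 0))) (DF.cst t) ?_
    refine (hSd.rename (fun n => Nat.casesOn n 0 (fun _ => 1))).congr fun v => ?_
    have : (fun n => v (Nat.casesOn (motive := fun _ => ℕ) n 0 (fun _ => 1))) =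
        push (v 0) (fun _ => v 1) := by
      funext n; cases n <;> rfl
    rw [this]
    rfl
  refine h3.congr fun v => ?_
  constructor
  · rintro ⟨_, y, _, hy⟩
    exact (hSe (fun _ => v 0)).2 ⟨y, hy⟩
  · intro hv
    have hvb : v 0 < b + 1 := by
      rw [lt_succ_iff e]
      by_contra hcon
      exact hb (hI.down _ hv b (not_le.1 hcon).le)
    refine ⟨hvb, ?_⟩
    obtain ⟨y, hy, hy2⟩ := ht (v 0) hvb
    rcases hy2 with h4 | h4
    · exact ⟨y, hy, h4⟩
    · exact absurd hv h4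

namespace Rel2

/-- the doubled set -/
noncomputable def dbl (e : M → M) (X : M) : M :=
  cp e (2 * X) (fun z => ∃ y, y < X ∧ (mem e y X ∧ z = 2 * y))

/-- the doubled set, shifted by one -/
noncomputable def dbo (e : M → M) (X : M) : M :=
  cp e (2 * X + 1) (fun z => ∃ y, y < X ∧ (mem e y X ∧ z = 2 * y + 1))

/-- the even part -/
noncomputable def ev (e : M → M) (X : M) : M := cp e X (fun y => mem e (2 * y) X)

/-- the odd part -/
noncomputable def od (e : M → M) (X : M) : M := cp e X (fun y => mem e (2 * y + 1) X)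

/-- the set with given even and odd parts -/
noncomputable def mx (e : M → M) (K L : M) : M := un e (dbl e K) (dbo e L)

omit [IsStrictOrderedRing M] in
theorem le_two_mul (x : M) : x ≤ 2 * x := by
  rw [two_mul]; exact le_self_add

theorem two_mul_inj {x y : M} (h : 2 * x = 2 * y) : x = y :=
  mul_left_cancel₀ two_ne_zero h

theorem def_dbl : Def e (fun v => ∃ y, y < v 1 ∧ (mem e y (v 1) ∧ v 0 = 2 * y)) := by
  refine Def.bex (R := fun y v => mem e y (v 1) ∧ v 0 = 2 * y) (DF.var 1) ?_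
  exact Def.and (Def.memD (DF.var 0) (DF.var 2))
    (Def.eq (DF.var 1) (DF.mul (DF.cst 2) (DF.var 0)))

theorem def_dbo : Def e (fun v => ∃ y, y < v 1 ∧ (mem e y (v 1) ∧ v 0 = 2 * y + 1)) := by
  refine Def.bex (R := fun y v => mem e y (v 1) ∧ v 0 = 2 * y + 1) (DF.var 1) ?_
  exact Def.and (Def.memD (DF.var 0) (DF.var 2))
    (Def.eq (DF.var 1) (DF.add (DF.mul (DF.cst 2) (DF.var 0)) (DF.cst 1)))

theorem df_dbl : DF e (fun v => dbl e (v 0)) :=
  DF.cpD (b := fun v => 2 * v 0) (P := fun z v => ∃ y, y < v 0 ∧ (mem e y (v 0) ∧ z = 2 * y))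
    (DF.mul (DF.cst 2) (DF.var 0)) def_dbl

theorem df_dbo : DF e (fun v => dbo e (v 0)) :=
  DF.cpD (b := fun v => 2 * v 0 + 1)
    (P := fun z v => ∃ y, y < v 0 ∧ (mem e y (v 0) ∧ z = 2 * y + 1))
    (DF.add (DF.mul (DF.cst 2) (DF.var 0)) (DF.cst 1)) def_dbo

theorem df_ev : DF e (fun v => ev e (v 0)) :=
  DF.cpD (b := fun v => v 0) (P := fun y v => mem e (2 * y) (v 0)) (DF.var 0)
    (Def.memD (DF.mul (DF.cst 2) (DF.var 0)) (DF.var 1))

theorem df_od : DF e (fun v => od e (v 0)) :=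
  DF.cpD (b := fun v => v 0) (P := fun y v => mem e (2 * y + 1) (v 0)) (DF.var 0)
    (Def.memD (DF.add (DF.mul (DF.cst 2) (DF.var 0)) (DF.cst 1)) (DF.var 1))

theorem mem_dbl {X z : M} : mem e z (dbl e X) ↔ ∃ y, mem e y X ∧ z = 2 * y := by
  unfold dbl
  rw [mem_cp (by
    exact (Def.bex (R := fun y v => mem e y X ∧ v 0 = 2 * y) (DF.cst X)
      (Def.and (Def.memD (DF.var 0) (DF.cst X))
        (Def.eq (DF.var 1) (DF.mul (DF.cst 2) (DF.var 0))))))]
  constructor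
  · rintro ⟨_, y, _, h1, h2⟩; exact ⟨y, h1, h2⟩
  · rintro ⟨y, h1, h2⟩
    have hy := mem_lt h1
    refine ⟨?_, y, hy, h1, h2⟩
    rw [h2]
    exact mul_lt_mul_of_pos_left hy two_pos

theorem mem_dbo {X z : M} : mem e z (dbo e X) ↔ ∃ y, mem e y X ∧ z = 2 * y + 1 := by
  unfold dbo
  rw [mem_cp (by
    exact (Def.bex (R := fun y v => mem e y X ∧ v 0 = 2 * y + 1) (DF.cst X)
      (Def.and (Def.memD (DF.var 0) (DF.cst X))
        (Def.eq (DF.var 1) (DF.add (DF.mul (DF.cst 2) (DF.var 0)) (DF.cst 1))))))]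
  constructor
  · rintro ⟨_, y, _, h1, h2⟩; exact ⟨y, h1, h2⟩
  · rintro ⟨y, h1, h2⟩
    have hy := mem_lt h1
    refine ⟨?_, y, hy, h1, h2⟩
    rw [h2]
    exact add_lt_add_left (mul_lt_mul_of_pos_left hy two_pos) 1

theorem mem_ev {X z : M} : mem e z (ev e X) ↔ mem e (2 * z) X := by
  unfold ev
  rw [mem_cp (P := fun y => mem e (2 * y) X) (Def.memD (DF.mul (DF.cst 2) (DF.var 0)) (DF.cst X))]
  constructor
  · exact fun h => h.2
  · intro h
    exact ⟨lt_of_le_of_lt (le_two_mul z) (mem_lt h), h⟩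

theorem mem_od {X z : M} : mem e z (od e X) ↔ mem e (2 * z + 1) X := by
  unfold od
  rw [mem_cp (P := fun y => mem e (2 * y + 1) X)
    (Def.memD (DF.add (DF.mul (DF.cst 2) (DF.var 0)) (DF.cst 1)) (DF.cst X))]
  constructor
  · exact fun h => h.2
  · intro h
    exact ⟨lt_of_le_of_lt ((le_two_mul z).trans le_self_add) (mem_lt h), h⟩

theorem ev_mx (K L : M) : ev e (mx e K L) = K := by
  apply mem_ext (e := e)
  intro x
  rw [mem_ev, mx, mem_un, mem_dbl, mem_dbo]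
  constructor
  · rintro (⟨y, h1, h2⟩ | ⟨y, _, h2⟩)
    · rw [two_mul_inj h2]; exact h1
    · exact absurd h2 (even_ne_odd e _ _)
  · intro h; exact Or.inl ⟨x, h, rfl⟩

theorem od_mx (K L : M) : od e (mx e K L) = L := by
  apply mem_ext (e := e)
  intro x
  rw [mem_od, mx, mem_un, mem_dbl, mem_dbo]
  constructor
  · rintro (⟨y, _, h2⟩ | ⟨y, h1, h2⟩)
    · exact absurd h2.symm (even_ne_odd e _ _)
    · rw [two_mul_inj (add_right_cancel h2)]; exact h1
  · intro h; exact Or.inr ⟨x, h, rfl⟩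

theorem mem_jn_even {A B : Set M} {x : M} (e : M → M) [EBase e] : 2 * x ∈ jn A B ↔ x ∈ A := by
  constructor
  · rintro ⟨y, (⟨h1, h2⟩ | ⟨h1, _⟩)⟩
    · rw [two_mul_inj h1]; exact h2
    · exact absurd h1 (even_ne_odd e _ _)
  · intro h; exact ⟨x, Or.inl ⟨rfl, h⟩⟩

theorem mem_jn_odd {A B : Set M} {x : M} (e : M → M) [EBase e] : 2 * x + 1 ∈ jn A B ↔ x ∈ B := by
  constructor
  · rintro ⟨y, (⟨h1, _⟩ | ⟨h1, h2⟩)⟩
    · exact absurd h1.symm (even_ne_odd e _ _)
    · rw [two_mul_inj (add_right_cancel h1)]; exact h2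
  · intro h; exact ⟨x, Or.inr ⟨rfl, h⟩⟩

theorem sub_jn {A B : Set M} {X : M} : Sub e X (jn A B) ↔ Sub e (ev e X) A ∧ Sub e (od e X) B := by
  constructor
  · intro h
    refine ⟨fun x hx => ?_, fun x hx => ?_⟩
    · exact (mem_jn_even e).1 (h _ (mem_ev.1 hx))
    · exact (mem_jn_odd e).1 (h _ (mem_od.1 hx))
  · rintro ⟨h1, h2⟩ x hx
    rcases even_or_odd e x with ⟨y, rfl⟩ | ⟨y, rfl⟩
    · exact (mem_jn_even e).2 (h1 y (mem_ev.2 hx))
    · exact (mem_jn_odd e).2 (h2 y (mem_od.2 hx))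

theorem sub_jn_compl {A B : Set M} {X : M} :
    Sub e X (jn A B)ᶜ ↔ Sub e (ev e X) Aᶜ ∧ Sub e (od e X) Bᶜ := by
  constructor
  · intro h
    refine ⟨fun x hx hxA => ?_, fun x hx hxB => ?_⟩
    · exact h _ (mem_ev.1 hx) ((mem_jn_even e).2 hxA)
    · exact h _ (mem_od.1 hx) ((mem_jn_odd e).2 hxB)
  · rintro ⟨h1, h2⟩ x hx hxj
    rcases even_or_odd e x with ⟨y, rfl⟩ | ⟨y, rfl⟩
    · exact h1 y (mem_ev.2 hx) ((mem_jn_even e).1 hxj)
    · exact h2 y (mem_od.2 hx) ((mem_jn_odd e).1 hxj)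

theorem cm_jn {A B : Set M} {K L : M} : Cm e (jn A B) K L ↔
    Cm e A (ev e K) (ev e L) ∧ Cm e B (od e K) (od e L) := by
  unfold Cm
  rw [sub_jn, sub_jn_compl]
  tauto

end Rel2

theorem red_jn_left (A B : Set M) : Red e A (jn A B) := by
  rw [red_iff]
  constructor
  · refine (SB.subB (B := jn A B) (df_dbl (e := e))).congr fun v => ?_
    constructor
    · intro h x hx
      exact (mem_jn_even e).1 (h _ (mem_dbl.2 ⟨x, hx, rfl⟩))
    · intro h z hz
      obtain ⟨y, hy, rfl⟩ := mem_dbl.1 hz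
      exact (mem_jn_even e).2 (h y hy)
  · refine (SB.nsubB (B := jn A B) (df_dbl (e := e))).congr fun v => ?_
    constructor
    · intro h x hx hxA
      exact h _ (mem_dbl.2 ⟨x, hx, rfl⟩) ((mem_jn_even e).2 hxA)
    · intro h z hz hzj
      obtain ⟨y, hy, rfl⟩ := mem_dbl.1 hz
      exact h y hy ((mem_jn_even e).1 hzj)

theorem red_jn_right (A B : Set M) : Red e B (jn A B) := by
  rw [red_iff]
  constructor
  · refine (SB.subB (B := jn A B) (df_dbo (e := e))).congr fun v => ?_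
    constructor
    · intro h x hx
      exact (mem_jn_odd e).1 (h _ (mem_dbo.2 ⟨x, hx, rfl⟩))
    · intro h z hz
      obtain ⟨y, hy, rfl⟩ := mem_dbo.1 hz
      exact (mem_jn_odd e).2 (h y hy)
  · refine (SB.nsubB (B := jn A B) (df_dbo (e := e))).congr fun v => ?_
    constructor
    · intro h x hx hxA
      exact h _ (mem_dbo.2 ⟨x, hx, rfl⟩) ((mem_jn_odd e).2 hxA)
    · intro h z hz hzj
      obtain ⟨y, hy, rfl⟩ := mem_dbo.1 hz
      exact h y hy ((mem_jn_odd e).1 hzj)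

theorem jn_red {A B C : Set M} (h1 : Red e A C) (h2 : Red e B C) :
    Red e (jn A B) C := by
  rw [red_iff] at h1 h2 ⊢
  constructor
  · refine (SB.and (SB.of1 (R := fun x => Sub e x A) h1.1 df_ev)
      (SB.of1 (R := fun x => Sub e x B) h2.1 df_od)).congr fun v => ?_
    exact sub_jn.symm
  · refine (SB.and (SB.of1 (R := fun x => Sub e x Aᶜ) h1.2 df_ev)
      (SB.of1 (R := fun x => Sub e x Bᶜ) h2.2 df_od)).congr fun v => ?_
    exact sub_jn_compl.symm

/-- the oracle `jn A B` as two oracles -/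
theorem SB_jn_iff {A B : Set M} {R : (ℕ → M) → Prop} : SB e (jn A B) R ↔
    ∃ Φ : M → M → M → M → (ℕ → M) → Prop,
      ES1 e (fun v => Φ (v 0) (v 1) (v 2) (v 3) (tl (tl (tl (tl v))))) ∧
      ∀ v, R v ↔ ∃ K L K' L', Cm e A K L ∧ Cm e B K' L' ∧ Φ K L K' L' v := by
  constructor
  · rintro ⟨Φ, hΦ, h⟩
    refine ⟨fun K L K' L' v => ∃ X, ∃ Y, (ev e X = K ∧ ev e Y = L) ∧
      (od e X = K' ∧ od e Y = L') ∧ Φ X Y v, ?_, ?_⟩
    · refine ES1.ex (R := fun X v => ∃ Y, (ev e X = v 0 ∧ ev e Y = v 1) ∧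
        (od e X = v 2 ∧ od e Y = v 3) ∧ Φ X Y (tl (tl (tl (tl v))))) ?_
      refine ES1.ex (R := fun Y v => (ev e (v 0) = v 1 ∧ ev e Y = v 2) ∧
        (od e (v 0) = v 3 ∧ od e Y = v 4) ∧ Φ (v 0) Y (tl (tl (tl (tl (tl v)))))) ?_
      refine ES1.and (ES1.of_def (Def.and ?_ ?_)) (ES1.and (ES1.of_def (Def.and ?_ ?_)) ?_)
      · exact Def.eq (DF.of1 (F := ev e) df_ev (DF.var 1)) (DF.var 2)
      · exact Def.eq (DF.of1 (F := ev e) df_ev (DF.var 0)) (DF.var 3)
      · exact Def.eq (DF.of1 (F := od e) df_od (DF.var 1)) (DF.var 4)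
      · exact Def.eq (DF.of1 (F := od e) df_od (DF.var 0)) (DF.var 5)
      · exact (hΦ.rename (fun n => Nat.casesOn n 1 (fun m => Nat.casesOn m 0
          (fun k => k + 6)))).congr fun v => Iff.rfl
    · intro v
      rw [h v]
      constructor
      · rintro ⟨X, Y, h1, h2⟩
        rw [cm_jn] at h1
        exact ⟨_, _, _, _, h1.1, h1.2, X, Y, ⟨rfl, rfl⟩, ⟨rfl, rfl⟩, h2⟩
      · rintro ⟨K, L, K', L', h1, h2, X, Y, ⟨rfl, rfl⟩, ⟨rfl, rfl⟩, h3⟩
        exact ⟨X, Y, cm_jn.2 ⟨h1, h2⟩, h3⟩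
  · rintro ⟨Φ, hΦ, h⟩
    refine ⟨fun X Y v => Φ (ev e X) (ev e Y) (od e X) (od e Y) v, ?_, ?_⟩
    · have h1 : ES1 e (fun v => ∃ a, ∃ b, ∃ c, ∃ d, (ev e (v 0) = a ∧ ev e (v 1) = b) ∧
          (od e (v 0) = c ∧ od e (v 1) = d) ∧ Φ a b c d (tl (tl v))) := by
        refine ES1.ex (R := fun a v => ∃ b, ∃ c, ∃ d, (ev e (v 0) = a ∧ ev e (v 1) = b) ∧
          (od e (v 0) = c ∧ od e (v 1) = d) ∧ Φ a b c d (tl (tl v))) ?_
        refine ES1.ex (R := fun b v => ∃ c, ∃ d, (ev e (v 1) = v 0 ∧ ev e (v 2) = b) ∧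
          (od e (v 1) = c ∧ od e (v 2) = d) ∧ Φ (v 0) b c d (tl (tl (tl v)))) ?_
        refine ES1.ex (R := fun c v => ∃ d, (ev e (v 2) = v 1 ∧ ev e (v 3) = v 0) ∧
          (od e (v 2) = c ∧ od e (v 3) = d) ∧ Φ (v 1) (v 0) c d (tl (tl (tl (tl v))))) ?_
        refine ES1.ex (R := fun d v => (ev e (v 3) = v 2 ∧ ev e (v 4) = v 1) ∧
          (od e (v 3) = v 0 ∧ od e (v 4) = d) ∧ Φ (v 2) (v 1) (v 0) d
            (tl (tl (tl (tl (tl v)))))) ?_
        refine ES1.and (ES1.of_def (Def.and ?_ ?_)) (ES1.and (ES1.of_def (Def.and ?_ ?_)) ?_)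
        · exact Def.eq (DF.of1 (F := ev e) df_ev (DF.var 4)) (DF.var 3)
        · exact Def.eq (DF.of1 (F := ev e) df_ev (DF.var 5)) (DF.var 2)
        · exact Def.eq (DF.of1 (F := od e) df_od (DF.var 4)) (DF.var 1)
        · exact Def.eq (DF.of1 (F := od e) df_od (DF.var 5)) (DF.var 0)
        · exact (hΦ.rename (fun n => if n = 0 then 3 else if n = 1 then 2 else if n = 2 then 1 else
            if n = 3 then 0 else n + 2)).congr fun v => Iff.rfl
      refine h1.congr fun v => ?_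
      constructor
      · rintro ⟨a, b, c, d, ⟨rfl, rfl⟩, ⟨rfl, rfl⟩, h2⟩; exact h2
      · intro h2; exact ⟨_, _, _, _, ⟨rfl, rfl⟩, ⟨rfl, rfl⟩, h2⟩
    · intro v
      rw [h v]
      constructor
      · rintro ⟨K, L, K', L', h1, h2, h3⟩
        refine ⟨mx e K K', mx e L L', ?_, ?_⟩
        · rw [cm_jn, ev_mx, ev_mx, od_mx, od_mx]; exact ⟨h1, h2⟩
        · show Φ (ev e (mx e K K')) (ev e (mx e L L')) (od e (mx e K K')) (od e (mx e L L')) v
          rw [ev_mx, ev_mx, od_mx, od_mx]; exact h3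
      · rintro ⟨X, Y, h1, h2⟩
        rw [cm_jn] at h1
        exact ⟨_, _, _, _, h1.1, h1.2, h2⟩

theorem VV_congr {A B : Set M} (h1 : Red e A B) (h2 : Red e B A) (hA : VV e A) :
    VV e B := by
  intro C E hC hE hEj
  refine hA C E (fun h => hC (Red.trans h2 h)) (fun h => hE (Red.trans h2 h)) ?_
  exact Red.trans hEj (jn_red (red_jn_left C A) (Red.trans h2 (red_jn_right C A)))

end Helper40.Cut
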